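import Mathlib

set_option autoImplicit false

namespace Pool.Agent.H54.Afa

open Finset

/-- `t ^ x` in `Z/(t^n-1)`, positions `x` modulo `n`. -/
def P (t n : ℕ) (x : ZMod n) : ZMod (t ^ n - 1) := (t : ZMod (t ^ n - 1)) ^ x.val

/-- standard representative of `u * t ^ x`. -/
def W (t n : ℕ) (u : ZMod (t ^ n - 1)) (x : ZMod n) : ℕ := (u * P t n x).val

/-- digit of `u` at position `x`. -/
def dg (t n : ℕ) (u : ZMod (t ^ n - 1)) (x : ZMod n) : ℕ := W t n u (-x) % t

section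
variable {t n : ℕ}

theorem cast_tn (ht : 2 ≤ t) : ((t ^ n : ℕ) : ZMod (t ^ n - 1)) = 1 := by
  have h1 : 1 ≤ t ^ n := Nat.one_le_pow _ _ (by omega)
  have h : (((t ^ n - 1 + 1 : ℕ)) : ZMod (t ^ n - 1)) = 1 := by
    rw [Nat.cast_add, ZMod.natCast_self]; simp
  rwa [Nat.sub_add_cancel h1] at h

theorem t_pow_n (ht : 2 ≤ t) : (t : ZMod (t ^ n - 1)) ^ n = 1 := by
  rw [← Nat.cast_pow]; exact cast_tn ht

theorem t_pow_mod (ht : 2 ≤ t) (a : ℕ) :
    (t : ZMod (t ^ n - 1)) ^ (a % n) = (t : ZMod (t ^ n - 1)) ^ a := by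
  conv_rhs => rw [← Nat.div_add_mod a n]
  rw [_root_.pow_add, pow_mul, t_pow_n ht, one_pow, one_mul]

theorem P_zero [NeZero n] : P t n 0 = 1 := by
  unfold P; rw [ZMod.val_zero, pow_zero]

theorem P_add [NeZero n] (ht : 2 ≤ t) (x y : ZMod n) : P t n (x + y) = P t n x * P t n y := by
  unfold P
  rw [ZMod.val_add, t_pow_mod ht, _root_.pow_add]

theorem P_natCast [NeZero n] (ht : 2 ≤ t) (k : ℕ) :
    P t n (k : ZMod n) = (t : ZMod (t ^ n - 1)) ^ k := by
  unfold P
  rw [ZMod.val_natCast, t_pow_mod ht]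

theorem P_neg_mul [NeZero n] (ht : 2 ≤ t) (x : ZMod n) : P t n (-x) * P t n x = 1 := by
  rw [← P_add ht, neg_add_cancel, P_zero]

theorem W_add [NeZero n] (ht : 2 ≤ t) (u : ZMod (t ^ n - 1)) (x y : ZMod n) :
    W t n u (x + y) = W t n (u * P t n x) y := by
  unfold W
  rw [P_add ht, mul_assoc]

theorem dg_lt (ht : 2 ≤ t) (u : ZMod (t ^ n - 1)) (x : ZMod n) : dg t n u x < t :=
  Nat.mod_lt _ (by omega)

end

section
variable {t n : ℕ} [NeZero n]

theorem n_pos : 1 ≤ n := Nat.one_le_iff_ne_zero.mpr (NeZero.ne n)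

theorem tn_ge (ht : 2 ≤ t) : t ≤ t ^ n := by
  calc t = t ^ 1 := (pow_one t).symm
    _ ≤ t ^ n := Nat.pow_le_pow_right (by omega) (Nat.one_le_iff_ne_zero.mpr (NeZero.ne n))

theorem N_succ (ht : 2 ≤ t) : (t ^ n - 1) + 1 = t ^ n :=
  Nat.sub_add_cancel (le_trans (by omega) (tn_ge (n := n) ht))

theorem N_pos (ht : 2 ≤ t) : 0 < t ^ n - 1 := by
  have := tn_ge (n := n) ht
  omega

theorem W_lt (ht : 2 ≤ t) (u : ZMod (t ^ n - 1)) (x : ZMod n) : W t n u x < t ^ n - 1 := by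
  have : NeZero (t ^ n - 1) := ⟨(N_pos ht).ne'⟩
  exact ZMod.val_lt _

theorem W_lt' (ht : 2 ≤ t) (u : ZMod (t ^ n - 1)) (x : ZMod n) : W t n u x < t ^ n := by
  have := W_lt ht u x
  omega

theorem W_cast (ht : 2 ≤ t) (u : ZMod (t ^ n - 1)) (x : ZMod n) :
    ((W t n u x : ℕ) : ZMod (t ^ n - 1)) = u * P t n x := by
  have : NeZero (t ^ n - 1) := ⟨(N_pos ht).ne'⟩
  unfold W
  exact ZMod.natCast_zmod_val _

theorem W_pos (ht : 2 ≤ t) {u : ZMod (t ^ n - 1)} (hu : u ≠ 0) (x : ZMod n) : 0 < W t n u x := by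
  rcases Nat.eq_zero_or_pos (W t n u x) with h | h
  · exfalso
    have h1 := W_cast ht u x
    rw [h, Nat.cast_zero] at h1
    apply hu
    calc u = u * (P t n (-x) * P t n x) := by rw [P_neg_mul ht, mul_one]
      _ = (u * P t n x) * P t n (-x) := by ring
      _ = 0 := by rw [← h1, zero_mul]
  · exact h

/-- value from a natural number congruence -/
theorem W_of_cast (ht : 2 ≤ t) {u : ZMod (t ^ n - 1)} (hu : u ≠ 0) (x : ZMod n) (s : ℕ)
    (hs : s < t ^ n) (h : ((s : ℕ) : ZMod (t ^ n - 1)) = u * P t n x) : W t n u x = s := by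
  have hN := N_succ (n := n) ht
  have h0 := W_pos ht hu x
  have h1 := W_cast ht u x
  have h2 := W_lt ht u x
  rw [← h, ZMod.natCast_eq_natCast_iff] at h1
  have h3 : W t n u x % (t ^ n - 1) = s % (t ^ n - 1) := h1
  rw [Nat.mod_eq_of_lt h2] at h3
  rcases Nat.lt_or_ge s (t ^ n - 1) with h4 | h4
  · rw [Nat.mod_eq_of_lt h4] at h3
    exact h3
  · have h5 : s = t ^ n - 1 := by omega
    rw [h5, Nat.mod_self] at h3
    omega

theorem rot_aux (ht : 2 ≤ t) (w q : ℕ) (hw : w < t ^ n - 1) (hq : q ≤ n) :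
    w / t ^ (n - q) + t ^ q * (w % t ^ (n - q)) < t ^ n - 1 := by
  have hN := N_succ (n := n) ht
  have htq : t ^ n = t ^ q * t ^ (n - q) := by rw [← _root_.pow_add]; congr 1; omega
  have h1 : 0 < t ^ (n - q) := Nat.pow_pos (by omega)
  have h1' : 0 < t ^ q := Nat.pow_pos (by omega)
  have h2 : t ^ (n - q) * (w / t ^ (n - q)) + w % t ^ (n - q) = w := Nat.div_add_mod _ _
  have h3 : w % t ^ (n - q) < t ^ (n - q) := Nat.mod_lt _ h1
  have h4 : w / t ^ (n - q) < t ^ q := by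
    rw [Nat.div_lt_iff_lt_mul h1]
    rw [← htq]; omega
  generalize w / t ^ (n - q) = h at *
  generalize w % t ^ (n - q) = r at *
  generalize t ^ (n - q) = K at *
  generalize t ^ q = Q at *
  have h5 : t ^ n - 1 = Q * K - 1 := by rw [htq]
  rw [h5] at hw ⊢
  rw [htq] at hN
  -- h < Q, r < K, K h + r = w < QK - 1
  by_contra hcon
  have h6 : Q * r ≤ Q * (K - 1) := Nat.mul_le_mul_left _ (by omega)
  have h7 : Q * (K - 1) + Q = Q * K := by
    rw [← Nat.mul_succ]; congr 1; omega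
  have h8 : h = Q - 1 := by
    by_contra hne
    omega
  have h9 : r = K - 1 := by
    by_contra hne
    have h10 : Q * r ≤ Q * (K - 2) := Nat.mul_le_mul_left _ (by omega)
    have h11 : Q * (K - 2) + Q + Q = Q * K := by
      have : K = (K - 2) + 2 := by omega
      conv_rhs => rw [this]
      ring
    omega
  rw [h8, h9] at h2
  have h12 : K * (Q - 1) + K = Q * K := by
    rw [← Nat.mul_succ, mul_comm]; congr 1; omega
  omega

/-- rotation formula -/
theorem W_rot (ht : 2 ≤ t) (u : ZMod (t ^ n - 1)) (x : ZMod n) (q : ℕ) (hq : q ≤ n) :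
    W t n u (x + (q : ℕ)) = W t n u x / t ^ (n - q) + t ^ q * (W t n u x % t ^ (n - q)) := by
  by_cases hu : u = 0
  · have h0 : ∀ y, W t n u y = 0 := by
      intro y
      unfold W
      rw [hu, zero_mul]
      have : NeZero (t ^ n - 1) := ⟨(N_pos ht).ne'⟩
      exact ZMod.val_zero
    rw [h0, h0]; simp
  have hw := W_lt ht u x
  have hlt := rot_aux (n := n) ht (W t n u x) q hw hq
  apply W_of_cast ht hu
  · omega
  · rw [P_add ht, P_natCast ht, ← mul_assoc, ← W_cast ht u x]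
    have htq : t ^ n = t ^ q * t ^ (n - q) := by rw [← _root_.pow_add]; congr 1; omega
    have h2 : t ^ (n - q) * (W t n u x / t ^ (n - q)) + W t n u x % t ^ (n - q) = W t n u x :=
      Nat.div_add_mod _ _
    generalize W t n u x / t ^ (n - q) = h at *
    generalize W t n u x % t ^ (n - q) = r at *
    rw [← h2]
    push_cast
    have h3 : (t : ZMod (t ^ n - 1)) ^ q * (t : ZMod (t ^ n - 1)) ^ (n - q) = 1 := by
      rw [← _root_.pow_add, show q + (n - q) = n by omega]; exact t_pow_n ht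
    calc (h : ZMod (t ^ n - 1)) + (t : ZMod (t ^ n - 1)) ^ q * (r : ZMod (t ^ n - 1))
        = ((t : ZMod (t ^ n - 1)) ^ q * (t : ZMod (t ^ n - 1)) ^ (n - q)) * h
          + (t : ZMod (t ^ n - 1)) ^ q * r := by rw [h3, one_mul]
      _ = _ := by ring

theorem W_dig (ht : 2 ≤ t) (u : ZMod (t ^ n - 1)) (x : ZMod n) (q : ℕ) (hq1 : 1 ≤ q)
    (hq : q ≤ n) : W t n u (x + (q : ℕ)) % t = W t n u x / t ^ (n - q) % t := by
  rw [W_rot ht u x q hq]
  obtain ⟨q', rfl⟩ : ∃ q', q = q' + 1 := ⟨q - 1, by omega⟩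
  rw [pow_succ, mul_assoc, mul_comm (t ^ q'), mul_assoc, Nat.add_mul_mod_self_left]

theorem W_step (ht : 2 ≤ t) (u : ZMod (t ^ n - 1)) (x : ZMod n) :
    t * W t n u x = (t ^ n - 1) * (W t n u (x + 1) % t) + W t n u (x + 1) := by
  have hn := n_pos (n := n)
  have hN := N_succ (n := n) ht
  have h1 := W_rot ht u x 1 hn
  have h2 := W_dig ht u x 1 le_rfl hn
  rw [Nat.cast_one] at h1 h2
  have hw := W_lt' ht u x
  have h3 : W t n u x / t ^ (n - 1) < t := by
    rw [Nat.div_lt_iff_lt_mul (Nat.pow_pos (by omega))]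
    calc W t n u x < t ^ n := hw
      _ = t * t ^ (n - 1) := by
        rw [mul_comm, ← pow_succ]; congr 1; omega
  rw [h2, Nat.mod_eq_of_lt h3, h1, pow_one]
  have h4 : t ^ (n - 1) * (W t n u x / t ^ (n - 1)) + W t n u x % t ^ (n - 1) = W t n u x :=
    Nat.div_add_mod _ _
  have h5 : t ^ n = t ^ (n - 1) * t := by rw [← pow_succ]; congr 1; omega
  generalize W t n u x / t ^ (n - 1) = h at *
  generalize W t n u x % t ^ (n - 1) = r at *
  rw [← h4, ← add_assoc]
  have h6 : (t ^ n - 1) * h + h = t ^ n * h := by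
    rw [← Nat.succ_mul]
    congr 1
  rw [h6, h5]
  ring

theorem W_eq_mul_of_dvd (ht : 2 ≤ t) (u : ZMod (t ^ n - 1)) (x : ZMod n)
    (h : W t n u (x + 1) % t = 0) : W t n u (x + 1) = t * W t n u x := by
  have := W_step ht u x
  rw [h, mul_zero, zero_add] at this
  exact this.symm

/-- digits of the standard representative -/
theorem dg_eq (ht : 2 ≤ t) (u : ZMod (t ^ n - 1)) (i : ℕ) (hi : i < n) :
    dg t n u (i : ZMod n) = u.val / t ^ i % t := by
  have h := W_dig ht u 0 (n - i) (by omega) (by omega)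
  have h1 : (0 : ZMod n) + ((n - i : ℕ) : ZMod n) = -(i : ZMod n) := by
    rw [zero_add, Nat.cast_sub (by omega), ZMod.natCast_self, zero_sub]
  rw [h1, show n - (n - i) = i by omega] at h
  unfold dg
  rw [h]
  unfold W
  rw [P_zero, mul_one]

end

end Pool.Agent.H54.Afa
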