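import Mathlib
import Pool.Agent.H54.Afa.Basic

set_option autoImplicit false

namespace Pool.Agent.H54.Afa

open Finset

/-- digits of a number given by its digits -/
theorem digit_sum (t : ℕ) (ht : 0 < t) (a : ℕ → ℕ) :
    ∀ (n i : ℕ), i < n → (∀ j < n, a j < t) →
      (∑ j ∈ range n, a j * t ^ j) / t ^ i % t = a i := by
  intro n
  induction n with
  | zero => intro i hi; omega
  | succ n ih =>
    intro i hi ha
    rw [sum_range_succ]
    have hlt : ∀ k, (∀ j < k, a j < t) → ∑ j ∈ range k, a j * t ^ j < t ^ k := by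
      intro k
      induction k with
      | zero => intro _; simp
      | succ k ihk =>
        intro h
        rw [sum_range_succ, pow_succ]
        have h1 := ihk (fun j hj => h j (by omega))
        have h2 := h k (by omega)
        have h3 : (a k + 1) * t ^ k ≤ t * t ^ k := Nat.mul_le_mul_right _ h2
        rw [Nat.succ_mul, mul_comm t] at h3
        omega
    rcases Nat.lt_or_ge i n with h | h
    · have h1 : t ^ n = t ^ i * (t * t ^ (n - i - 1)) := by
        rw [← pow_succ', ← _root_.pow_add]; congr 1; omega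
      rw [h1, show a n * (t ^ i * (t * t ^ (n - i - 1))) = t ^ i * (t * (a n * t ^ (n - i - 1))) by
        ring, Nat.add_mul_div_left _ _ (Nat.pow_pos ht), Nat.add_mul_mod_self_left]
      exact ih i h (fun j hj => ha j (by omega))
    · have hi' : i = n := by omega
      subst hi'
      rw [mul_comm (a i), Nat.add_mul_div_left _ _ (Nat.pow_pos ht),
        Nat.div_eq_of_lt (hlt i (fun j hj => ha j (by omega))), zero_add]
      exact Nat.mod_eq_of_lt (ha i (by omega))

theorem sum_digits (t : ℕ) (ht : 0 < t) : ∀ (n w : ℕ), w < t ^ n →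
    ∑ i ∈ range n, (w / t ^ i % t) * t ^ i = w := by
  intro n
  induction n with
  | zero => intro w hw; simp at hw; simp [hw]
  | succ n ih =>
    intro w hw
    rw [sum_range_succ]
    have h1 : w / t ^ n < t := by
      rw [Nat.div_lt_iff_lt_mul (Nat.pow_pos ht)]
      rw [pow_succ] at hw
      rwa [mul_comm]
    rw [Nat.mod_eq_of_lt h1]
    have h2 : ∑ i ∈ range n, (w / t ^ i % t) * t ^ i = w % t ^ n := by
      rw [← ih (w % t ^ n) (Nat.mod_lt _ (Nat.pow_pos ht))]
      apply sum_congr rfl
      intro i hi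
      rw [mem_range] at hi
      congr 1
      have h3 : t ^ n = t ^ i * (t * t ^ (n - i - 1)) := by
        rw [← pow_succ', ← _root_.pow_add]; congr 1; omega
      rw [h3, Nat.mod_mul_right_div_self, Nat.mod_mul_right_mod]
    rw [h2, mul_comm]
    exact Nat.mod_add_div _ _

section
variable {t n : ℕ} [NeZero n]

theorem sum_zmod_eq_range (g : ZMod n → ℕ) :
    ∑ x : ZMod n, g x = ∑ i ∈ range n, g (i : ZMod n) := by
  symm
  apply sum_bij (fun (i : ℕ) _ => (i : ZMod n))
  · intro i _; exact mem_univ _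
  · intro i hi j hj h
    rw [mem_range] at hi hj
    have := congrArg ZMod.val h
    rwa [ZMod.val_natCast, ZMod.val_natCast, Nat.mod_eq_of_lt hi, Nat.mod_eq_of_lt hj] at this
  · intro x _
    exact ⟨x.val, mem_range.mpr (ZMod.val_lt x), ZMod.natCast_zmod_val x⟩
  · intro i _; rfl

omit [NeZero n] in
theorem val_natCast_lt (i : ℕ) (hi : i < n) : ((i : ℕ) : ZMod n).val = i := by
  rw [ZMod.val_natCast, Nat.mod_eq_of_lt hi]

/-- expansion of `W` -/
theorem W_expand (ht : 2 ≤ t) (v : ZMod (t ^ n - 1)) (x : ZMod n) :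
    W t n v x = ∑ y : ZMod n, dg t n v y * t ^ (x + y).val := by
  have h1 : ∑ y : ZMod n, dg t n v y * t ^ (x + y).val
      = ∑ z : ZMod n, dg t n v (z - x) * t ^ z.val := by
    apply Fintype.sum_equiv (Equiv.addLeft x)
    intro y
    simp
  rw [h1, sum_zmod_eq_range]
  conv_lhs => rw [← sum_digits t (by omega) n (W t n v x) (W_lt' ht v x)]
  apply sum_congr rfl
  intro i hi
  rw [mem_range] at hi
  rw [val_natCast_lt i hi]
  congr 1
  have h2 := W_dig ht v x (n - i) (by omega) (by omega)
  rw [show n - (n - i) = i by omega] at h2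
  rw [← h2]
  unfold dg
  congr 2
  rw [Nat.cast_sub (by omega), ZMod.natCast_self]
  ring

/-- the mass identity -/
theorem mass_symm (ht : 2 ≤ t) (u v : ZMod (t ^ n - 1)) :
    ∑ x : ZMod n, dg t n u x * W t n v x = ∑ y : ZMod n, dg t n v y * W t n u y := by
  simp_rw [W_expand ht v, W_expand ht u, mul_sum]
  rw [sum_comm]
  apply sum_congr rfl
  intro y _
  apply sum_congr rfl
  intro x _
  rw [add_comm y x]
  ring

theorem digit_sum_zmod (ht : 0 < t) (a : ZMod n → ℕ) (ha : ∀ x, a x < t) (i : ℕ) (hi : i < n) :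
    (∑ x : ZMod n, a x * t ^ x.val) / t ^ i % t = a (i : ZMod n) := by
  rw [sum_zmod_eq_range (fun x => a x * t ^ x.val)]
  have : ∑ i ∈ range n, a (i : ZMod n) * t ^ (i : ZMod n).val
      = ∑ i ∈ range n, (fun i : ℕ => a (i : ZMod n)) i * t ^ i := by
    apply sum_congr rfl
    intro j hj
    rw [val_natCast_lt j (mem_range.mp hj)]
  rw [this]
  exact digit_sum t ht (fun i : ℕ => a (i : ZMod n)) n i hi (fun j _ => ha _)

theorem val_expand (ht : 2 ≤ t) (v : ZMod (t ^ n - 1)) :
    v.val = ∑ y : ZMod n, dg t n v y * t ^ y.val := by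
  have h := W_expand ht v 0
  simp only [zero_add] at h
  rw [← h]
  unfold W
  rw [P_zero, mul_one]

/-- `b` covers `a` -/
def Cov (t n : ℕ) (a b : ZMod (t ^ n - 1)) : Prop :=
  ∀ i < n, a.val / t ^ i % t ≤ b.val / t ^ i % t

/-- the pair looked for -/
def Pair (t n : ℕ) (d f : ZMod (t ^ n - 1)) : Prop :=
  ∃ c g : ZMod (t ^ n - 1), c ≠ 0 ∧ g ≠ 0 ∧ (Cov t n g (d * c) ∧ g ≠ d * c) ∧
    (Cov t n c (f * g) ∧ c ≠ f * g)

omit [NeZero n] in
theorem Pair.symm {d f : ZMod (t ^ n - 1)} (h : Pair t n d f) : Pair t n f d := by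
  obtain ⟨c, g, h1, h2, h3, h4⟩ := h
  exact ⟨g, c, h2, h1, h4, h3⟩

/-- residue of a multiset of positions -/
noncomputable def res (t n : ℕ) (M : Multiset (ZMod n)) : ZMod (t ^ n - 1) := (M.map (P t n)).sum

theorem sum_map_eq_count {β : Type*} [AddCommMonoid β] (M : Multiset (ZMod n)) (g : ZMod n → β) :
    (M.map g).sum = ∑ x : ZMod n, M.count x • g x := by
  classical
  rw [sum_multiset_map_count]
  apply sum_subset (subset_univ _)
  intro x _ hx
  rw [Multiset.mem_toFinset] at hx
  rw [Multiset.count_eq_zero_of_notMem hx, zero_smul]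

/-- facts on the residue of a multiset covered by a residue `e` -/
theorem res_facts (ht : 2 ≤ t) (M : Multiset (ZMod n)) (e : ZMod (t ^ n - 1))
    (hM : ∀ x, M.count x ≤ dg t n e x) (hM0 : M ≠ 0) :
    res t n M ≠ 0 ∧ (∀ i, i < n → (res t n M).val / t ^ i % t = M.count (i : ZMod n)) := by
  classical
  have hN := N_succ (n := n) ht
  have hNe : NeZero (t ^ n - 1) := ⟨(N_pos ht).ne'⟩
  set gn := ∑ x : ZMod n, M.count x * t ^ x.val with hgn
  have h1 : gn ≤ e.val := by
    rw [val_expand ht e]
    apply sum_le_sum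
    intro x _
    exact Nat.mul_le_mul_right _ (hM x)
  have h2 : e.val < t ^ n - 1 := ZMod.val_lt _
  have h3 : ((gn : ℕ) : ZMod (t ^ n - 1)) = res t n M := by
    unfold res
    rw [sum_map_eq_count, hgn]
    push_cast
    apply sum_congr rfl
    intro x _
    rw [nsmul_eq_mul]
    rfl
  have h4 : (res t n M).val = gn := by
    rw [← h3, ZMod.val_natCast, Nat.mod_eq_of_lt (by omega)]
  refine ⟨?_, ?_⟩
  · intro h0
    rw [h0, ZMod.val_zero] at h4
    apply hM0
    rw [Multiset.eq_zero_iff_forall_notMem]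
    intro x hx
    have h5 : M.count x * t ^ x.val ≤ gn := by
      rw [hgn]
      exact single_le_sum (f := fun x : ZMod n => M.count x * t ^ x.val)
        (fun _ _ => Nat.zero_le _) (mem_univ x)
    have h6 : 0 < M.count x := Multiset.count_pos.mpr hx
    have h7 : 0 < M.count x * t ^ x.val := Nat.mul_pos h6 (Nat.pow_pos (by omega))
    omega
  · intro i hi
    rw [h4, hgn]
    exact digit_sum_zmod (by omega) (fun x => M.count x)
      (fun x => lt_of_le_of_lt (hM x) (dg_lt ht e x)) i hi

theorem W_res (ht : 2 ≤ t) (f : ZMod (t ^ n - 1)) (M : Multiset (ZMod n)) :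
    (((M.map (W t n f)).sum : ℕ) : ZMod (t ^ n - 1)) = f * res t n M := by
  unfold res
  induction M using Multiset.induction_on with
  | empty => simp
  | cons x M ih =>
    rw [Multiset.map_cons, Multiset.sum_cons, Multiset.map_cons, Multiset.sum_cons,
      Nat.cast_add, ih, W_cast ht f x, mul_add]

/-- the winning criterion -/
theorem win (ht : 2 ≤ t) {d f : ZMod (t ^ n - 1)} (hfd : f * d = 1)
    (c : ZMod (t ^ n - 1)) (hc : c ≠ 0) (M : Multiset (ZMod n))
    (hM : ∀ x, M.count x ≤ dg t n (d * c) x) (hM0 : M ≠ 0)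
    (hS : (M.map (W t n f)).sum < t ^ n)
    (hcov : ∀ i < n, c.val / t ^ i % t ≤ (M.map (W t n f)).sum / t ^ i % t)
    (hmass : (M.map (W t n f)).sum < ∑ x : ZMod n, dg t n (d * c) x * W t n f x) :
    Pair t n d f := by
  classical
  obtain ⟨h1, h2⟩ := res_facts ht M (d * c) hM hM0
  have hval : (f * res t n M).val = (M.map (W t n f)).sum := by
    have h3 : f * res t n M ≠ 0 := by
      intro h
      apply h1
      calc res t n M = (f * d) * res t n M := by rw [hfd, one_mul]
        _ = d * (f * res t n M) := by ring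
        _ = 0 := by rw [h, mul_zero]
    have h4 := W_of_cast ht h3 0 _ hS (by rw [W_res ht, P_zero, mul_one])
    rw [← h4]
    unfold W
    rw [P_zero, mul_one]
  have hne : res t n M ≠ d * c := by
    intro h
    apply hmass.ne
    rw [sum_map_eq_count]
    apply sum_congr rfl
    intro x _
    rw [smul_eq_mul]
    congr 1
    have h5 := h2 x.val (ZMod.val_lt x)
    rw [h, ← dg_eq ht _ _ (ZMod.val_lt x), ZMod.natCast_zmod_val] at h5
    exact h5.symm
  refine ⟨c, res t n M, hc, h1, ⟨?_, hne⟩, ?_, ?_⟩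
  · intro i hi
    rw [h2 i hi, ← dg_eq ht _ i hi]
    exact hM _
  · intro i hi
    rw [hval]
    exact hcov i hi
  · intro h
    apply hne
    rw [h, ← mul_assoc, mul_comm d f, hfd, one_mul]

end

end Pool.Agent.H54.Afa
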