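import Mathlib
import Pool.Agent.H54.Afa.Win

set_option autoImplicit false

namespace Pool.Agent.H54.Afa

open Finset

/-- what is left when `c` or `g` a power of `t` does not work -/
structure Good (t n : ℕ) [NeZero n] (d f : ZMod (t ^ n - 1)) : Prop where
  fd : f * d = 1
  a1 : ∀ i : ZMod n, dg t n d i ≠ 0 → W t n f i % t = 0
  a2 : ∑ i : ZMod n, dg t n d i * W t n f i = t ^ n
  b1 : ∀ j : ZMod n, dg t n f j ≠ 0 → W t n d j % t = 0
  b2 : ∑ j : ZMod n, dg t n f j * W t n d j = t ^ n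

section
variable {t n : ℕ} [NeZero n] {d f : ZMod (t ^ n - 1)}

theorem Good.symm (h : Good t n d f) : Good t n f d :=
  ⟨by rw [mul_comm]; exact h.fd, h.b1, h.b2, h.a1, h.a2⟩

end

end Pool.Agent.H54.Afa
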