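import Mathlib
import Pool.Agent.H54.Afa.Good

set_option autoImplicit false

namespace Pool.Agent.H54.Afa

open Finset

/-- `Good` with the first level `m ≥ 1` in the sum set. -/
structure Lvl (t n m : ℕ) [NeZero n] (d f : ZMod (t ^ n - 1)) : Prop extends Good t n d f where
  m1 : 1 ≤ m
  mn : m < n
  av : ∀ l < m, ∀ i j : ZMod n, dg t n d i ≠ 0 → dg t n f j ≠ 0 → i + j ≠ (l : ZMod n)
  ex : ∃ i j : ZMod n, dg t n d i ≠ 0 ∧ dg t n f j ≠ 0 ∧ i + j = (m : ZMod n)

section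
variable {t n m : ℕ} [NeZero n] {d f : ZMod (t ^ n - 1)}

theorem Lvl.symm (h : Lvl t n m d f) : Lvl t n m f d :=
  { toGood := h.toGood.symm
    m1 := h.m1
    mn := h.mn
    av := fun l hl i j hi hj => by rw [add_comm]; exact h.av l hl j i hj hi
    ex := by
      obtain ⟨i, j, h1, h2, h3⟩ := h.ex
      exact ⟨j, i, h2, h1, by rw [add_comm]; exact h3⟩ }

theorem exists_dg_ne (ht : 2 ≤ t) {u : ZMod (t ^ n - 1)} (hu : u ≠ 0) : ∃ x, dg t n u x ≠ 0 := by
  by_contra hcon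
  push Not at hcon
  have h := val_expand ht u
  simp only [hcon, zero_mul, sum_const_zero] at h
  have hNe : NeZero (t ^ n - 1) := ⟨(N_pos ht).ne'⟩
  exact hu ((ZMod.val_eq_zero u).mp h)

theorem Good.ne_zero (ht : 2 ≤ t) (h : Good t n d f) : d ≠ 0 ∧ f ≠ 0 := by
  have hN := N_succ (n := n) ht
  have h2 := h.a2
  have h3 := h.b2
  constructor
  · intro h0
    have : ∀ x, dg t n d x = 0 := by
      intro x
      unfold dg W
      rw [h0, zero_mul]
      have hNe : NeZero (t ^ n - 1) := ⟨(N_pos ht).ne'⟩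
      rw [ZMod.val_zero, Nat.zero_mod]
    simp only [this, zero_mul, sum_const_zero] at h2
    omega
  · intro h0
    have : ∀ x, dg t n f x = 0 := by
      intro x
      unfold dg W
      rw [h0, zero_mul]
      have hNe : NeZero (t ^ n - 1) := ⟨(N_pos ht).ne'⟩
      rw [ZMod.val_zero, Nat.zero_mod]
    simp only [this, zero_mul, sum_const_zero] at h3
    omega

theorem Good.exists_lvl (ht : 2 ≤ t) (h : Good t n d f) : ∃ m, Lvl t n m d f := by
  classical
  obtain ⟨hd, hf⟩ := h.ne_zero ht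
  obtain ⟨i0, hi0⟩ := exists_dg_ne ht hd
  obtain ⟨j0, hj0⟩ := exists_dg_ne ht hf
  have hex : ∃ m : ℕ, ∃ i j : ZMod n, dg t n d i ≠ 0 ∧ dg t n f j ≠ 0 ∧ i + j = (m : ZMod n) :=
    ⟨(i0 + j0).val, i0, j0, hi0, hj0, (ZMod.natCast_zmod_val _).symm⟩
  have hfind := Nat.find_spec hex
  have hmin := fun l (hl : l < Nat.find hex) => Nat.find_min hex hl
  refine ⟨Nat.find hex, { toGood := h, m1 := ?_, mn := ?_, av := ?_, ex := hfind }⟩
  · by_contra hcon
    have h0 : Nat.find hex = 0 := by omega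
    rw [h0] at hfind
    obtain ⟨i, j, hi, hj, hij⟩ := hfind
    rw [Nat.cast_zero] at hij
    have h1 : -j = i := by
      rw [eq_comm, eq_neg_iff_add_eq_zero]; exact hij
    have h2 := h.a1 i hi
    unfold dg at hj
    rw [h1] at hj
    exact hj h2
  · have := Nat.find_min' hex ⟨i0, j0, hi0, hj0, (ZMod.natCast_zmod_val (i0 + j0)).symm⟩
    have h2 := ZMod.val_lt (i0 + j0)
    omega
  · intro l hl i j hi hj hij
    exact hmin l hl ⟨i, j, hi, hj, hij⟩

/-- low digits of the coins -/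
theorem Lvl.A_zero (h : Lvl t n m d f) {i : ZMod n} (hi : dg t n d i ≠ 0) {l : ℕ} (hl : l < m) :
    W t n f (i - (l : ZMod n)) % t = 0 := by
  have h1 : dg t n f ((l : ZMod n) - i) = 0 := by
    by_contra hne
    exact h.av l hl i _ hi hne (by ring)
  unfold dg at h1
  rwa [neg_sub] at h1

theorem Lvl.A_exact (ht : 2 ≤ t) (h : Lvl t n m d f) {i : ZMod n} (hi : dg t n d i ≠ 0) {l : ℕ}
    (hl : l ≤ m) : W t n f i = t ^ l * W t n f (i - (l : ZMod n)) := by
  induction l with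
  | zero => simp
  | succ l ih =>
    rw [ih (by omega)]
    have h1 := h.A_zero hi (l := l) (by omega)
    have h2 : i - ((l + 1 : ℕ) : ZMod n) + 1 = i - (l : ZMod n) := by push_cast; ring
    rw [← h2] at h1 ⊢
    rw [W_eq_mul_of_dvd ht f _ h1, pow_succ, mul_assoc]

theorem Lvl.B_zero (h : Lvl t n m d f) {j : ZMod n} (hj : dg t n f j ≠ 0) {l : ℕ} (hl : l < m) :
    W t n d (j - (l : ZMod n)) % t = 0 := h.symm.A_zero hj hl

theorem Lvl.B_exact (ht : 2 ≤ t) (h : Lvl t n m d f) {j : ZMod n} (hj : dg t n f j ≠ 0) {l : ℕ}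
    (hl : l ≤ m) : W t n d j = t ^ l * W t n d (j - (l : ZMod n)) := h.symm.A_exact ht hj hl

/-- the residue `∑ C_l t^{-l}` -/
noncomputable def cC (t n m : ℕ) (C : ℕ → ℕ) : ZMod (t ^ n - 1) :=
  ∑ l ∈ range (m + 1), (C l : ZMod (t ^ n - 1)) * P t n (-(l : ZMod n))

/-- position digits of `cC` -/
def KC (n m : ℕ) (C : ℕ → ℕ) (i : ℕ) : ℕ :=
  if i = 0 then C 0 else if n - m ≤ i then C (n - i) else 0

theorem P_neg_nat (ht : 2 ≤ t) {l : ℕ} (h2 : l ≤ n) :
    P t n (-(l : ZMod n)) = (t : ZMod (t ^ n - 1)) ^ (n - l) := by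
  have : -(l : ZMod n) = ((n - l : ℕ) : ZMod n) := by
    rw [Nat.cast_sub h2, ZMod.natCast_self, zero_sub]
  rw [this, P_natCast ht]

theorem KC_sum (ht : 2 ≤ t) (hmn : m < n) (C : ℕ → ℕ) :
    ((∑ i ∈ range n, KC n m C i * t ^ i : ℕ) : ZMod (t ^ n - 1)) = cC t n m C := by
  unfold cC
  rw [sum_range_succ', Nat.cast_zero, neg_zero, P_zero, mul_one]
  obtain ⟨n', hn'⟩ : ∃ n', n = n' + 1 := ⟨n - 1, by omega⟩
  have h1 : ∑ i ∈ range n, KC n m C i * t ^ i
      = ∑ i ∈ range n', KC n m C (i + 1) * t ^ (i + 1) + KC n m C 0 := by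
    rw [hn', sum_range_succ']; simp
  rw [h1]
  push_cast
  congr 1
  have h2 : ∑ i ∈ range n', ((KC n m C (i + 1) : ℕ) : ZMod (t ^ n - 1))
      * (t : ZMod (t ^ n - 1)) ^ (i + 1)
      = ∑ i ∈ (range n').filter (fun i => n - m ≤ i + 1),
        ((KC n m C (i + 1) : ℕ) : ZMod (t ^ n - 1)) * (t : ZMod (t ^ n - 1)) ^ (i + 1) := by
    rw [sum_filter]
    apply sum_congr rfl
    intro i _
    split_ifs with h
    · rfl
    · unfold KC
      rw [if_neg (by omega), if_neg h]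
      simp
  rw [h2]
  symm
  apply sum_bij (fun (l : ℕ) _ => n' - 1 - l)
  · intro l hl
    rw [mem_range] at hl
    rw [mem_filter, mem_range]
    omega
  · intro a ha b hb hab
    rw [mem_range] at ha hb
    omega
  · intro i hi
    rw [mem_filter, mem_range] at hi
    exact ⟨n' - 1 - i, by rw [mem_range]; omega, by omega⟩
  · intro l hl
    rw [mem_range] at hl
    have h3 := P_neg_nat (t := t) (n := n) ht (l := l + 1) (by omega)
    push_cast at h3
    rw [h3]
    unfold KC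
    rw [if_neg (by omega), if_pos (by omega)]
    congr 3 <;> omega

theorem cC_val (ht : 2 ≤ t) (hmn : m < n) (C : ℕ → ℕ) (hC : ∀ l ≤ m, C l < t)
    (hC0 : C 0 < t - 1) :
    (cC t n m C).val = ∑ i ∈ range n, KC n m C i * t ^ i := by
  have hN := N_succ (n := n) ht
  have hK : ∀ i, KC n m C i ≤ t - 1 := by
    intro i
    unfold KC
    split_ifs with h1 h2
    · omega
    · have := hC (n - i) (by omega)
      omega
    · omega
  have hsum : ∑ i ∈ range n, (t - 1) * t ^ i = t ^ n - 1 := by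
    have h := Nat.geomSum_eq (m := t) ht n
    have h2 : (t - 1) * ∑ k ∈ range n, t ^ k = t ^ n - 1 := by
      rw [h]
      apply Nat.mul_div_cancel'
      exact Nat.sub_one_dvd_pow_sub_one t n
    rw [← mul_sum]
    exact h2
  have hlt : ∑ i ∈ range n, KC n m C i * t ^ i < t ^ n - 1 := by
    rw [← hsum]
    apply sum_lt_sum
    · intro i _
      exact Nat.mul_le_mul_right _ (hK i)
    · refine ⟨0, mem_range.mpr (by omega), ?_⟩
      unfold KC
      simp
      omega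
  rw [← KC_sum ht hmn C, ZMod.val_natCast, Nat.mod_eq_of_lt hlt]

theorem cC_cov (ht : 2 ≤ t) (hmn : m < n) (C : ℕ → ℕ) (hC : ∀ l ≤ m, C l < t)
    (hC0 : C 0 < t - 1) (S : ℕ) (hS0 : C 0 ≤ S % t)
    (hS : ∀ l, 1 ≤ l → l ≤ m → C l ≤ S / t ^ (n - l) % t) :
    ∀ i < n, (cC t n m C).val / t ^ i % t ≤ S / t ^ i % t := by
  intro i hi
  rw [cC_val ht hmn C hC hC0, digit_sum t (by omega) (KC n m C) n i hi]
  · unfold KC
    split_ifs with h1 h2
    · subst h1
      simpa using hS0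
    · have := hS (n - i) (by omega) (by omega)
      rwa [show n - (n - i) = i by omega] at this
    · exact Nat.zero_le _
  · intro j hj
    unfold KC
    split_ifs with h1 h2
    · omega
    · exact hC _ (by omega)
    · omega

theorem cC_ne (ht : 2 ≤ t) (hmn : m < n) (C : ℕ → ℕ) (hC : ∀ l ≤ m, C l < t)
    (hC0 : C 0 < t - 1) (hC1 : 1 ≤ C 0) : cC t n m C ≠ 0 := by
  intro h
  have h1 := cC_val ht hmn C hC hC0
  have hNe : NeZero (t ^ n - 1) := ⟨(N_pos ht).ne'⟩
  rw [h, ZMod.val_zero] at h1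
  have h2 : KC n m C 0 * t ^ 0 ≤ ∑ i ∈ range n, KC n m C i * t ^ i :=
    single_le_sum (f := fun i => KC n m C i * t ^ i) (fun _ _ => Nat.zero_le _)
      (mem_range.mpr (by omega))
  have h3 : KC n m C 0 = C 0 := by unfold KC; simp
  rw [← h1, h3, pow_zero, mul_one] at h2
  omega

/-- exactness -/
theorem W_cC (ht : 2 ≤ t) (C : ℕ → ℕ) (u : ZMod (t ^ n - 1)) (hu : u * cC t n m C ≠ 0)
    (x : ZMod n) (hs : ∑ l ∈ range (m + 1), C l * W t n u (x - (l : ZMod n)) < t ^ n) :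
    W t n (u * cC t n m C) x = ∑ l ∈ range (m + 1), C l * W t n u (x - (l : ZMod n)) := by
  apply W_of_cast ht hu x _ hs
  push_cast
  unfold cC
  rw [mul_sum, sum_mul]
  apply sum_congr rfl
  intro l _
  rw [W_cast ht, sub_eq_add_neg, P_add ht]
  ring

theorem Good.mul_ne (h : Good t n d f) {c : ZMod (t ^ n - 1)} (hc : c ≠ 0) : d * c ≠ 0 := by
  intro h0
  apply hc
  calc c = (f * d) * c := by rw [h.fd, one_mul]
    _ = f * (d * c) := by ring
    _ = 0 := by rw [h0, mul_zero]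

/-- the mass of `E` -/
theorem Lvl.mass (ht : 2 ≤ t) (h : Lvl t n m d f) (C : ℕ → ℕ) (hc : cC t n m C ≠ 0)
    (hex : ∀ j : ZMod n, dg t n f j ≠ 0 →
      ∑ l ∈ range (m + 1), C l * W t n d (j - (l : ZMod n)) < t ^ n) :
    ∑ x : ZMod n, dg t n (d * cC t n m C) x * W t n f x
      = ∑ l ∈ range (m + 1), C l * t ^ (n - l) := by
  rw [mass_symm ht]
  have h1 : ∀ j : ZMod n, dg t n f j * W t n (d * cC t n m C) j
      = ∑ l ∈ range (m + 1), C l * (dg t n f j * W t n d (j - (l : ZMod n))) := by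
    intro j
    by_cases hj : dg t n f j = 0
    · simp [hj]
    · rw [W_cC ht C d (h.toGood.mul_ne hc) j (hex j hj), mul_sum]
      apply sum_congr rfl
      intro l _
      ring
  simp_rw [h1]
  rw [sum_comm]
  apply sum_congr rfl
  intro l hl
  rw [mem_range] at hl
  rw [← mul_sum]
  congr 1
  have h2 : t ^ l * ∑ j : ZMod n, dg t n f j * W t n d (j - (l : ZMod n)) = t ^ n := by
    rw [← h.b2, mul_sum]
    apply sum_congr rfl
    intro j _
    by_cases hj : dg t n f j = 0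
    · simp [hj]
    · rw [h.B_exact ht hj (l := l) (by omega)]
      ring
  have h3 : t ^ n = t ^ l * t ^ (n - l) := by
    rw [← _root_.pow_add]; congr 1
    have := h.mn
    omega
  rw [h3] at h2
  exact Nat.eq_of_mul_eq_mul_left (Nat.pow_pos (by omega)) h2

/-- multiplicity of closing positions -/
theorem Lvl.closing (ht : 2 ≤ t) (h : Lvl t n m d f) (C : ℕ → ℕ) (hc : cC t n m C ≠ 0)
    {j : ZMod n} (hj : dg t n f j ≠ 0)
    (hex : ∑ l ∈ range (m + 1), C l * W t n d (j - (l : ZMod n)) < t ^ n) :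
    dg t n (d * cC t n m C) (-j) = C m * dg t n d ((m : ZMod n) - j) % t := by
  conv_lhs => unfold dg
  rw [neg_neg, W_cC ht C d (h.toGood.mul_ne hc) j hex, sum_range_succ]
  have h1 : (∑ l ∈ range m, C l * W t n d (j - (l : ZMod n))) % t = 0 := by
    apply Nat.mod_eq_zero_of_dvd
    apply dvd_sum
    intro l hl
    rw [mem_range] at hl
    exact Dvd.dvd.mul_left (Nat.dvd_of_mod_eq_zero (h.B_zero hj hl)) _
  rw [Nat.add_mod, h1, zero_add, Nat.mod_mod]
  unfold dg
  rw [neg_sub, Nat.mul_mod, Nat.mul_mod (C m) (_ % t), Nat.mod_mod]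

/-- content at `-l` read from `W (d c) (-1)` -/
theorem dg_neg (ht : 2 ≤ t) (e : ZMod (t ^ n - 1)) (l : ℕ) (hl : l < n) :
    dg t n e (-(l : ZMod n)) = W t n e (-1) / t ^ (n - (l + 1)) % t := by
  rw [← W_dig ht e (-1) (l + 1) (by omega) (by omega)]
  unfold dg
  congr 2
  push_cast
  ring

theorem dg_neg' (ht : 2 ≤ t) (e : ZMod (t ^ n - 1)) (l : ℕ) (hl1 : 1 ≤ l) (hl : l ≤ n) :
    dg t n e (-(l : ZMod n)) = W t n e 0 / t ^ (n - l) % t := by
  rw [← W_dig ht e 0 l hl1 hl]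
  unfold dg
  congr 2
  ring

end

end Pool.Agent.H54.Afa
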