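import Mathlib
import Pool.Agent.H54.Afa.Struct

set_option autoImplicit false

namespace Pool.Agent.H54.Afa

open Finset

section
variable {t n m : ℕ} [NeZero n] {d f : ZMod (t ^ n - 1)}

/-- multiset of positions `-l` with multiplicity `g l`, `l < K` -/
noncomputable def posM (n K : ℕ) (g : ℕ → ℕ) : Multiset (ZMod n) :=
  ∑ l ∈ range K, Multiset.replicate (g l) (-(l : ZMod n))

omit [NeZero n] in
theorem posM_sum (K : ℕ) (g : ℕ → ℕ) (F : ZMod n → ℕ) :
    ((posM n K g).map F).sum = ∑ l ∈ range K, g l * F (-(l : ZMod n)) := by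
  unfold posM
  induction K with
  | zero => simp
  | succ K ih =>
    rw [sum_range_succ, Multiset.map_add, Multiset.sum_add, ih, sum_range_succ]
    simp

omit [NeZero n] in
theorem posM_count_other (K : ℕ) (g : ℕ → ℕ) (x : ZMod n)
    (hx : ∀ l < K, g l ≠ 0 → x ≠ -(l : ZMod n)) : (posM n K g).count x = 0 := by
  classical
  unfold posM
  rw [Multiset.count_sum']
  apply sum_eq_zero
  intro l hl
  rw [mem_range] at hl
  rw [Multiset.count_replicate]
  split_ifs with h
  · by_contra hne
    exact hx l hl hne h.symm
  · rfl

omit [NeZero n] in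
theorem neg_nat_inj {K : ℕ} (hK : K ≤ n) {a b : ℕ} (ha : a < K) (hb : b < K)
    (h : -(a : ZMod n) = -(b : ZMod n)) : a = b := by
  have h1 : (a : ZMod n) = (b : ZMod n) := neg_injective h
  rw [ZMod.natCast_eq_natCast_iff] at h1
  have h2 : a % n = b % n := h1
  rwa [Nat.mod_eq_of_lt (by omega), Nat.mod_eq_of_lt (by omega)] at h2

omit [NeZero n] in
theorem posM_count {K : ℕ} (hK : K ≤ n) (g : ℕ → ℕ) (l : ℕ) (hl : l < K) :
    (posM n K g).count (-(l : ZMod n)) = g l := by
  classical
  unfold posM
  rw [Multiset.count_sum', sum_eq_single l]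
  · rw [Multiset.count_replicate, if_pos rfl]
  · intro b hb hne
    rw [mem_range] at hb
    rw [Multiset.count_replicate, if_neg]
    intro h
    exact hne (neg_nat_inj hK hb hl h)
  · intro h
    exact absurd (mem_range.mpr hl) h

/-- winning criterion with a block of positions `-l` and one closing position -/
theorem win_block (ht : 3 ≤ t) (h : Lvl t n m d f) (C g : ℕ → ℕ) (K : ℕ) (hK : K ≤ n)
    (i1 : ZMod n) (hj1 : dg t n f ((m : ZMod n) - i1) ≠ 0)
    (hC : ∀ l ≤ m, C l < t) (hC0 : C 0 = 1) (hCm : (C m * dg t n d i1) % t ≠ 0)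
    (hex : ∀ j : ZMod n, dg t n f j ≠ 0 →
      ∑ l ∈ range (m + 1), C l * W t n d (j - (l : ZMod n)) < t ^ n)
    (hg : ∀ l < K, g l ≤ dg t n (d * cC t n m C) (-(l : ZMod n)))
    (hz : ∀ l < K, g l ≠ 0 → W t n f (-(l : ZMod n)) % t = 0)
    (hS : W t n f (i1 - (m : ZMod n)) + ∑ l ∈ range K, g l * W t n f (-(l : ZMod n)) < t ^ n)
    (hcov : ∀ l, 1 ≤ l → l ≤ m → C l ≤ (W t n f (i1 - (m : ZMod n))
      + ∑ l ∈ range K, g l * W t n f (-(l : ZMod n))) / t ^ (n - l) % t) :
    Pair t n d f := by
  classical
  have hmn := h.mn
  have hm1 := h.m1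
  have ht2 : 2 ≤ t := by omega
  set M : Multiset (ZMod n) := (i1 - (m : ZMod n)) ::ₘ posM n K g with hMdef
  have hMs : (M.map (W t n f)).sum = W t n f (i1 - (m : ZMod n))
      + ∑ l ∈ range K, g l * W t n f (-(l : ZMod n)) := by
    rw [hMdef, Multiset.map_cons, Multiset.sum_cons, posM_sum]
  have hcne : cC t n m C ≠ 0 := cC_ne ht2 hmn C hC (by omega) (by omega)
  have hclose : W t n f (i1 - (m : ZMod n)) % t = dg t n f ((m : ZMod n) - i1) := by
    unfold dg; rw [neg_sub]
  have hne : ∀ l < K, g l ≠ 0 → i1 - (m : ZMod n) ≠ -(l : ZMod n) := by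
    intro l hl hgl heq
    have := hz l hl hgl
    rw [← heq, hclose] at this
    exact hj1 this
  refine win ht2 h.fd (cC t n m C) hcne M ?_ ?_ ?_ ?_ ?_
  · intro x
    rw [hMdef, Multiset.count_cons]
    by_cases hx : x = i1 - (m : ZMod n)
    · rw [if_pos hx, hx, posM_count_other K g _ hne, zero_add]
      have h1 := h.closing ht2 C hcne hj1 (hex _ hj1)
      rw [neg_sub, sub_sub_cancel] at h1
      rw [h1]
      omega
    · rw [if_neg hx, add_zero]
      by_cases hx2 : ∃ l < K, x = -(l : ZMod n)
      · obtain ⟨l, hl, rfl⟩ := hx2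
        rw [posM_count hK g l hl]
        exact hg l hl
      · push Not at hx2
        rw [posM_count_other K g x (fun l hl _ => hx2 l hl)]
        exact Nat.zero_le _
  · rw [hMdef]; exact Multiset.cons_ne_zero
  · rw [hMs]; exact hS
  · rw [hMs]
    apply cC_cov ht2 hmn C hC (by omega)
    · have h2 : (∑ l ∈ range K, g l * W t n f (-(l : ZMod n))) % t = 0 := by
        apply Nat.mod_eq_zero_of_dvd
        apply dvd_sum
        intro l hl
        rw [mem_range] at hl
        by_cases hgl : g l = 0
        · rw [hgl, zero_mul]; exact dvd_zero _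
        · exact Dvd.dvd.mul_left (Nat.dvd_of_mod_eq_zero (hz l hl hgl)) _
      rw [Nat.add_mod, h2, add_zero, Nat.mod_mod, hclose, hC0]
      exact Nat.one_le_iff_ne_zero.mpr hj1
    · exact hcov
  · rw [hMs, h.mass ht2 C hcne hex]
    refine lt_of_lt_of_le hS ?_
    have h3 : C 0 * t ^ (n - 0) ≤ ∑ l ∈ range (m + 1), C l * t ^ (n - l) :=
      single_le_sum (f := fun l => C l * t ^ (n - l)) (fun _ _ => Nat.zero_le _)
        (mem_range.mpr (by omega))
    rw [hC0, one_mul, Nat.sub_zero] at h3
    exact h3

/-- add only when the digit is zero -/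
theorem greedy (t n v X0 : ℕ) (ht : 2 ≤ t) (hX : X0 < t ^ n) (hX1 : t ^ (n - 1) ≤ X0)
    (hv1 : t ^ (n - 1) ≤ v) (hv2 : v ≤ (t - 1) * t ^ (n - 1)) :
    ∀ m, 1 ≤ m → m ≤ n → t ^ (m - 1) ∣ v →
    ∃ ε : ℕ → ℕ, (∀ l, ε l ≤ 1) ∧ X0 + ∑ l ∈ Ico 1 m, ε l * (v / t ^ l) < t ^ n ∧
      ∀ p, 1 ≤ p → p ≤ m → 1 ≤ (X0 + ∑ l ∈ Ico 1 m, ε l * (v / t ^ l)) / t ^ (n - p) % t := by
  intro m
  induction m with
  | zero => intro h; omega
  | succ m ih =>
    intro _ hmn hdvd
    rcases Nat.eq_zero_or_pos m with hm | hm
    · subst hm
      refine ⟨fun _ => 0, fun _ => Nat.zero_le _, by simpa using hX, ?_⟩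
      intro p hp1 hp2
      have hp : p = 1 := by omega
      subst hp
      simp only [zero_mul, sum_const_zero, add_zero]
      have h1 : 1 ≤ X0 / t ^ (n - 1) := by
        rw [Nat.one_le_div_iff (Nat.pow_pos (by omega))]; exact hX1
      have h2 : X0 / t ^ (n - 1) < t := by
        rw [Nat.div_lt_iff_lt_mul (Nat.pow_pos (by omega)), mul_comm, ← pow_succ,
          show n - 1 + 1 = n by omega]
        exact hX
      rw [Nat.mod_eq_of_lt h2]
      exact h1
    · obtain ⟨ε, hε, hlt, hdig⟩ := ih hm (by omega)
        (dvd_trans (pow_dvd_pow t (by omega)) hdvd)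
      set X := X0 + ∑ l ∈ Ico 1 m, ε l * (v / t ^ l) with hXdef
      by_cases hz : X / t ^ (n - (m + 1)) % t = 0
      · -- add the coin
        obtain ⟨v', hv'⟩ : t ^ m ∣ v := by simpa using hdvd
        have htm : 0 < t ^ m := Nat.pow_pos (by omega)
        have hvv : v / t ^ m = v' := by rw [hv', Nat.mul_div_cancel_left _ htm]
        set K := t ^ (n - (m + 1)) with hK
        have hKpos : 0 < K := Nat.pow_pos (by omega)
        have hn1 : t ^ (n - 1) = t ^ m * K := by
          rw [hK, ← _root_.pow_add]; congr 1; omega
        have hv'1 : K ≤ v' := by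
          rw [hn1, hv'] at hv1
          exact Nat.le_of_mul_le_mul_left hv1 htm
        have hv'2 : v' ≤ (t - 1) * K := by
          rw [hn1, hv'] at hv2
          apply Nat.le_of_mul_le_mul_left _ htm
          calc t ^ m * v' ≤ (t - 1) * (t ^ m * K) := hv2
            _ = t ^ m * ((t - 1) * K) := by ring
        have hKm : t ^ (n - m) = t * K := by
          rw [hK, ← pow_succ']; congr 1; omega
        have hsum : ∑ l ∈ Ico 1 (m + 1), (fun l => if l = m then 1 else ε l) l * (v / t ^ l)
            = ∑ l ∈ Ico 1 m, ε l * (v / t ^ l) + v' := by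
          rw [sum_Ico_succ_top (by omega)]
          simp only [if_true, one_mul, hvv]
          congr 1
          apply sum_congr rfl
          intro l hl
          rw [mem_Ico] at hl
          rw [if_neg (by omega)]
        have htot : X0 + ∑ l ∈ Ico 1 (m + 1), (fun l => if l = m then 1 else ε l) l * (v / t ^ l)
            = X + v' := by rw [hsum, ← add_assoc]
        refine ⟨fun l => if l = m then 1 else ε l, ?_, ?_, ?_⟩
        · intro l
          by_cases hl : l = m
          · simp [hl]
          · simp only [hl, if_false]; exact hε l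
        all_goals rw [htot]
        all_goals
          have hr : X % (t * K) < K := by
            have h1 : X % (t * K) / K = 0 := by
              rw [mul_comm, Nat.mod_mul_right_div_self]; exact hz
            exact (Nat.div_eq_zero_iff_lt hKpos).mp h1
          have hXd : t * K * (X / (t * K)) + X % (t * K) = X := Nat.div_add_mod _ _
          have htK : (t - 1) * K + K = t * K := by
            rw [← Nat.succ_mul]; congr 1; omega
        · have h2 : X / (t * K) < t ^ m := by
            rw [Nat.div_lt_iff_lt_mul (by positivity)]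
            calc X < t ^ n := hlt
              _ = t ^ m * (t * K) := by rw [← hKm, ← _root_.pow_add]; congr 1; omega
          have h3 : t * K * (X / (t * K)) + t * K ≤ t * K * t ^ m := by
            rw [← Nat.mul_succ]; exact Nat.mul_le_mul_left _ h2
          have h4 : t * K * t ^ m = t ^ n := by
            rw [← hKm, ← _root_.pow_add]; congr 1; omega
          omega
        · intro p hp1 hp2
          rcases Nat.lt_or_ge p (m + 1) with hp | hp
          · -- upper digits unchanged
            have h5 : (X + v') / (t * K) = X / (t * K) := by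
              have h6 : X + v' = t * K * (X / (t * K)) + (X % (t * K) + v') := by omega
              have h6' : X % (t * K) + v' < t * K := by omega
              generalize X / (t * K) = q at *
              generalize X % (t * K) = r at *
              rw [h6, Nat.mul_add_div (by positivity), Nat.div_eq_of_lt h6', add_zero]
            have h7 : t ^ (n - p) = (t * K) * t ^ (m - p) := by
              rw [← hKm, ← _root_.pow_add]; congr 1; omega
            rw [h7, ← Nat.div_div_eq_div_mul, h5, Nat.div_div_eq_div_mul, ← h7]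
            exact hdig p hp1 (by omega)
          · have hp' : p = m + 1 := by omega
            subst hp'
            rw [← hK]
            have h6 : X + v' = K * (t * (X / (t * K))) + (X % (t * K) + v') := by
              have : K * (t * (X / (t * K))) = t * K * (X / (t * K)) := by ring
              omega
            have h8 : (X % (t * K) + v') / K < t := by
              rw [Nat.div_lt_iff_lt_mul hKpos]; omega
            generalize X / (t * K) = q at *
            generalize X % (t * K) = r at *
            rw [h6, Nat.mul_add_div hKpos, Nat.mul_add_mod]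
            rw [Nat.mod_eq_of_lt h8, Nat.one_le_div_iff hKpos]
            omega
      · -- nothing to add
        have hsum : ∑ l ∈ Ico 1 (m + 1), (fun l => if l = m then 0 else ε l) l * (v / t ^ l)
            = ∑ l ∈ Ico 1 m, ε l * (v / t ^ l) := by
          rw [sum_Ico_succ_top (by omega)]
          simp only [if_true, zero_mul, add_zero]
          apply sum_congr rfl
          intro l hl
          rw [mem_Ico] at hl
          rw [if_neg (by omega)]
        refine ⟨fun l => if l = m then 0 else ε l, ?_, ?_, ?_⟩
        · intro l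
          by_cases hl : l = m
          · simp [hl]
          · simp only [hl, if_false]; exact hε l
        · rw [hsum]; exact hlt
        · intro p hp1 hp2
          rw [hsum]
          rcases Nat.lt_or_ge p (m + 1) with hp | hp
          · exact hdig p hp1 (by omega)
          · have hp' : p = m + 1 := by omega
            subst hp'
            exact Nat.one_le_iff_ne_zero.mpr hz

end

end Pool.Agent.H54.Afa
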