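import Mathlib
import Pool.Agent.H54.Afa.Good

set_option autoImplicit false

namespace Pool.Agent.H54.Afa

open Finset

variable {t n : ℕ} [NeZero n] {d f : ZMod (t ^ n - 1)}

theorem c1_two_le (ht : 2 ≤ t) (hd : ∀ x : ZMod n, d ≠ P t n x) : 2 ≤ t ^ n - 1 := by
  have hN := N_pos (n := n) ht
  by_contra hcon
  have h1 : t ^ n - 1 = 1 := by omega
  have h2 : Subsingleton (ZMod (t ^ n - 1)) := by
    rw [h1]
    infer_instance
  exact hd 0 (Subsingleton.elim _ _)

/-- the multiset of positions of `d`, with the digits as multiplicities -/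
noncomputable def c1_DD (t n : ℕ) [NeZero n] (d : ZMod (t ^ n - 1)) : Multiset (ZMod n) :=
  ∑ x : ZMod n, Multiset.replicate (dg t n d x) x

theorem c1_count (x : ZMod n) : (c1_DD t n d).count x = dg t n d x := by
  unfold c1_DD
  rw [Multiset.count_sum']
  simp [Multiset.count_replicate]

theorem c1_key (ht : 2 ≤ t) (hfd : f * d = 1) (hN2 : 2 ≤ t ^ n - 1) (h : ¬ Pair t n d f)
    (M : Multiset (ZMod n)) (hM : M ≤ c1_DD t n d) (hM0 : M ≠ 0) (hM1 : M ≠ c1_DD t n d) :
    ((M.map (W t n f)).sum % (t ^ n - 1)) % t = 0 := by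
  have hNe : NeZero (t ^ n - 1) := ⟨by omega⟩
  obtain ⟨h1, h2⟩ := res_facts ht M d
    (fun x => by rw [← c1_count]; exact Multiset.count_le_of_le x hM) hM0
  by_contra hcon
  apply h
  have hval : (f * res t n M).val = (M.map (W t n f)).sum % (t ^ n - 1) := by
    rw [← W_res ht, ZMod.val_natCast]
  have hone : (1 : ZMod (t ^ n - 1)).val = 1 := by
    rw [ZMod.val_one_eq_one_mod, Nat.mod_eq_of_lt (by omega)]
  have hres : res t n M ≠ d := by
    intro h3
    apply hM1
    ext x
    have h4 := h2 x.val (ZMod.val_lt x)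
    rw [h3, ← dg_eq ht _ _ (ZMod.val_lt x), ZMod.natCast_zmod_val] at h4
    rw [c1_count, h4]
  refine ⟨1, res t n M, ?_, h1, ⟨?_, ?_⟩, ?_, ?_⟩
  · intro h3
    rw [h3, ZMod.val_zero] at hone
    omega
  · intro i hi
    rw [mul_one, h2 i hi, ← dg_eq ht _ i hi, ← c1_count]
    exact Multiset.count_le_of_le _ hM
  · rw [mul_one]
    exact hres
  · intro i hi
    rw [hone, hval]
    rcases Nat.eq_zero_or_pos i with h3 | h3
    · subst h3
      rw [pow_zero, Nat.div_one, Nat.div_one, Nat.mod_eq_of_lt (by omega : 1 < t)]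
      exact Nat.one_le_iff_ne_zero.mpr hcon
    · have h4 : 1 < t ^ i := Nat.one_lt_pow (by omega) (by omega)
      rw [Nat.div_eq_of_lt h4, Nat.zero_mod]
      exact Nat.zero_le _
  · intro h3
    apply hres
    calc res t n M = (f * d) * res t n M := by rw [hfd, one_mul]
      _ = d * (f * res t n M) := by ring
      _ = d := by rw [← h3, mul_one]

theorem c1_card (ht : 2 ≤ t) (hfd : f * d = 1) (hd : ∀ x : ZMod n, d ≠ P t n x) :
    2 ≤ Multiset.card (c1_DD t n d) := by
  have hN2 := c1_two_le ht hd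
  have hNe : NeZero (t ^ n - 1) := ⟨by omega⟩
  have hone : (1 : ZMod (t ^ n - 1)).val = 1 := by
    rw [ZMod.val_one_eq_one_mod, Nat.mod_eq_of_lt (by omega)]
  have hsum : d.val = ((c1_DD t n d).map fun x => t ^ x.val).sum := by
    rw [val_expand ht d, sum_map_eq_count]
    apply sum_congr rfl
    intro x _
    rw [c1_count, smul_eq_mul]
  by_contra hcon
  have h1 : Multiset.card (c1_DD t n d) = 0 ∨ Multiset.card (c1_DD t n d) = 1 := by omega
  rcases h1 with h1 | h1
  · rw [Multiset.card_eq_zero] at h1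
    rw [h1, Multiset.map_zero, Multiset.sum_zero, ZMod.val_eq_zero] at hsum
    rw [hsum, mul_zero] at hfd
    rw [← hfd, ZMod.val_zero] at hone
    omega
  · rw [Multiset.card_eq_one] at h1
    obtain ⟨x, hx⟩ := h1
    apply hd x
    rw [hx, Multiset.map_singleton, Multiset.sum_singleton] at hsum
    rw [← ZMod.natCast_zmod_val d, hsum]
    unfold P
    push_cast
    rfl

theorem c1_ind (ht : 2 ≤ t) (hfd : f * d = 1) (hd : ∀ x : ZMod n, d ≠ P t n x)
    (h : ¬ Pair t n d f) (M : Multiset (ZMod n)) :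
    M ≤ c1_DD t n d → M ≠ c1_DD t n d →
    (M.map (W t n f)).sum < t ^ n - 1 ∧ (M.map (W t n f)).sum % t = 0 := by
  have hN2 := c1_two_le ht hd
  have hcard := c1_card ht hfd hd
  have hN := N_succ (n := n) ht
  induction M using Multiset.induction_on with
  | empty =>
    intro _ _
    rw [Multiset.map_zero, Multiset.sum_zero, Nat.zero_mod]
    omega
  | cons x M ih =>
    intro h1 h2
    have h3 : M ≤ c1_DD t n d := (Multiset.le_cons_self M x).trans h1
    have h4 : M ≠ c1_DD t n d := by
      intro h5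
      have h6 := Multiset.card_le_card h1
      rw [Multiset.card_cons, h5] at h6
      omega
    obtain ⟨h5, h6⟩ := ih h3 h4
    have h7 : ({x} : Multiset (ZMod n)) ≤ c1_DD t n d := by
      rw [Multiset.singleton_le]
      exact Multiset.mem_of_le h1 (Multiset.mem_cons_self x M)
    have h8 : ({x} : Multiset (ZMod n)) ≠ c1_DD t n d := by
      intro h9
      rw [← h9, Multiset.card_singleton] at hcard
      omega
    have h9 := c1_key ht hfd hN2 h {x} h7 (Multiset.singleton_ne_zero x) h8
    have h10 := W_lt ht f x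
    rw [Multiset.map_singleton, Multiset.sum_singleton, Nat.mod_eq_of_lt h10] at h9
    have h11 := c1_key ht hfd hN2 h (x ::ₘ M) h1 (Multiset.cons_ne_zero) h2
    rw [Multiset.map_cons, Multiset.sum_cons] at h11 ⊢
    have h12 : (W t n f x + (M.map (W t n f)).sum) % t = 0 := by
      rw [Nat.add_mod, h9, h6]
      simp
    refine ⟨?_, h12⟩
    by_contra hcon
    have h13 : (W t n f x + (M.map (W t n f)).sum) % (t ^ n - 1)
        = W t n f x + (M.map (W t n f)).sum - (t ^ n - 1) := by
      rw [Nat.mod_eq_sub_mod (by omega), Nat.mod_eq_of_lt (by omega)]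
    rw [h13] at h11
    have h14 : t ^ n % t = 0 := by
      have hn := n_pos (n := n)
      obtain ⟨k, hk⟩ : ∃ k, n = k + 1 := ⟨n - 1, by omega⟩
      rw [hk, pow_succ, Nat.mul_mod_left]
    have h15 : t ∣ t ^ n := Nat.dvd_of_mod_eq_zero h14
    have h16 : t ∣ W t n f x + (M.map (W t n f)).sum := Nat.dvd_of_mod_eq_zero h12
    have h17 : t ∣ W t n f x + (M.map (W t n f)).sum - (t ^ n - 1) := Nat.dvd_of_mod_eq_zero h11
    have h18 : W t n f x + (M.map (W t n f)).sum + 1
        = t ^ n + (W t n f x + (M.map (W t n f)).sum - (t ^ n - 1)) := by omega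
    have h19 : t ∣ W t n f x + (M.map (W t n f)).sum + 1 := by
      rw [h18]
      exact Nat.dvd_add h15 h17
    have h20 : t ∣ 1 := (Nat.dvd_add_right h16).mp h19
    have := Nat.le_of_dvd (by omega) h20
    omega

theorem c1_half (ht : 2 ≤ t) (hfd : f * d = 1) (hd : ∀ x : ZMod n, d ≠ P t n x)
    (h : ¬ Pair t n d f) : (∀ i : ZMod n, dg t n d i ≠ 0 → W t n f i % t = 0) ∧
      ∑ i : ZMod n, dg t n d i * W t n f i = t ^ n := by
  have hN2 := c1_two_le ht hd
  have hNe : NeZero (t ^ n - 1) := ⟨by omega⟩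
  have hcard := c1_card ht hfd hd
  have hN := N_succ (n := n) ht
  have hsing : ∀ i : ZMod n, i ∈ c1_DD t n d → W t n f i % t = 0 := by
    intro i hi
    have h7 : ({i} : Multiset (ZMod n)) ≤ c1_DD t n d := Multiset.singleton_le.mpr hi
    have h8 : ({i} : Multiset (ZMod n)) ≠ c1_DD t n d := by
      intro h9
      rw [← h9, Multiset.card_singleton] at hcard
      omega
    have h9 := (c1_ind ht hfd hd h {i} h7 h8).2
    rwa [Multiset.map_singleton, Multiset.sum_singleton] at h9
  constructor
  · intro i hi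
    apply hsing
    rw [← Multiset.count_pos, c1_count]
    omega
  · have h1 : ∑ i : ZMod n, dg t n d i * W t n f i = ((c1_DD t n d).map (W t n f)).sum := by
      rw [sum_map_eq_count]
      apply sum_congr rfl
      intro x _
      rw [c1_count, smul_eq_mul]
    rw [h1]
    obtain ⟨x, hx⟩ := Multiset.card_pos_iff_exists_mem.mp (by omega : 0 < Multiset.card (c1_DD t n d))
    obtain ⟨M, hM⟩ := Multiset.exists_cons_of_mem hx
    have h2 : M ≤ c1_DD t n d := by
      rw [hM]
      exact Multiset.le_cons_self M x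
    have h3 : M ≠ c1_DD t n d := by
      intro h4
      have h5 := congrArg Multiset.card hM
      rw [Multiset.card_cons, ← h4] at h5
      omega
    obtain ⟨h4, h5⟩ := c1_ind ht hfd hd h M h2 h3
    have h6 := hsing x hx
    have h7 := W_lt ht f x
    have h8 : ((c1_DD t n d).map (W t n f)).sum = W t n f x + (M.map (W t n f)).sum := by
      rw [hM, Multiset.map_cons, Multiset.sum_cons]
    have h9 : (((c1_DD t n d).map (W t n f)).sum : ZMod (t ^ n - 1)) = 1 := by
      rw [W_res ht f]
      have h10 : res t n (c1_DD t n d) = d := by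
        unfold res
        rw [sum_map_eq_count]
        have h11 := val_expand ht d
        have h12 : ((d.val : ℕ) : ZMod (t ^ n - 1)) = d := ZMod.natCast_zmod_val d
        rw [← h12]
        conv_rhs => rw [h11]
        rw [h12]
        push_cast
        apply sum_congr rfl
        intro y _
        rw [c1_count, nsmul_eq_mul]
        rfl
      rw [h10, hfd]
    have h10 : ((c1_DD t n d).map (W t n f)).sum % (t ^ n - 1) = 1 := by
      have h11 := congrArg ZMod.val h9
      rw [ZMod.val_natCast, ZMod.val_one_eq_one_mod, Nat.mod_eq_of_lt (by omega : 1 < t ^ n - 1)]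
        at h11
      exact h11
    have h12 : (W t n f x + (M.map (W t n f)).sum) % t = 0 := by
      rw [Nat.add_mod, h6, h5]
      simp
    rw [h8] at h10 ⊢
    rcases Nat.lt_or_ge (W t n f x + (M.map (W t n f)).sum) (t ^ n - 1) with h13 | h13
    · rw [Nat.mod_eq_of_lt h13] at h10
      rw [h10, Nat.mod_eq_of_lt (by omega : 1 < t)] at h12
      omega
    · rw [Nat.mod_eq_sub_mod h13, Nat.mod_eq_of_lt (by omega)] at h10
      omega

theorem good_of_not_pair (ht : 2 ≤ t) (hfd : f * d = 1) (hd : ∀ x : ZMod n, d ≠ P t n x)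
    (h : ¬ Pair t n d f) : Good t n d f := by
  have hdf : d * f = 1 := by rw [mul_comm]; exact hfd
  have hf : ∀ x : ZMod n, f ≠ P t n x := by
    intro x hx
    apply hd (-x)
    calc d = (P t n (-x) * P t n x) * d := by rw [P_neg_mul ht, one_mul]
      _ = P t n (-x) * (f * d) := by rw [hx]; ring
      _ = P t n (-x) := by rw [hfd, mul_one]
  obtain ⟨h1, h2⟩ := c1_half ht hfd hd h
  obtain ⟨h3, h4⟩ := c1_half ht hdf hf (fun h5 => h h5.symm)
  exact ⟨hfd, h1, h2, h3, h4⟩

end Pool.Agent.H54.Afa
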