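import Mathlib
import Pool.Agent.H54.Afa.Block

set_option autoImplicit false

namespace Pool.Agent.H54.Afa

open Finset

variable {t n m : ℕ} [NeZero n] {d f : ZMod (t ^ n - 1)}

theorem E1_engine (ht : 6 ≤ t) (h : Lvl t n m d f) (h0 : dg t n d 0 ≠ 0)
    (h1 : dg t n f (-1) ≠ 0)
    (hmax : ∀ j : ZMod n, dg t n f j ≠ 0 → W t n d j ≤ W t n d (-1))
    (hφ : t * W t n f 0 ≤ (t - 1) * t ^ n) (he : t * W t n d (-1) ≤ (t - 1) * t ^ n) :
    Pair t n d f := by
  have ht2 : 2 ≤ t := by omega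
  have hn := n_pos (n := n)
  have hmn := h.mn
  have hm1 := h.m1
  have htpos : 0 < t := by omega
  have hN := N_succ (n := n) ht2
  obtain ⟨hd0, hf0⟩ := h.toGood.ne_zero ht2
  have hTn : t ^ n = t * t ^ (n - 1) := by
    rw [← pow_succ']; congr 1; omega
  have htm : 0 < t ^ m := Nat.pow_pos htpos
  have ht_le_tm : t ≤ t ^ m := by
    calc t = t ^ 1 := (pow_one t).symm
      _ ≤ t ^ m := Nat.pow_le_pow_right htpos hm1
  -- lower bounds
  have hα1 : t ^ n ≤ t * W t n f 0 := by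
    have hs := W_step ht2 f (0 : ZMod n)
    rw [zero_add] at hs
    have hdg : W t n f 1 % t ≠ 0 := by
      have := h1
      unfold dg at this
      rwa [neg_neg] at this
    have hp := W_pos ht2 hf0 (1 : ZMod n)
    have h2 : (t ^ n - 1) * 1 ≤ (t ^ n - 1) * (W t n f 1 % t) :=
      Nat.mul_le_mul_left _ (Nat.one_le_iff_ne_zero.mpr hdg)
    omega
  have hβ1 : t ^ n ≤ t * W t n d (-1) := by
    have hs := W_step ht2 d (-1 : ZMod n)
    rw [neg_add_cancel] at hs
    have hdg : W t n d 0 % t ≠ 0 := by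
      have := h0
      unfold dg at this
      rwa [neg_zero] at this
    have hp := W_pos ht2 hd0 (0 : ZMod n)
    have h2 : (t ^ n - 1) * 1 ≤ (t ^ n - 1) * (W t n d 0 % t) :=
      Nat.mul_le_mul_left _ (Nat.one_le_iff_ne_zero.mpr hdg)
    omega
  have hAex : ∀ l ≤ m, W t n f 0 = t ^ l * W t n f (-(l : ZMod n)) := by
    intro l hl
    have := h.A_exact ht2 h0 hl
    rwa [zero_sub] at this
  have hBex : ∀ j : ZMod n, dg t n f j ≠ 0 → ∀ l ≤ m,
      W t n d (j - (l : ZMod n)) = W t n d j / t ^ l := by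
    intro j hj l hl
    have := h.B_exact ht2 hj hl
    rw [this, Nat.mul_div_cancel_left _ (Nat.pow_pos htpos)]
  have hαlt := W_lt' ht2 f (0 : ZMod n)
  have hβlt := W_lt' ht2 d (-1 : ZMod n)
  set α := W t n f 0 with hα
  set β := W t n d (-1) with hβ
  have hα2 : t ^ (n - 1) ≤ α := by
    rw [hTn] at hα1
    exact Nat.le_of_mul_le_mul_left hα1 htpos
  have hβ2 : t ^ (n - 1) ≤ β := by
    rw [hTn] at hβ1
    exact Nat.le_of_mul_le_mul_left hβ1 htpos
  have hα3 : α ≤ (t - 1) * t ^ (n - 1) := by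
    apply Nat.le_of_mul_le_mul_left _ htpos
    calc t * α ≤ (t - 1) * t ^ n := hφ
      _ = t * ((t - 1) * t ^ (n - 1)) := by rw [hTn]; ring
  have hβ3 : β ≤ (t - 1) * t ^ (n - 1) := by
    apply Nat.le_of_mul_le_mul_left _ htpos
    calc t * β ≤ (t - 1) * t ^ n := he
      _ = t * ((t - 1) * t ^ (n - 1)) := by rw [hTn]; ring
  have hαl : ∀ l ≤ m, W t n f (-(l : ZMod n)) = α / t ^ l := by
    intro l hl
    rw [hAex l hl, Nat.mul_div_cancel_left _ (Nat.pow_pos htpos)]
  have hαdvd : t ^ (m - 1) ∣ α := by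
    rw [hAex (m - 1) (by omega)]; exact dvd_mul_right _ _
  have hβm : β = t ^ m * W t n d (-1 - (m : ZMod n)) := h.B_exact ht2 h1 le_rfl
  have hβdvd : t ^ (m - 1) ∣ β := by
    have := h.B_exact ht2 h1 (l := m - 1) (by omega)
    rw [← hβ] at this
    rw [this]; exact dvd_mul_right _ _
  have htt : (t - 1) * t ^ n + t ^ n = t * t ^ n := by
    rw [← Nat.succ_mul]; congr 1; omega
  -- content
  have hX0 : β + β / t ^ m < t ^ n := by
    apply Nat.lt_of_mul_lt_mul_left (a := t)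
    have h2 : t * (β / t ^ m) ≤ β := by
      calc t * (β / t ^ m) ≤ t ^ m * (β / t ^ m) := Nat.mul_le_mul_right _ ht_le_tm
        _ ≤ β := Nat.mul_div_le _ _
    rw [mul_add]
    omega
  obtain ⟨ε, hε, hXlt, hXdig⟩ := greedy t n β (β + β / t ^ m) ht2 hX0
    (le_trans hβ2 (Nat.le_add_right _ _)) hβ2 hβ3 m hm1
    (by omega) hβdvd
  set X := β + β / t ^ m + ∑ l ∈ Ico 1 m, ε l * (β / t ^ l) with hX
  set C : ℕ → ℕ := fun l => if l = 0 ∨ l = m then 1 else ε l with hCdef
  have hC1 : ∀ l, C l ≤ 1 := by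
    intro l
    simp only [hCdef]
    split_ifs
    · exact le_rfl
    · exact hε l
  have hC0 : C 0 = 1 := by simp [hCdef]
  have hCm : C m = 1 := by simp [hCdef]
  have hsumX : ∑ l ∈ range (m + 1), C l * (β / t ^ l) = X := by
    rw [sum_range_succ, hCm, one_mul, range_eq_Ico, sum_eq_sum_Ico_succ_bot (by omega), hC0,
      one_mul, pow_zero, Nat.div_one, zero_add, hX]
    have : ∑ k ∈ Ico 1 m, C k * (β / t ^ k) = ∑ l ∈ Ico 1 m, ε l * (β / t ^ l) := by
      apply sum_congr rfl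
      intro l hl
      rw [mem_Ico] at hl
      have : C l = ε l := by
        simp only [hCdef]
        rw [if_neg (by omega)]
      rw [this]
    rw [this]
    ring
  have hcne : cC t n m C ≠ 0 := cC_ne ht2 hmn C
    (fun l _ => lt_of_le_of_lt (hC1 l) (by omega)) (by rw [hC0]; omega) (by rw [hC0])
  have hex : ∀ j : ZMod n, dg t n f j ≠ 0 →
      ∑ l ∈ range (m + 1), C l * W t n d (j - (l : ZMod n)) < t ^ n := by
    intro j hj
    refine lt_of_le_of_lt ?_ hXlt
    rw [← hsumX]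
    apply sum_le_sum
    intro l hl
    rw [mem_range] at hl
    apply Nat.mul_le_mul_left
    rw [hBex j hj l (by omega)]
    exact Nat.div_le_div_right (hmax j hj)
  have hWX : W t n (d * cC t n m C) (-1) = X := by
    rw [W_cC ht2 C d (h.toGood.mul_ne hcne) (-1) (hex _ h1), ← hsumX]
    apply sum_congr rfl
    intro l hl
    rw [mem_range] at hl
    rw [hBex _ h1 l (by omega)]
  have hcont : ∀ l < m, 1 ≤ dg t n (d * cC t n m C) (-(l : ZMod n)) := by
    intro l hl
    rw [dg_neg ht2 _ l (by omega), hWX]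
    exact hXdig (l + 1) (by omega) (by omega)
  -- coins
  obtain ⟨i1, j1, hi1, hj1, hij⟩ := h.ex
  have hj1' : (m : ZMod n) - i1 = j1 := by rw [← hij]; ring
  have hκ := h.A_exact ht2 hi1 (l := m) le_rfl
  have hκlt := W_lt' ht2 f i1
  set κ := W t n f (i1 - (m : ZMod n)) with hκdef
  have hS0 : κ + α < t ^ n := by
    apply Nat.lt_of_mul_lt_mul_left (a := t)
    have h2 : t * κ ≤ t ^ m * κ := Nat.mul_le_mul_right _ ht_le_tm
    rw [mul_add]
    omega
  obtain ⟨ε', hε', hSlt, hSdig⟩ := greedy t n α (κ + α) ht2 hS0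
    (le_trans hα2 (Nat.le_add_left _ _)) hα2 hα3 m hm1
    (by omega) hαdvd
  set g : ℕ → ℕ := fun l => if l = 0 then 1 else ε' l with hgdef
  have hg1 : ∀ l, g l ≤ 1 := by
    intro l
    simp only [hgdef]
    split_ifs
    · exact le_rfl
    · exact hε' l
  have hsumS : κ + ∑ l ∈ range m, g l * W t n f (-(l : ZMod n))
      = κ + α + ∑ l ∈ Ico 1 m, ε' l * (α / t ^ l) := by
    rw [range_eq_Ico, sum_eq_sum_Ico_succ_bot (by omega), zero_add]
    have h2 : g 0 = 1 := by simp [hgdef]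
    have h3 : ∑ k ∈ Ico 1 m, g k * W t n f (-(k : ZMod n))
        = ∑ l ∈ Ico 1 m, ε' l * (α / t ^ l) := by
      apply sum_congr rfl
      intro l hl
      rw [mem_Ico] at hl
      have h4 : g l = ε' l := by
        simp only [hgdef]
        rw [if_neg (by omega)]
      rw [h4, hαl l (by omega)]
    rw [h2, h3, one_mul, Nat.cast_zero, neg_zero, ← hα, add_assoc]
  refine win_block (by omega) h C g m (by omega) i1 (by rw [hj1']; exact hj1)
    (fun l _ => lt_of_le_of_lt (hC1 l) (by omega)) hC0 ?_ hex ?_ ?_ ?_ ?_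
  · rw [hCm, one_mul, Nat.mod_eq_of_lt (dg_lt ht2 _ _)]
    exact hi1
  · intro l hl
    exact le_trans (hg1 l) (hcont l hl)
  · intro l hl _
    have := h.A_zero h0 (l := l) hl
    rwa [zero_sub] at this
  · rw [hsumS]; exact hSlt
  · intro l hl1 hl2
    rw [hsumS]
    exact le_trans (hC1 l) (hSdig l hl1 hl2)

end Pool.Agent.H54.Afa
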