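import Mathlib

set_option autoImplicit false

namespace Pool.Agent.H54.Afa

open Finset

/-- outcome A of the engine EJ. -/
def OutA (t n m α w κ D : ℕ) : Prop :=
  ∃ C γ : ℕ → ℕ,
    C 0 = 1 ∧ (C m * D) % t ≠ 0 ∧
    γ 0 = 1 ∧ (∀ l, γ l ≤ 1) ∧ (∀ l, m ≤ l → γ l = 0) ∧
    κ + ∑ l ∈ range m, γ l * (α / t ^ l) < t ^ n ∧
    (∀ l, 1 ≤ l → l ≤ m →
      C l ≤ ((κ + ∑ k ∈ range m, γ k * (α / t ^ k)) / t ^ (n - l)) % t) ∧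
    (∑ l ∈ range (m + 1), C l * t ^ (m - l) < 2 * t ^ m) ∧
    (∀ l, l < m → γ l = 1 →
      1 ≤ ((∑ k ∈ range (m + 1), C k * (w / t ^ k)) / t ^ (n - l)) % t)

/-- outcome B of the engine EJ. -/
def OutB (t n m α w κB : ℕ) : Prop :=
  ∃ C γ : ℕ → ℕ,
    γ 0 = 1 ∧ γ m = 1 ∧ (∀ l, γ l ≤ 1) ∧
    ∑ l ∈ range (m + 1), γ l * (α / t ^ l) < t ^ n ∧
    (∀ l, 1 ≤ l → l ≤ m →
      C l ≤ ((∑ k ∈ range (m + 1), γ k * (α / t ^ k)) / t ^ (n - l)) % t) ∧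
    κB + ∑ l ∈ Icc 1 m, C l * (w / t ^ l) < t ^ n ∧
    (∀ l, 1 ≤ l → l ≤ m →
      γ l ≤ ((κB + ∑ k ∈ Icc 1 m, C k * (w / t ^ k)) / t ^ (n - l)) % t)

end Pool.Agent.H54.Afa
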