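import Mathlib
import Pool.Agent.H54.Afa.EJStmt

set_option autoImplicit false

namespace Pool.Agent.H54.Afa

open Finset

/-- the digits above a level depend only on the quotient -/
theorem ct_div (t n l k X : ℕ) (hk : k < l) (hl : l ≤ n) :
    X / t ^ (n - k) = X / t ^ (n - l) / t / t ^ (l - k - 1) := by
  rw [Nat.div_div_eq_div_mul, Nat.div_div_eq_div_mul]
  congr 1
  rw [← pow_succ', ← _root_.pow_add]
  congr 1
  omega

/-- quotient from a decomposition -/
theorem ct_quot (q j U X r : ℕ) (hX : X = U * (q + j) + r) (hr : r < U) : X / U = q + j := by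
  rw [hX, Nat.mul_add_div (by omega), Nat.div_eq_of_lt hr, Nat.add_zero]

/-- one step: the effect of an addition `y` on the quotient at the unit `U` -/
theorem ct_add (R U y j : ℕ) (_hU : 0 < U) (h1 : j * U ≤ R % U + y)
    (h2 : R % U + y < (j + 1) * U) : (R + y) / U = R / U + j := by
  have h3 := Nat.div_add_mod R U
  refine ct_quot (R / U) j U _ (R % U + y - j * U) ?_ ?_
  · rw [Nat.mul_add]
    have : U * j = j * U := mul_comm _ _
    omega
  · rw [Nat.succ_mul] at h2
    omega

theorem ct_mod_div (q j t : ℕ) (h : q % t + j < t) : (q + j) / t = q / t := by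
  have h1 := Nat.div_add_mod q t
  have h2 : q + j = t * (q / t) + (q % t + j) := by omega
  rw [h2, Nat.mul_add_div (by omega), Nat.div_eq_of_lt h]
  omega

theorem ct_mod_mod (q j t : ℕ) (h : q % t + j < t) : (q + j) % t = q % t + j := by
  have h1 := Nat.div_add_mod q t
  have h2 : q + j = t * (q / t) + (q % t + j) := by omega
  rw [h2, Nat.mul_add_mod, Nat.mod_eq_of_lt h]

theorem ct_mod_div1 (q j t : ℕ) (ht : 0 < t) (h0 : t ≤ q % t + j) (h : q % t + j < 2 * t) :
    (q + j) / t = q / t + 1 := by
  have h1 := Nat.div_add_mod q t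
  have h2 : q + j = t * (q / t + 1) + (q % t + j - t) := by
    rw [Nat.mul_add, mul_one]
    omega
  rw [h2, Nat.mul_add_div ht]
  have h3 : (q % t + j - t) / t = 0 := Nat.div_eq_of_lt (by omega)
  rw [h3]

theorem ct_mod_mod1 (q j t : ℕ) (h0 : t ≤ q % t + j) (h : q % t + j < 2 * t) :
    (q + j) % t = q % t + j - t := by
  have h1 := Nat.div_add_mod q t
  have h2 : q + j = t * (q / t + 1) + (q % t + j - t) := by
    rw [Nat.mul_add, mul_one]
    omega
  have h3 : (t * (q / t + 1) + (q % t + j - t)) % t = q % t + j - t := by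
    rw [Nat.mul_add_mod, Nat.mod_eq_of_lt (by omega)]
  rw [h2, h3]

/-- bounds for the additions -/
theorem ct_bounds (t u W' : ℕ) (ht : 6 ≤ t) (hu : 0 < u) (h1 : (t - 1) * u < t * W')
    (h2 : (t - 1) * W' ≤ t * u) :
    t * u ≤ (t + 2) * W' ∧ (t + 2) * u ≤ (t + 4) * W' ∧
      5 * ((t + 2) * W') ≤ 8 * (t * u) ∧ (t + 4) * W' ≤ 2 * (t * u) := by
  obtain ⟨s, rfl⟩ : ∃ s, t = s + 6 := ⟨t - 6, by omega⟩
  have e1 : s + 6 - 1 = s + 5 := by omega
  rw [e1] at h1 h2
  refine ⟨?_, ?_, ?_, ?_⟩
  · by_contra hc
    push Not at hc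
    nlinarith
  · by_contra hc
    push Not at hc
    nlinarith
  · nlinarith
  · nlinarith

/-- content lemma (section 4 of the note): process the levels 1..L with gamma l = 1 in
increasing order -/
theorem ct_content (t n L w R0 : ℕ) (ht : 6 ≤ t) (hL : L + 1 < n) (hw : t ^ (L + 2) ∣ w)
    (hw1 : (t - 1) * t ^ n < t * w) (hw2 : (t - 1) * w ≤ t * t ^ n)
    (γ : ℕ → ℕ) (_hγ : ∀ l, γ l ≤ 1) :
    ∃ C : ℕ → ℕ,
      (∀ l, C l ≤ (if 1 ≤ l ∧ l ≤ L then γ l else 0)
        + (if 2 ≤ l ∧ l ≤ L + 1 then 4 * γ (l - 1) else 0)) ∧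
      ∀ Δ, Δ ≤ 2 * t ^ (n - L - 1) → ∀ l, 1 ≤ l → l ≤ L → γ l = 1 →
        1 ≤ ((R0 + ∑ k ∈ range (L + 2), C k * (w / t ^ k) + Δ) / t ^ (n - l)) % t := by
  induction L with
  | zero =>
    refine ⟨fun _ => 0, fun l => Nat.zero_le _, fun Δ _ l h1 h2 => ?_⟩
    omega
  | succ L ih =>
    obtain ⟨C0, hC0, hP⟩ := ih (by omega) ((pow_dvd_pow t (by omega)).trans hw)
    have hC02 : C0 (L + 2) = 0 := by
      have := hC0 (L + 2)
      rw [if_neg (by omega), if_neg (by omega)] at this
      omega
    -- notation
    obtain ⟨R, hR⟩ : ∃ R, R = R0 + ∑ k ∈ range (L + 2), C0 k * (w / t ^ k) := ⟨_, rfl⟩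
    rw [← hR] at hP
    obtain ⟨u, hu⟩ : ∃ u, u = t ^ (n - (L + 1) - 1) := ⟨_, rfl⟩
    have hu0 : 0 < u := by rw [hu]; exact Nat.pow_pos (by omega)
    have hU : t ^ (n - (L + 1)) = t * u := by
      rw [hu, ← pow_succ']
      congr 1
      omega
    have hU' : t ^ (n - L - 1) = t * u := by rw [← hU]; congr 1
    rw [hU'] at hP
    have hT : t ^ n = t ^ (L + 2) * u := by
      rw [hu, ← _root_.pow_add]
      congr 1
      omega
    obtain ⟨W', hW'⟩ : ∃ W', w = t ^ (L + 2) * W' := (pow_dvd_pow t (by omega)).trans hw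
    have htL : 0 < t ^ (L + 2) := Nat.pow_pos (by omega)
    have hb1 : (t - 1) * u < t * W' := by
      rw [hT, hW'] at hw1
      have : t ^ (L + 2) * ((t - 1) * u) < t ^ (L + 2) * (t * W') := by
        calc _ = (t - 1) * (t ^ (L + 2) * u) := by ring
          _ < _ := hw1
          _ = _ := by ring
      exact Nat.lt_of_mul_lt_mul_left this
    have hb2 : (t - 1) * W' ≤ t * u := by
      rw [hT, hW'] at hw2
      have : t ^ (L + 2) * ((t - 1) * W') ≤ t ^ (L + 2) * (t * u) := by
        calc _ = (t - 1) * (t ^ (L + 2) * W') := by ring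
          _ ≤ _ := hw2
          _ = _ := by ring
      exact Nat.le_of_mul_le_mul_left this htL
    obtain ⟨g1, g2, g3, g4⟩ := ct_bounds t u W' ht hu0 hb1 hb2
    have hwl : w / t ^ (L + 1) = t * W' := by
      rw [hW', pow_succ t (L + 1), mul_assoc]
      exact Nat.mul_div_cancel_left _ (Nat.pow_pos (by omega))
    have hwl1 : w / t ^ (L + 2) = W' := by
      rw [hW']
      exact Nat.mul_div_cancel_left _ htL
    have hsum : ∀ c : ℕ, R0 + ∑ k ∈ range (L + 1 + 2), (C0 k + (if k = L + 1 then 1 else 0)
        + (if k = L + 2 then c else 0)) * (w / t ^ k) = R + (t + c) * W' := by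
      intro c
      rw [sum_range_succ, hC02, if_neg (by omega), if_pos rfl, hwl1]
      have e1 : ∑ k ∈ range (L + 2), (C0 k + (if k = L + 1 then 1 else 0)
          + (if k = L + 2 then c else 0)) * (w / t ^ k)
          = ∑ k ∈ range (L + 2), C0 k * (w / t ^ k) + t * W' := by
        have e2 : ∀ k ∈ range (L + 2), (C0 k + (if k = L + 1 then 1 else 0)
            + (if k = L + 2 then c else 0)) * (w / t ^ k)
            = C0 k * (w / t ^ k) + (if k = L + 1 then t * W' else 0) := by
          intro k hk
          rw [mem_range] at hk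
          rw [if_neg (by omega : ¬ k = L + 2)]
          by_cases h : k = L + 1
          · rw [if_pos h, if_pos h, h, hwl]
            ring
          · rw [if_neg h, if_neg h]
            ring
        rw [sum_congr rfl e2, sum_add_distrib, sum_ite_eq', if_pos (by simp)]
      rw [e1, hR]
      ring
    have hsum0 : R0 + ∑ k ∈ range (L + 1 + 2), C0 k * (w / t ^ k) = R := by
      rw [sum_range_succ, hC02, hR]
      ring
    have hbound : ∀ c ≤ 4, γ (L + 1) = 1 → ∀ l, (C0 l + (if l = L + 1 then 1 else 0)
        + (if l = L + 2 then c else 0)) ≤ (if 1 ≤ l ∧ l ≤ L + 1 then γ l else 0)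
        + (if 2 ≤ l ∧ l ≤ L + 1 + 1 then 4 * γ (l - 1) else 0) := by
      intro c hc hg l
      have h0 := hC0 l
      rcases Nat.lt_trichotomy l (L + 1) with h | h | h
      · rw [if_neg (by omega : ¬ l = L + 1), if_neg (by omega : ¬ l = L + 2)]
        have e1 : (1 ≤ l ∧ l ≤ L + 1) ↔ (1 ≤ l ∧ l ≤ L) := by omega
        have e2 : (2 ≤ l ∧ l ≤ L + 1 + 1) ↔ (2 ≤ l ∧ l ≤ L + 1) := by omega
        simp only [e1, e2]
        omega
      · subst h
        rw [if_neg (by omega)] at h0
        rw [if_pos rfl, if_neg (by omega : ¬ L + 1 = L + 2), if_pos (by omega), hg]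
        by_cases h2 : 2 ≤ L + 1
        · rw [if_pos ⟨h2, le_rfl⟩] at h0
          rw [if_pos ⟨h2, by omega⟩]
          omega
        · rw [if_neg (by omega)] at h0
          rw [if_neg (by omega)]
          omega
      · by_cases h2 : l = L + 2
        · subst h2
          rw [if_neg (by omega), if_pos rfl, if_neg (by omega), if_pos (by omega), hC02,
            show L + 2 - 1 = L + 1 by omega, hg]
          omega
        · rw [if_neg (by omega), if_neg h2, if_neg (by omega), if_neg (by omega)]
          rw [if_neg (by omega), if_neg (by omega)] at h0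
          omega
    by_cases hg : γ (L + 1) = 1
    · -- a level with `γ = 1`
      have hUpos : 0 < t * u := Nat.mul_pos (by omega) hu0
      have hrho : R % (t * u) < t * u := Nat.mod_lt _ hUpos
      have hdel : R / (t * u) % t < t := Nat.mod_lt _ (by omega)
      have hΔu : ∀ Δ, Δ ≤ 2 * t ^ (n - (L + 1) - 1) → Δ ≤ 2 * u := by
        intro Δ h
        rwa [← hu] at h
      have hut : 6 * u ≤ t * u := Nat.mul_le_mul_right u ht
      -- the two kinds of conclusions from the quotient at level `L + 1`
      by_cases ha : R / (t * u) % t = 0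
      · refine ⟨fun k => C0 k + (if k = L + 1 then 1 else 0) + (if k = L + 2 then 2 else 0),
          hbound 2 (by omega) hg, ?_⟩
        intro Δ hΔ l hl1 hl2 hgl
        have hΔ' := hΔu Δ hΔ
        rw [hsum 2]
        have hq : (R + (t + 2) * W' + Δ) / (t * u) = R / (t * u) + 1 ∨
            (R + (t + 2) * W' + Δ) / (t * u) = R / (t * u) + 2 := by
          rw [add_assoc]
          rcases Nat.lt_or_ge (R % (t * u) + ((t + 2) * W' + Δ)) (2 * (t * u)) with h | h
          · left
            apply ct_add _ _ _ 1 hUpos <;> omega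
          · right
            apply ct_add _ _ _ 2 hUpos <;> omega
        obtain ⟨j, hj1, hj2, hj⟩ : ∃ j, 1 ≤ j ∧ j ≤ 2 ∧
            (R + (t + 2) * W' + Δ) / (t * u) = R / (t * u) + j := by
          rcases hq with h | h
          · exact ⟨1, by omega, by omega, h⟩
          · exact ⟨2, by omega, by omega, h⟩
        rcases Nat.lt_or_ge l (L + 1) with h | h
        · rw [ct_div t n (L + 1) l _ h (by omega), hU, hj, ct_mod_div _ _ _ (by omega)]
          have h3 := hP 0 (Nat.zero_le _) l hl1 (by omega) hgl
          rw [add_zero, ct_div t n (L + 1) l _ h (by omega), hU] at h3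
          exact h3
        · have : l = L + 1 := by omega
          subst this
          rw [hU, hj, ct_mod_mod _ _ _ (by omega)]
          omega
      · by_cases hb : R / (t * u) % t = t - 1 ∧ (t - 2) * u ≤ R % (t * u)
        · obtain ⟨hb1', hb2'⟩ := hb
          refine ⟨fun k => C0 k + (if k = L + 1 then 1 else 0) + (if k = L + 2 then 4 else 0),
            hbound 4 le_rfl hg, ?_⟩
          intro Δ hΔ l hl1 hl2 hgl
          have hΔ' := hΔu Δ hΔ
          rw [hsum 4]
          have e5 : (t - 2) * u + (t + 2) * u = 2 * (t * u) := by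
            rw [← Nat.add_mul]
            have : t - 2 + (t + 2) = 2 * t := by omega
            rw [this, mul_assoc]
          obtain ⟨j, hj1, hj2, hj⟩ : ∃ j, 2 ≤ j ∧ j ≤ 3 ∧
              (R + (t + 4) * W' + Δ) / (t * u) = R / (t * u) + j := by
            rw [add_assoc]
            rcases Nat.lt_or_ge (R % (t * u) + ((t + 4) * W' + Δ)) (3 * (t * u)) with h | h
            · refine ⟨2, by omega, by omega, ?_⟩
              apply ct_add _ _ _ 2 hUpos <;> omega
            · refine ⟨3, by omega, by omega, ?_⟩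
              apply ct_add _ _ _ 3 hUpos <;> omega
          rcases Nat.lt_or_ge l (L + 1) with h | h
          · rw [ct_div t n (L + 1) l _ h (by omega), hU, hj,
              ct_mod_div1 _ _ _ (by omega) (by omega) (by omega)]
            have e6 : (t - 2) * u + 2 * u = t * u := by
              rw [← Nat.add_mul]
              congr 1
              omega
            have h3 := hP (t * u - R % (t * u)) (by omega) l hl1 (by omega) hgl
            rw [ct_div t n (L + 1) l _ h (by omega), hU,
              ct_add R (t * u) (t * u - R % (t * u)) 1 hUpos (by omega) (by omega),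
              ct_mod_div1 _ _ _ (by omega) (by omega) (by omega)] at h3
            exact h3
          · have : l = L + 1 := by omega
            subst this
            rw [hU, hj, ct_mod_mod1 _ _ _ (by omega) (by omega)]
            omega
        · refine ⟨C0, ?_, ?_⟩
          · intro l
            refine le_trans ?_ (hbound 0 (by omega) hg l)
            omega
          · intro Δ hΔ l hl1 hl2 hgl
            have hΔ' := hΔu Δ hΔ
            rw [hsum0]
            obtain ⟨j, hj2, hj3, hj⟩ : ∃ j, j ≤ 1 ∧ R / (t * u) % t + j < t ∧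
                (R + Δ) / (t * u) = R / (t * u) + j := by
              rcases Nat.lt_or_ge (R % (t * u) + Δ) (t * u) with h | h
              · refine ⟨0, by omega, by omega, ?_⟩
                apply ct_add _ _ _ 0 hUpos <;> omega
              · refine ⟨1, le_rfl, ?_, ?_⟩
                · by_contra hcon
                  apply hb
                  refine ⟨by omega, ?_⟩
                  have e6 : (t - 2) * u + 2 * u = t * u := by
                    rw [← Nat.add_mul]
                    congr 1
                    omega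
                  omega
                · apply ct_add _ _ _ 1 hUpos <;> omega
            rcases Nat.lt_or_ge l (L + 1) with h | h
            · rw [ct_div t n (L + 1) l _ h (by omega), hU, hj, ct_mod_div _ _ _ hj3]
              have h3 := hP 0 (Nat.zero_le _) l hl1 (by omega) hgl
              rw [add_zero, ct_div t n (L + 1) l _ h (by omega), hU] at h3
              exact h3
            · have : l = L + 1 := by omega
              subst this
              rw [hU, hj, ct_mod_mod _ _ _ hj3]
              omega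
    · refine ⟨C0, ?_, ?_⟩
      · intro l
        refine (hC0 l).trans ?_
        apply Nat.add_le_add
        · split_ifs <;> omega
        · split_ifs <;> omega
      · intro Δ hΔ l hl1 hl2 hgl
        rw [hsum0]
        have hl3 : l ≤ L := by
          by_contra hc
          apply hg
          rw [← hgl]
          congr 1
          omega
        refine hP Δ ?_ l hl1 hl3 hgl
        rw [← hu] at hΔ
        have : 2 * u ≤ 2 * (t * u) := by
          apply Nat.mul_le_mul_left
          exact Nat.le_mul_of_pos_left u (by omega)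
        omega

/-- a multiplier among two consecutive ones -/
theorem ea_mult (t D c0 : ℕ) (hD : D % t ≠ 0) :
    ∃ c, (c = c0 ∨ c = c0 + 1) ∧ (c * D) % t ≠ 0 := by
  by_cases h : (c0 * D) % t = 0
  · refine ⟨c0 + 1, Or.inr rfl, fun h1 => hD ?_⟩
    have h2 : t ∣ c0 * D := Nat.dvd_of_mod_eq_zero h
    have h3 : t ∣ (c0 + 1) * D := Nat.dvd_of_mod_eq_zero h1
    rw [Nat.add_mul, one_mul] at h3
    exact Nat.mod_eq_zero_of_dvd ((Nat.dvd_add_right h2).mp h3)
  · exact ⟨c0, Or.inl rfl, h⟩

/-- the quotients after the last addition -/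
theorem ea_last (t u W' R D : ℕ) (ht : 6 ≤ t) (hu : 0 < u) (h1 : (t - 1) * u < t * W')
    (h2 : (t - 1) * W' ≤ t * u) (hD : D % t ≠ 0) :
    ∃ e c : ℕ, e ≤ 1 ∧ 1 ≤ c ∧ c ≤ 5 ∧ (c * D) % t ≠ 0 ∧
      1 ≤ (R + (e * t + c) * W') / (t * u) % t ∧
      ∃ Δ ≤ 2 * (t * u), (R + (e * t + c) * W') / (t * u) / t = (R + Δ) / (t * u) / t := by
  obtain ⟨g1, g2, g3, g4⟩ := ct_bounds t u W' ht hu h1 h2
  have hUpos : 0 < t * u := Nat.mul_pos (by omega) hu
  have hrho : R % (t * u) < t * u := Nat.mod_lt _ hUpos
  have hdel : R / (t * u) % t < t := Nat.mod_lt _ (by omega)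
  have hut : 6 * u ≤ t * u := Nat.mul_le_mul_right u ht
  have hW5 : 5 * W' ≤ 6 * u := by
    obtain ⟨s, rfl⟩ : ∃ s, t = s + 6 := ⟨t - 6, by omega⟩
    have e1 : s + 6 - 1 = s + 5 := by omega
    rw [e1] at h2
    nlinarith
  have hexp : ∀ c : ℕ, (1 * t + c) * W' = t * W' + c * W' := by
    intro c
    ring
  have hexp2 : (t + 2) * W' = t * W' + 2 * W' := by ring
  have hexp4 : (t + 4) * W' = t * W' + 4 * W' := by ring
  by_cases ha : R / (t * u) % t = 0
  · obtain ⟨c, hc, hcD⟩ := ea_mult t D 2 hD
    have hcW : 2 * W' ≤ c * W' ∧ c * W' ≤ 3 * W' := by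
      rcases hc with rfl | rfl
      · exact ⟨le_rfl, by omega⟩
      · exact ⟨by omega, le_rfl⟩
    refine ⟨1, c, le_rfl, by omega, by omega, hcD, ?_⟩
    obtain ⟨j, hj1, hj2, hj⟩ : ∃ j, 1 ≤ j ∧ j ≤ 2 ∧
        (R + (1 * t + c) * W') / (t * u) = R / (t * u) + j := by
      rw [hexp]
      rcases Nat.lt_or_ge (R % (t * u) + (t * W' + c * W')) (2 * (t * u)) with h | h
      · refine ⟨1, by omega, by omega, ?_⟩
        apply ct_add _ _ _ 1 hUpos <;> omega
      · refine ⟨2, by omega, by omega, ?_⟩
        apply ct_add _ _ _ 2 hUpos <;> omega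
    rw [hj]
    refine ⟨?_, 0, Nat.zero_le _, ?_⟩
    · rw [ct_mod_mod _ _ _ (by omega)]
      omega
    · rw [ct_mod_div _ _ _ (by omega), add_zero]
  · by_cases hb : R / (t * u) % t = t - 1 ∧ (t - 2) * u ≤ R % (t * u)
    · obtain ⟨hb1', hb2'⟩ := hb
      obtain ⟨c, hc, hcD⟩ := ea_mult t D 4 hD
      have hcW : 4 * W' ≤ c * W' ∧ c * W' ≤ 5 * W' := by
        rcases hc with rfl | rfl
        · exact ⟨le_rfl, by omega⟩
        · exact ⟨by omega, le_rfl⟩
      have e5 : (t - 2) * u + (t + 2) * u = 2 * (t * u) := by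
        rw [← Nat.add_mul]
        have : t - 2 + (t + 2) = 2 * t := by omega
        rw [this, mul_assoc]
      have e6 : (t - 2) * u + 2 * u = t * u := by
        rw [← Nat.add_mul]
        congr 1
        omega
      refine ⟨1, c, le_rfl, by omega, by omega, hcD, ?_⟩
      obtain ⟨j, hj1, hj2, hj⟩ : ∃ j, 2 ≤ j ∧ j ≤ 3 ∧
          (R + (1 * t + c) * W') / (t * u) = R / (t * u) + j := by
        rw [hexp]
        rcases Nat.lt_or_ge (R % (t * u) + (t * W' + c * W')) (3 * (t * u)) with h | h
        · refine ⟨2, by omega, by omega, ?_⟩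
          apply ct_add _ _ _ 2 hUpos <;> omega
        · refine ⟨3, by omega, by omega, ?_⟩
          apply ct_add _ _ _ 3 hUpos <;> omega
      rw [hj]
      refine ⟨?_, t * u - R % (t * u), by omega, ?_⟩
      · rw [ct_mod_mod1 _ _ _ (by omega) (by omega)]
        omega
      · rw [ct_mod_div1 _ _ _ (by omega) (by omega) (by omega),
          ct_add R (t * u) (t * u - R % (t * u)) 1 hUpos (by omega) (by omega),
          ct_mod_div1 _ _ _ (by omega) (by omega) (by omega)]
    · refine ⟨0, 1, by omega, le_rfl, by omega, by rwa [one_mul], ?_⟩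
      have e0 : (0 * t + 1) * W' = W' := by ring
      rw [e0]
      obtain ⟨j, hj2, hj3, hj⟩ : ∃ j, j ≤ 1 ∧ R / (t * u) % t + j < t ∧
          (R + W') / (t * u) = R / (t * u) + j := by
        rcases Nat.lt_or_ge (R % (t * u) + W') (t * u) with h | h
        · refine ⟨0, by omega, by omega, ?_⟩
          apply ct_add _ _ _ 0 hUpos <;> omega
        · refine ⟨1, le_rfl, ?_, ?_⟩
          · by_contra hcon
            apply hb
            refine ⟨by omega, ?_⟩
            have e6 : (t - 2) * u + 2 * u = t * u := by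
              rw [← Nat.add_mul]
              congr 1
              omega
            omega
          · apply ct_add _ _ _ 1 hUpos <;> omega
      rw [hj]
      refine ⟨?_, 0, Nat.zero_le _, ?_⟩
      · rw [ct_mod_mod _ _ _ hj3]
        omega
      · rw [ct_mod_div _ _ _ hj3, add_zero]

theorem ea_geom (t : ℕ) (ht : 6 ≤ t) (C : ℕ → ℕ) (m : ℕ) (hC : ∀ l, 2 ≤ l → l ≤ m → C l ≤ 5)
    (h1 : C 1 ≤ 3) (h0 : C 0 = 1) (hm : 1 ≤ m) :
    ∑ l ∈ range (m + 1), C l * t ^ (m - l) + 1 ≤ t ^ m + 4 * t ^ (m - 1) := by
  induction m with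
  | zero => omega
  | succ m ih =>
    rcases Nat.eq_zero_or_pos m with hm0 | hm0
    · subst hm0
      rw [sum_range_succ, sum_range_succ, range_zero, sum_empty, h0]
      simp only [zero_add, Nat.sub_zero, pow_one, Nat.sub_self, pow_zero, mul_one, one_mul]
      omega
    · have h2 := ih (fun l hl1 hl2 => hC l hl1 (by omega)) hm0
      have h3 : ∑ l ∈ range (m + 1 + 1), C l * t ^ (m + 1 - l)
          = t * ∑ l ∈ range (m + 1), C l * t ^ (m - l) + C (m + 1) := by
        rw [sum_range_succ, Nat.sub_self, pow_zero, mul_one, mul_sum]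
        congr 1
        apply sum_congr rfl
        intro l hl
        rw [mem_range] at hl
        have : m + 1 - l = (m - l) + 1 := by omega
        rw [this, pow_succ]
        ring
      have h4 := hC (m + 1) (by omega) le_rfl
      have h5 : t ^ (m + 1) = t * t ^ m := pow_succ' t m
      have h6 : t ^ m = t * t ^ (m - 1) := by
        rw [← pow_succ']
        congr 1
        omega
      have h7 : t * (∑ l ∈ range (m + 1), C l * t ^ (m - l) + 1)
          ≤ t * (t ^ m + 4 * t ^ (m - 1)) := Nat.mul_le_mul_left _ h2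
      rw [Nat.mul_add, mul_one, Nat.mul_add] at h7
      rw [h3, h5]
      have h8 : m + 1 - 1 = m := by omega
      rw [h8]
      have h9 : t * (4 * t ^ (m - 1)) = 4 * t ^ m := by
        rw [h6]
        ring
      rw [h9] at h7
      omega

/-- the sum of all additions against `2 w` -/
theorem ea_total (t m w : ℕ) (ht : 2 ≤ t) (C : ℕ → ℕ) (hw : t ^ m ∣ w) (hw0 : 0 < w)
    (hC : ∑ l ∈ range (m + 1), C l * t ^ (m - l) < 2 * t ^ m) :
    ∑ l ∈ range (m + 1), C l * (w / t ^ l) < 2 * w := by
  obtain ⟨W', rfl⟩ := hw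
  have htm : 0 < t ^ m := Nat.pow_pos (by omega)
  have hW : 0 < W' := Nat.pos_of_mul_pos_left hw0
  have h1 : ∑ l ∈ range (m + 1), C l * (t ^ m * W' / t ^ l)
      = (∑ l ∈ range (m + 1), C l * t ^ (m - l)) * W' := by
    rw [sum_mul]
    apply sum_congr rfl
    intro l hl
    rw [mem_range] at hl
    have h2 : t ^ m = t ^ l * t ^ (m - l) := by
      rw [← _root_.pow_add]
      congr 1
      omega
    rw [h2, mul_assoc (t ^ l), Nat.mul_div_cancel_left _ (Nat.pow_pos (by omega))]
    ring
  rw [h1]
  calc _ < 2 * t ^ m * W' := Nat.mul_lt_mul_of_pos_right hC hW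
    _ = _ := by ring

/-- the A ending of the engine -/
theorem A_end (t n m α w κ D : ℕ) (ht : 6 ≤ t) (hm : 1 ≤ m) (hmn : m < n)
    (hw : t ^ (m + 1) ∣ w) (hw1 : (t - 1) * t ^ n < t * w) (hw2 : (t - 1) * w ≤ t * t ^ n)
    (hD : D % t ≠ 0) (γ : ℕ → ℕ) (hγ0 : γ 0 = 1) (hγ1 : ∀ l, γ l ≤ 1)
    (hγm : ∀ l, m ≤ l → γ l = 0)
    (hS : κ + ∑ l ∈ range m, γ l * (α / t ^ l) < t ^ n)
    (hd1 : ∀ l, 1 ≤ l → l < m → γ l = 1 →
      1 ≤ (κ + ∑ k ∈ range m, γ k * (α / t ^ k)) / t ^ (n - l) % t)
    (hd2 : ∀ l, l < m → γ l = 1 →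
      (κ + ∑ k ∈ range m, γ k * (α / t ^ k)) / t ^ (n - (l + 1)) % t = t - 1)
    (hdm : 1 ≤ (κ + ∑ k ∈ range m, γ k * (α / t ^ k)) / t ^ (n - m) % t) :
    OutA t n m α w κ D := by
  have htpos : 0 < t := by omega
  have hT : 0 < t ^ n := Nat.pow_pos htpos
  have hw0 : 0 < w := by
    rcases Nat.eq_zero_or_pos w with h0 | h0
    · rw [h0] at hw1
      omega
    · exact h0
  have hd10 : (κ + ∑ k ∈ range m, γ k * (α / t ^ k)) / t ^ (n - 1) % t = t - 1 := by
    have := hd2 0 (by omega) hγ0
    rwa [zero_add] at this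
  -- the first two summands give the digit of the level `0`
  have hw5 : 5 * w ≤ 6 * t ^ n := by
    obtain ⟨s, rfl⟩ : ∃ s, t = s + 6 := ⟨t - 6, by omega⟩
    have e1 : s + 6 - 1 = s + 5 := by omega
    rw [e1] at hw2
    nlinarith
  obtain ⟨w1, hw1'⟩ : t ∣ w := (dvd_pow_self t (by omega)).trans hw
  have hwt : w / t = w1 := by
    rw [hw1']
    exact Nat.mul_div_cancel_left _ htpos
  have hbase : t ^ n ≤ w + 2 * w1 := by
    by_contra hc
    push Not at hc
    obtain ⟨s, rfl⟩ : ∃ s, t = s + 6 := ⟨t - 6, by omega⟩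
    have e1 : s + 6 - 1 = s + 5 := by omega
    rw [e1] at hw1
    rw [hw1'] at hw1 hc
    nlinarith
  rcases Nat.lt_or_ge m 2 with hm2 | hm2
  · have hm1 : m = 1 := by omega
    subst hm1
    obtain ⟨c, hc, hcD⟩ := ea_mult t D 2 hD
    have hsum : ∑ k ∈ range (1 + 1), (fun l => if l = 0 then 1 else if l = 1 then c else 0) k
        * (w / t ^ k) = w + c * w1 := by
      rw [sum_range_succ, sum_range_succ, range_zero, sum_empty]
      simp only [if_true, pow_zero, Nat.div_one, pow_one, hwt, zero_add, one_mul]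
      rw [if_neg (by omega)]
    have hcw : 2 * w1 ≤ c * w1 ∧ c * w1 ≤ 3 * w1 := by
      rcases hc with rfl | rfl
      · exact ⟨le_rfl, by omega⟩
      · exact ⟨by omega, le_rfl⟩
    have hw16 : 6 * w1 ≤ w := by
      rw [hw1']
      exact Nat.mul_le_mul_right _ ht
    refine ⟨fun l => if l = 0 then 1 else if l = 1 then c else 0, γ, by simp, ?_, hγ0, hγ1, hγm,
      hS, ?_, ?_, ?_⟩
    · simp only [if_true]
      rw [if_neg (by omega)]
      exact hcD
    · intro l hl1 hl2
      have hl : l = 1 := by omega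
      subst hl
      simp only [if_true]
      rw [if_neg (by omega), hd10]
      omega
    · rw [sum_range_succ, sum_range_succ, range_zero, sum_empty]
      simp only [if_true, Nat.sub_zero, pow_one, Nat.sub_self, pow_zero, mul_one, zero_add,
        one_mul]
      rw [if_neg (by omega)]
      omega
    · intro l hl _
      have hl0 : l = 0 := by omega
      subst hl0
      rw [hsum, Nat.sub_zero]
      have hq : (w + c * w1) / t ^ n = 1 := by
        have h1 : (w + c * w1) / t ^ n < 2 := by
          rw [Nat.div_lt_iff_lt_mul hT]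
          omega
        have h2 : 1 ≤ (w + c * w1) / t ^ n := by
          rw [Nat.one_le_div_iff hT]
          omega
        omega
      rw [hq, Nat.mod_eq_of_lt (by omega)]
  · -- `m ≥ 2`
    obtain ⟨C0, hC0, hP⟩ := ct_content t n (m - 2) w (w + 2 * w1) ht (by omega)
      ((pow_dvd_pow t (by omega)).trans hw) hw1 hw2 γ hγ1
    have e2 : m - 2 + 2 = m := by omega
    have e3 : n - (m - 2) - 1 = n - (m - 1) := by omega
    rw [e2, e3] at hP
    obtain ⟨R1, hR1⟩ : ∃ R1, R1 = w + 2 * w1 + ∑ k ∈ range m, C0 k * (w / t ^ k) := ⟨_, rfl⟩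
    rw [← hR1] at hP
    obtain ⟨u, hu⟩ : ∃ u, u = t ^ (n - m) := ⟨_, rfl⟩
    have hu0 : 0 < u := by rw [hu]; exact Nat.pow_pos htpos
    have hU : t ^ (n - (m - 1)) = t * u := by
      rw [hu, ← pow_succ']
      congr 1
      omega
    rw [hU] at hP
    have hTu : t ^ n = t ^ m * u := by
      rw [hu, ← _root_.pow_add]
      congr 1
      omega
    obtain ⟨W', hW'⟩ : ∃ W', w = t ^ m * W' := (pow_dvd_pow t (by omega)).trans hw
    have htm : 0 < t ^ m := Nat.pow_pos htpos
    have hb1 : (t - 1) * u < t * W' := by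
      have : t ^ m * ((t - 1) * u) < t ^ m * (t * W') := by
        calc _ = (t - 1) * (t ^ m * u) := by ring
          _ = (t - 1) * t ^ n := by rw [← hTu]
          _ < t * w := hw1
          _ = _ := by rw [hW']; ring
      exact Nat.lt_of_mul_lt_mul_left this
    have hb2 : (t - 1) * W' ≤ t * u := by
      have : t ^ m * ((t - 1) * W') ≤ t ^ m * (t * u) := by
        calc _ = (t - 1) * (t ^ m * W') := by ring
          _ = (t - 1) * w := by rw [← hW']
          _ ≤ t * t ^ n := hw2
          _ = _ := by rw [hTu]; ring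
      exact Nat.le_of_mul_le_mul_left this htm
    have hwm : w / t ^ m = W' := by
      rw [hW']
      exact Nat.mul_div_cancel_left _ htm
    have hwm1 : w / t ^ (m - 1) = t * W' := by
      have : t ^ m = t ^ (m - 1) * t := by
        rw [← pow_succ]
        congr 1
        omega
      rw [hW', this, mul_assoc]
      exact Nat.mul_div_cancel_left _ (Nat.pow_pos htpos)
    have hC00 : C0 0 = 0 := by
      have := hC0 0
      rw [if_neg (by omega), if_neg (by omega)] at this
      omega
    have hC0m : ∀ l, m ≤ l → C0 l = 0 := by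
      intro l hl
      have := hC0 l
      rw [if_neg (by omega), if_neg (by omega)] at this
      omega
    -- choice of the last additions
    obtain ⟨e, c, he, hc1, hc5, hcD, hγe, hdig, hpres⟩ : ∃ e c : ℕ, e ≤ 1 ∧ 1 ≤ c ∧ c ≤ 5 ∧
        (c * D) % t ≠ 0 ∧ (γ (m - 1) = 0 → e = 0 ∧ c = 1) ∧
        (γ (m - 1) = 1 → 1 ≤ (R1 + (e * t + c) * W') / (t * u) % t) ∧
        ∀ l, 1 ≤ l → l ≤ m - 2 → γ l = 1 →
          1 ≤ (R1 + (e * t + c) * W') / t ^ (n - l) % t := by
      rcases Nat.lt_or_ge (γ (m - 1)) 1 with hg | hg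
      · refine ⟨0, 1, by omega, le_rfl, by omega, by rwa [one_mul], fun _ => ⟨rfl, rfl⟩,
          fun h => by omega, ?_⟩
        intro l hl1 hl2 hgl
        refine hP _ ?_ l hl1 hl2 hgl
        have e0 : (0 * t + 1) * W' = W' := by ring
        rw [e0]
        obtain ⟨g1, g2, g3, g4⟩ := ct_bounds t u W' ht hu0 hb1 hb2
        have hexp4 : (t + 4) * W' = t * W' + 4 * W' := by ring
        omega
      · obtain ⟨e, c, he, hc1, hc5, hcD, hdig, Δ, hΔ, hq⟩ :=
          ea_last t u W' R1 D ht hu0 hb1 hb2 hD
        refine ⟨e, c, he, hc1, hc5, hcD, fun h => by omega, fun _ => hdig, ?_⟩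
        intro l hl1 hl2 hgl
        have h1 := hP Δ hΔ l hl1 hl2 hgl
        rw [ct_div t n (m - 1) l _ (by omega) (by omega), hU] at h1 ⊢
        rw [hq]
        exact h1
    -- the final multipliers
    obtain ⟨C, hCdef⟩ : ∃ C : ℕ → ℕ, C = fun l => (if l = 0 then 1 else 0)
        + (if l = 1 then 2 else 0) + C0 l + (if l = m - 1 then e else 0)
        + (if l = m then c else 0) := ⟨_, rfl⟩
    have hCsum : ∑ k ∈ range (m + 1), C k * (w / t ^ k) = R1 + (e * t + c) * W' := by
      rw [hCdef, sum_range_succ]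
      simp only [if_true]
      rw [if_neg (by omega : ¬ m = 0), if_neg (by omega : ¬ m = 1),
        if_neg (by omega : ¬ m = m - 1), hC0m m le_rfl, hwm]
      have h1 : ∀ k ∈ range m, ((if k = 0 then 1 else 0) + (if k = 1 then 2 else 0) + C0 k
          + (if k = m - 1 then e else 0) + (if k = m then c else 0)) * (w / t ^ k)
          = (((if k = 0 then w else 0) + (if k = 1 then 2 * w1 else 0)) + C0 k * (w / t ^ k))
            + (if k = m - 1 then e * (t * W') else 0) := by
        intro k hk
        rw [mem_range] at hk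
        rw [if_neg (by omega : ¬ k = m)]
        have f0 : (if k = 0 then 1 else 0) * (w / t ^ k) = (if k = 0 then w else 0) := by
          by_cases h : k = 0
          · rw [if_pos h, if_pos h, h, pow_zero, Nat.div_one, one_mul]
          · rw [if_neg h, if_neg h, zero_mul]
        have f1 : (if k = 1 then 2 else 0) * (w / t ^ k) = (if k = 1 then 2 * w1 else 0) := by
          by_cases h : k = 1
          · rw [if_pos h, if_pos h, h, pow_one, hwt]
          · rw [if_neg h, if_neg h, zero_mul]
        have f2 : (if k = m - 1 then e else 0) * (w / t ^ k)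
            = (if k = m - 1 then e * (t * W') else 0) := by
          by_cases h : k = m - 1
          · rw [if_pos h, if_pos h, h, hwm1]
          · rw [if_neg h, if_neg h, zero_mul]
        rw [add_zero, Nat.add_mul, Nat.add_mul, Nat.add_mul, f0, f1, f2]
      rw [sum_congr rfl h1, sum_add_distrib, sum_add_distrib, sum_add_distrib, sum_ite_eq',
        sum_ite_eq', sum_ite_eq', if_pos (by rw [mem_range]; omega),
        if_pos (by rw [mem_range]; omega), if_pos (by rw [mem_range]; omega), hR1]
      ring
    have hCm : C m = c := by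
      rw [hCdef]
      simp only [if_true]
      rw [if_neg (by omega : ¬ m = 0), if_neg (by omega : ¬ m = 1),
        if_neg (by omega : ¬ m = m - 1), hC0m m le_rfl]
      omega
    have hC0' : C 0 = 1 := by
      rw [hCdef]
      simp only [if_true]
      rw [if_neg (by omega : ¬ 0 = 1), if_neg (by omega : ¬ 0 = m - 1),
        if_neg (by omega : ¬ 0 = m), hC00]
    have hC1 : C 1 ≤ 3 := by
      have h1 := hC0 1
      rw [if_neg (by omega : ¬ (2 ≤ 1 ∧ 1 ≤ m - 2 + 1))] at h1
      rw [hCdef]
      simp only [if_true]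
      rw [if_neg (by omega : ¬ 1 = 0), if_neg (by omega : ¬ 1 = m)]
      have h2 := hγ1 1
      by_cases h : (1 : ℕ) = m - 1
      · rw [if_neg (by omega : ¬ (1 ≤ 1 ∧ 1 ≤ m - 2))] at h1
        rw [if_pos h]
        omega
      · rw [if_neg h]
        split_ifs at h1 <;> omega
    -- the multipliers at the levels `2..m-1`
    have hCmid : ∀ l, 2 ≤ l → l ≤ m - 1 → C l ≤ γ l + 4 * γ (l - 1) := by
      intro l hl1 hl2
      have h1 := hC0 l
      rw [if_pos (⟨hl1, by omega⟩ : 2 ≤ l ∧ l ≤ m - 2 + 1)] at h1
      rw [hCdef]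
      simp only
      rw [if_neg (by omega : ¬ l = 0), if_neg (by omega : ¬ l = 1), if_neg (by omega : ¬ l = m)]
      by_cases h : l = m - 1
      · rw [if_neg (by omega : ¬ (1 ≤ l ∧ l ≤ m - 2))] at h1
        rw [if_pos h]
        have h2 : e ≤ γ l := by
          rcases Nat.eq_zero_or_pos (γ l) with h3 | h3
          · rw [h] at h3
            rw [(hγe h3).1]
            exact Nat.zero_le _
          · omega
        omega
      · rw [if_neg h]
        split_ifs at h1 <;> omega
    have hC5 : ∀ l, 2 ≤ l → l ≤ m → C l ≤ 5 := by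
      intro l hl1 hl2
      rcases Nat.lt_or_ge l m with h | h
      · have h1 := hCmid l hl1 (by omega)
        have h2 := hγ1 l
        have h3 := hγ1 (l - 1)
        omega
      · have : l = m := by omega
        rw [this, hCm]
        exact hc5
    have hC2 : ∑ l ∈ range (m + 1), C l * t ^ (m - l) < 2 * t ^ m := by
      have h1 := ea_geom t ht C m hC5 hC1 hC0' hm
      have h2 : t ^ m = t * t ^ (m - 1) := by
        rw [← pow_succ']
        congr 1
        omega
      have h3 : 6 * t ^ (m - 1) ≤ t * t ^ (m - 1) := Nat.mul_le_mul_right _ ht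
      omega
    refine ⟨C, γ, hC0', by rw [hCm]; exact hcD, hγ0, hγ1, hγm, hS, ?_, hC2, ?_⟩
    · intro l hl1 hl2
      rcases Nat.lt_or_ge l 2 with h | h
      · have : l = 1 := by omega
        rw [this, hd10]
        omega
      · by_cases hg : γ (l - 1) = 1
        · have h1 := hd2 (l - 1) (by omega) hg
          rw [show l - 1 + 1 = l by omega] at h1
          rw [h1]
          have := hC5 l h hl2
          omega
        · have hg0 : γ (l - 1) = 0 := by
            have := hγ1 (l - 1)
            omega
          rcases Nat.lt_or_ge l m with h2 | h2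
          · have h3 := hCmid l h (by omega)
            rw [hg0] at h3
            rcases Nat.eq_zero_or_pos (γ l) with h4 | h4
            · omega
            · have h5 := hd1 l (by omega) h2 (by have := hγ1 l; omega)
              have := hγ1 l
              omega
          · have h3 : l = m := by omega
            subst h3
            rw [hCm, (hγe hg0).2]
            exact hdm
    · intro l hl hgl
      rw [hCsum]
      rcases Nat.eq_zero_or_pos l with h0 | h0
      · subst h0
        have h1 := ea_total t m w (by omega) C ((pow_dvd_pow t (by omega)).trans hw) hw0 hC2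
        rw [hCsum] at h1
        have h2 : t ^ n ≤ R1 + (e * t + c) * W' := by
          rw [hR1]
          omega
        rw [Nat.sub_zero]
        have h3 : (R1 + (e * t + c) * W') / t ^ n < 3 := by
          rw [Nat.div_lt_iff_lt_mul hT]
          omega
        have h4 : 1 ≤ (R1 + (e * t + c) * W') / t ^ n := by
          rw [Nat.one_le_div_iff hT]
          exact h2
        rw [Nat.mod_eq_of_lt (by omega)]
        exact h4
      · rcases Nat.lt_or_ge l (m - 1) with h1 | h1
        · exact hpres l h0 (by omega) hgl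
        · have h2 : l = m - 1 := by omega
          rw [h2, hU]
          rw [h2] at hgl
          exact hdig hgl

end Pool.Agent.H54.Afa
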