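import Mathlib
import Pool.Agent.H54.Afa.EJA

set_option autoImplicit false

namespace Pool.Agent.H54.Afa

open Finset

/-- a block of zero digits -/
theorem jl_zero (t n S J m : ℕ) (ht : 2 ≤ t) (hmn : m ≤ n)
    (hz : ∀ l, J < l → l ≤ m → S / t ^ (n - l) % t = 0) :
    ∀ k, J ≤ k → k ≤ m → S % t ^ (n - J) < t ^ (n - k) := by
  intro k hk
  induction k, hk using Nat.le_induction with
  | base =>
    intro _
    exact Nat.mod_lt _ (Nat.pow_pos (by omega))
  | succ k hk ih =>
    intro hkm
    have h1 := ih (by omega)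
    have h2 := hz (k + 1) (by omega) hkm
    have hu : 0 < t ^ (n - (k + 1)) := Nat.pow_pos (by omega)
    have h3 : t ^ (n - J) = t ^ (n - (k + 1)) * (t * t ^ (k - J)) := by
      rw [← pow_succ', ← _root_.pow_add]
      congr 1
      omega
    have h4 : t ^ (n - k) = t ^ (n - (k + 1)) * t := by
      rw [← pow_succ]
      congr 1
      omega
    have h5 : S / t ^ (n - (k + 1)) % t = S % t ^ (n - J) / t ^ (n - (k + 1)) % t := by
      conv_lhs => rw [← Nat.div_add_mod S (t ^ (n - J))]
      rw [h3, mul_assoc (t ^ (n - (k + 1))), Nat.mul_add_div hu, mul_assoc t,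
        Nat.mul_add_mod]
    rw [h5] at h2
    have h6 : S % t ^ (n - J) / t ^ (n - (k + 1)) < t := by
      rw [Nat.div_lt_iff_lt_mul hu, mul_comm, ← h4]
      exact h1
    rw [Nat.mod_eq_of_lt h6] at h2
    exact (Nat.div_eq_zero_iff_lt hu).mp h2

/-- the loop of the engine -/
theorem jl_loop (t n m α κ : ℕ) (ht : 6 ≤ t) (hmn : m < n) (hα : t ^ m ∣ α)
    (hαT : α < t ^ n) (hα1 : (t - 1) * t ^ n < t * α) :
    ∀ N J : ℕ, m - J ≤ N → 1 ≤ J → J ≤ m → ∀ γ : ℕ → ℕ, γ 0 = 1 → (∀ l, γ l ≤ 1) →
      (∀ l, J ≤ l → γ l = 0) → κ + ∑ k ∈ range m, γ k * (α / t ^ k) < t ^ n →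
      (∀ l, 1 ≤ l → l < m → γ l = 1 →
        1 ≤ (κ + ∑ k ∈ range m, γ k * (α / t ^ k)) / t ^ (n - l) % t) →
      (∀ l, l < m → γ l = 1 →
        (κ + ∑ k ∈ range m, γ k * (α / t ^ k)) / t ^ (n - (l + 1)) % t = t - 1) →
      (κ + ∑ k ∈ range m, γ k * (α / t ^ k)) / t ^ (n - J) % t = t - 1 →
      ∃ γ : ℕ → ℕ, γ 0 = 1 ∧ (∀ l, γ l ≤ 1) ∧ (∀ l, m ≤ l → γ l = 0) ∧
        κ + ∑ k ∈ range m, γ k * (α / t ^ k) < t ^ n ∧
        (∀ l, 1 ≤ l → l < m → γ l = 1 →
          1 ≤ (κ + ∑ k ∈ range m, γ k * (α / t ^ k)) / t ^ (n - l) % t) ∧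
        (∀ l, l < m → γ l = 1 →
          (κ + ∑ k ∈ range m, γ k * (α / t ^ k)) / t ^ (n - (l + 1)) % t = t - 1) ∧
        (1 ≤ (κ + ∑ k ∈ range m, γ k * (α / t ^ k)) / t ^ (n - m) % t ∨
          ∃ J, 1 ≤ J ∧ J < m ∧ (∀ l, J ≤ l → γ l = 0) ∧
            1 ≤ (κ + ∑ k ∈ range m, γ k * (α / t ^ k)) / t ^ (n - J) % t ∧
            (κ + ∑ k ∈ range m, γ k * (α / t ^ k)) % t ^ (n - J) < t ^ (n - m) ∧
            (t ^ n - α) / t ^ J ≤ (κ + ∑ k ∈ range m, γ k * (α / t ^ k)) % t ^ (n - J)) := by
  have htpos : 0 < t := by omega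
  intro N
  induction N with
  | zero =>
    intro J h1 h2 h3 γ g0 g1 g2 hS d1 d2 d3
    have hJ : J = m := by omega
    subst hJ
    exact ⟨γ, g0, g1, g2, hS, d1, d2, Or.inl (by rw [d3]; omega)⟩
  | succ N ih =>
    intro J h1 h2 h3 γ g0 g1 g2 hS d1 d2 d3
    obtain ⟨S, hSdef⟩ : ∃ S, S = κ + ∑ k ∈ range m, γ k * (α / t ^ k) := ⟨_, rfl⟩
    rw [← hSdef] at hS d1 d2 d3
    by_cases hdm : 1 ≤ S / t ^ (n - m) % t
    · refine ⟨γ, g0, g1, fun l hl => g2 l (by omega), ?_, ?_, ?_, Or.inl ?_⟩
      all_goals rw [← hSdef]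
      · exact hS
      · exact d1
      · exact d2
      · exact hdm
    -- the last nonzero level
    classical
    obtain ⟨J', hJ'⟩ : ∃ J', J' = Nat.findGreatest (fun l => S / t ^ (n - l) % t ≠ 0) m :=
      ⟨_, rfl⟩
    have hne : S / t ^ (n - J') % t ≠ 0 := by
      rw [hJ']
      exact Nat.findGreatest_spec (P := fun l => S / t ^ (n - l) % t ≠ 0) h3 (by rw [d3]; omega)
    have hJJ' : J ≤ J' := by
      rw [hJ']
      exact Nat.le_findGreatest h3 (by rw [d3]; omega)
    have hJ'm0 : J' ≤ m := by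
      rw [hJ']
      exact Nat.findGreatest_le m
    have hJ'm : J' < m := by
      rcases Nat.lt_or_ge J' m with h | h
      · exact h
      · have : J' = m := by omega
        rw [this] at hne
        omega
    have hzero : ∀ l, J' < l → l ≤ m → S / t ^ (n - l) % t = 0 := by
      intro l hl1 hl2
      by_contra h
      have := Nat.le_findGreatest (P := fun l => S / t ^ (n - l) % t ≠ 0) hl2 h
      omega
    have hsmall := jl_zero t n S J' m (by omega) (by omega) hzero m (by omega) le_rfl
    by_cases hB : (t ^ n - α) / t ^ J' ≤ S % t ^ (n - J')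
    · refine ⟨γ, g0, g1, fun l hl => g2 l (by omega), ?_, ?_, ?_, Or.inr
        ⟨J', by omega, hJ'm, fun l hl => g2 l (by omega), ?_, ?_, ?_⟩⟩
      all_goals rw [← hSdef]
      · exact hS
      · exact d1
      · exact d2
      · omega
      · exact hsmall
      · exact hB
    -- one more summand
    push Not at hB
    obtain ⟨u, hu⟩ : ∃ u, u = t ^ (n - (J' + 1)) := ⟨_, rfl⟩
    have hu0 : 0 < u := by rw [hu]; exact Nat.pow_pos htpos
    have hU : t ^ (n - J') = t * u := by
      rw [hu, ← pow_succ']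
      congr 1
      omega
    have hUpos : 0 < t * u := Nat.mul_pos htpos hu0
    have hT : t ^ n = t ^ J' * (t * u) := by
      rw [← hU, ← _root_.pow_add]
      congr 1
      omega
    obtain ⟨a, ha⟩ : ∃ a, α = t ^ J' * a := (pow_dvd_pow t (by omega)).trans hα
    have htJ : 0 < t ^ J' := Nat.pow_pos htpos
    have haq : α / t ^ J' = a := by
      rw [ha]
      exact Nat.mul_div_cancel_left _ htJ
    have hnu : (t ^ n - α) / t ^ J' = t * u - a := by
      rw [hT, ha, ← Nat.mul_sub]
      exact Nat.mul_div_cancel_left _ htJ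
    have haU : a < t * u := by
      rw [hT, ha] at hαT
      exact Nat.lt_of_mul_lt_mul_left hαT
    have hau : t * u < u + a := by
      have h4 : t ^ J' * ((t - 1) * (t * u)) < t ^ J' * (t * a) := by
        calc _ = (t - 1) * (t ^ J' * (t * u)) := by ring
          _ = (t - 1) * t ^ n := by rw [← hT]
          _ < t * α := hα1
          _ = _ := by rw [ha]; ring
      have h5 := Nat.lt_of_mul_lt_mul_left h4
      have h6 : t * ((t - 1) * u) < t * a := by
        calc _ = (t - 1) * (t * u) := by ring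
          _ < _ := h5
      have h7 := Nat.lt_of_mul_lt_mul_left h6
      have h8 : (t - 1) * u + u = t * u := by
        rw [← Nat.succ_mul]
        congr 1
        omega
      omega
    rw [hnu, hU] at hB
    have hne' := hne
    rw [hU] at hne'
    -- the new sum
    obtain ⟨γ', hγ'⟩ : ∃ γ' : ℕ → ℕ, γ' = fun l => if l = J' then 1 else γ l := ⟨_, rfl⟩
    have hnew : κ + ∑ k ∈ range m, γ' k * (α / t ^ k) = S + a := by
      have h4 : ∀ k ∈ range m, γ' k * (α / t ^ k)
          = γ k * (α / t ^ k) + (if k = J' then a else 0) := by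
        intro k _
        rw [hγ']
        by_cases h : k = J'
        · simp only [h, if_true]
          rw [g2 J' hJJ', haq]
          ring
        · simp only [h, if_false]
          ring
      rw [sum_congr rfl h4, sum_add_distrib, sum_ite_eq', if_pos (by rw [mem_range]; exact hJ'm),
        hSdef]
      ring
    have hdecomp := Nat.div_add_mod S (t * u)
    have hqU : (S + a) / (t * u) = S / (t * u) := by
      have := ct_add S (t * u) a 0 hUpos (by omega) (by omega)
      rw [this]
      rfl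
    have hmodU : (S + a) % (t * u) = S % (t * u) + a := by
      have h4 := Nat.div_add_mod (S + a) (t * u)
      rw [hqU] at h4
      omega
    -- old digits
    have hold : ∀ l, l ≤ J' → (S + a) / t ^ (n - l) = S / t ^ (n - l) := by
      intro l hl
      have h4 : t ^ (n - l) = (t * u) * t ^ (J' - l) := by
        rw [← hU, ← _root_.pow_add]
        congr 1
        omega
      rw [h4, ← Nat.div_div_eq_div_mul (S + a) (t * u), ← Nat.div_div_eq_div_mul S (t * u), hqU]
    -- new digit
    have hnewd : (S + a) / t ^ (n - (J' + 1)) % t = t - 1 := by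
      rw [← hu]
      have h4 : S + a = u * (t * (S / (t * u)) + (t - 1)) + (S % (t * u) + a - (t - 1) * u) := by
        have h5 : u * (t * (S / (t * u)) + (t - 1)) = t * u * (S / (t * u)) + (t - 1) * u := by
          ring
        have h8 : (t - 1) * u + u = t * u := by
          rw [← Nat.succ_mul]
          congr 1
          omega
        omega
      have h6 : (t - 1) * u + u = t * u := by
        rw [← Nat.succ_mul]
        congr 1
        omega
      have h9 : (S % (t * u) + a - (t - 1) * u) / u = 0 := Nat.div_eq_of_lt (by omega)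
      have h7 : (S + a) / u = t * (S / (t * u)) + (t - 1) := by
        conv_lhs => rw [h4]
        rw [Nat.mul_add_div hu0, h9, Nat.add_zero]
      rw [h7, Nat.mul_add_mod, Nat.mod_eq_of_lt (by omega)]
    refine ih (J' + 1) (by omega) (by omega) (by omega) γ' ?_ ?_ ?_ ?_ ?_ ?_ ?_
    · rw [hγ']
      simp only
      rw [if_neg (by omega)]
      exact g0
    · intro l
      rw [hγ']
      by_cases h : l = J'
      · simp [h]
      · simp only [h, if_false]
        exact g1 l
    · intro l hl
      rw [hγ']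
      simp only
      rw [if_neg (by omega)]
      exact g2 l (by omega)
    · rw [hnew]
      have h4 : S / (t * u) < t ^ J' := by
        rw [Nat.div_lt_iff_lt_mul hUpos, ← hT]
        exact hS
      rw [← hqU, Nat.div_lt_iff_lt_mul hUpos, ← hT] at h4
      exact h4
    · intro l hl1 hl2 hgl
      rw [hnew]
      by_cases h : l = J'
      · rw [h, hold J' le_rfl]
        omega
      · have h5 : γ l = 1 := by
          rw [hγ'] at hgl
          simpa [h] using hgl
        have h6 : l < J := by
          by_contra hc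
          rw [g2 l (by omega)] at h5
          omega
        rw [hold l (by omega)]
        exact d1 l hl1 hl2 h5
    · intro l hl1 hgl
      rw [hnew]
      by_cases h : l = J'
      · rw [h]
        exact hnewd
      · have h5 : γ l = 1 := by
          rw [hγ'] at hgl
          simpa [h] using hgl
        have h6 : l < J := by
          by_contra hc
          rw [g2 l (by omega)] at h5
          omega
        rw [hold (l + 1) (by omega)]
        exact d2 l hl1 h5
    · rw [hnew]
      exact hnewd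

/-- the loop of the engine, with its start -/
theorem J_loop (t n m α κ : ℕ) (ht : 6 ≤ t) (hm : 1 ≤ m) (hmn : m < n) (hα : t ^ m ∣ α)
    (hαT : α < t ^ n) (hα1 : (t - 1) * t ^ n < t * α) (hκ : t ^ m * κ ≤ 3 * (t ^ n - α)) :
    ∃ γ : ℕ → ℕ, γ 0 = 1 ∧ (∀ l, γ l ≤ 1) ∧ (∀ l, m ≤ l → γ l = 0) ∧
        κ + ∑ k ∈ range m, γ k * (α / t ^ k) < t ^ n ∧
        (∀ l, 1 ≤ l → l < m → γ l = 1 →
          1 ≤ (κ + ∑ k ∈ range m, γ k * (α / t ^ k)) / t ^ (n - l) % t) ∧
        (∀ l, l < m → γ l = 1 →
          (κ + ∑ k ∈ range m, γ k * (α / t ^ k)) / t ^ (n - (l + 1)) % t = t - 1) ∧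
        (1 ≤ (κ + ∑ k ∈ range m, γ k * (α / t ^ k)) / t ^ (n - m) % t ∨
          ∃ J, 1 ≤ J ∧ J < m ∧ (∀ l, J ≤ l → γ l = 0) ∧
            1 ≤ (κ + ∑ k ∈ range m, γ k * (α / t ^ k)) / t ^ (n - J) % t ∧
            (κ + ∑ k ∈ range m, γ k * (α / t ^ k)) % t ^ (n - J) < t ^ (n - m) ∧
            (t ^ n - α) / t ^ J ≤ (κ + ∑ k ∈ range m, γ k * (α / t ^ k)) % t ^ (n - J)) := by
  have htpos : 0 < t := by omega
  have hκ' : κ < t ^ n - α := by
    have h1 : 6 * κ ≤ t ^ m * κ := by
      apply Nat.mul_le_mul_right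
      calc 6 ≤ t := ht
        _ = t ^ 1 := (pow_one t).symm
        _ ≤ t ^ m := Nat.pow_le_pow_right htpos hm
    omega
  have hsum : κ + ∑ k ∈ range m, (fun l => if l = 0 then 1 else 0) k * (α / t ^ k) = κ + α := by
    congr 1
    have h1 : ∀ k ∈ range m, (fun l => if l = 0 then 1 else 0) k * (α / t ^ k)
        = if k = 0 then α else 0 := by
      intro k _
      by_cases h : k = 0
      · simp [h]
      · simp [h]
    rw [sum_congr rfl h1, sum_ite_eq', if_pos (by rw [mem_range]; omega)]
  have hd : (κ + α) / t ^ (n - 1) % t = t - 1 := by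
    have hu : 0 < t ^ (n - 1) := Nat.pow_pos htpos
    have hT : t ^ n = t * t ^ (n - 1) := by
      rw [← pow_succ']
      congr 1
      omega
    have h1 : (t - 1) * t ^ (n - 1) < α := by
      have h2 : t * ((t - 1) * t ^ (n - 1)) < t * α := by
        calc _ = (t - 1) * (t * t ^ (n - 1)) := by ring
          _ = (t - 1) * t ^ n := by rw [← hT]
          _ < _ := hα1
      exact Nat.lt_of_mul_lt_mul_left h2
    have h2 : (κ + α) / t ^ (n - 1) < t := by
      rw [Nat.div_lt_iff_lt_mul hu, ← hT]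
      omega
    have h3 : t - 1 ≤ (κ + α) / t ^ (n - 1) := by
      rw [Nat.le_div_iff_mul_le hu]
      omega
    rw [Nat.mod_eq_of_lt h2]
    omega
  refine jl_loop t n m α κ ht hmn hα hαT hα1 (m - 1) 1 le_rfl le_rfl hm
    (fun l => if l = 0 then 1 else 0) (by simp) ?_ ?_ ?_ ?_ ?_ ?_
  · intro l
    by_cases h : l = 0
    · simp [h]
    · simp [h]
  · intro l hl
    exact if_neg (by omega)
  · rw [hsum]
    omega
  · intro l hl1 hl2 hgl
    have h : (if l = 0 then 1 else 0) = 1 := hgl
    rw [if_neg (by omega)] at h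
    omega
  · intro l hl1 hgl
    rw [hsum]
    have h : l = 0 := by
      by_contra hc
      have h' : (if l = 0 then 1 else 0) = 1 := hgl
      rw [if_neg hc] at h'
      omega
    rw [h]
    exact hd
  · rw [hsum]
    exact hd

end Pool.Agent.H54.Afa
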