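import Mathlib
import Pool.Agent.H54.Afa.EJLoopX

set_option autoImplicit false

namespace Pool.Agent.H54.Afa

open Finset

/-- the B ending of the engine -/
theorem B_end (t n m α w κ κB J : ℕ) (ht : 6 ≤ t) (hmn : m < n) (hα : t ^ m ∣ α)
    (hαT : α < t ^ n) (hw : t ^ (m + 1) ∣ w) (hw1 : (t - 1) * t ^ n < t * w)
    (hw2 : (t - 1) * w ≤ t * t ^ n) (hαw : α ≤ w)
    (hκ : t ^ m * κ ≤ 3 * (t ^ n - α)) (hκB : κB < t ^ (n - m))
    (γ : ℕ → ℕ) (hγ0 : γ 0 = 1) (hγ1 : ∀ l, γ l ≤ 1)
    (hJ1 : 1 ≤ J) (hJm : J < m) (hγJ : ∀ l, J ≤ l → γ l = 0)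
    (hS : κ + ∑ k ∈ range m, γ k * (α / t ^ k) < t ^ n)
    (hd1 : ∀ l, 1 ≤ l → l < m → γ l = 1 →
      1 ≤ (κ + ∑ k ∈ range m, γ k * (α / t ^ k)) / t ^ (n - l) % t)
    (hd2 : ∀ l, l < m → γ l = 1 →
      (κ + ∑ k ∈ range m, γ k * (α / t ^ k)) / t ^ (n - (l + 1)) % t = t - 1)
    (hdJ : 1 ≤ (κ + ∑ k ∈ range m, γ k * (α / t ^ k)) / t ^ (n - J) % t)
    (hsm : (κ + ∑ k ∈ range m, γ k * (α / t ^ k)) % t ^ (n - J) < t ^ (n - m))
    (hnu : (t ^ n - α) / t ^ J ≤ (κ + ∑ k ∈ range m, γ k * (α / t ^ k)) % t ^ (n - J)) :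
    OutB t n m α w κB := by
  have htpos : 0 < t := by omega
  obtain ⟨S, hSdef⟩ : ∃ S, S = κ + ∑ k ∈ range m, γ k * (α / t ^ k) := ⟨_, rfl⟩
  rw [← hSdef] at hS hd1 hd2 hdJ hsm hnu
  obtain ⟨u, hu⟩ : ∃ u, u = t ^ (n - m) := ⟨_, rfl⟩
  have hu0 : 0 < u := by rw [hu]; exact Nat.pow_pos htpos
  have hT : t ^ n = t ^ m * u := by
    rw [hu, ← _root_.pow_add]
    congr 1
    omega
  have htm : 0 < t ^ m := Nat.pow_pos htpos
  obtain ⟨a, ha⟩ := hα
  have haq : α / t ^ m = a := by
    rw [ha]
    exact Nat.mul_div_cancel_left _ htm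
  have hau : a < u := by
    rw [hT, ha] at hαT
    exact Nat.lt_of_mul_lt_mul_left hαT
  -- powers
  obtain ⟨p, hp⟩ : ∃ p, p = t ^ (m - J - 1) := ⟨_, rfl⟩
  have hp0 : 0 < p := by rw [hp]; exact Nat.pow_pos htpos
  have hmJ : t ^ (m - J) = t * p := by
    rw [hp, ← pow_succ']
    congr 1
    omega
  have hnJ : t ^ (n - J) = t * p * u := by
    rw [← hmJ, hu, ← _root_.pow_add]
    congr 1
    omega
  have hTJ : t ^ n = t ^ J * (t * p * u) := by
    rw [← hnJ, ← _root_.pow_add]
    congr 1
    omega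
  have htJ : 0 < t ^ J := Nat.pow_pos htpos
  have htmJ : t ^ m = t ^ J * (t * p) := by
    rw [← hmJ, ← _root_.pow_add]
    congr 1
    omega
  have hpu : u ≤ p * u := Nat.le_mul_of_pos_left u hp0
  have h6pu : 6 * (p * u) ≤ t * p * u := by
    rw [mul_assoc]
    exact Nat.mul_le_mul_right _ ht
  have hnuq : (t ^ n - α) / t ^ J = t * p * (u - a) := by
    have h1 : t ^ n - α = t ^ J * (t * p * (u - a)) := by
      rw [hT, ha, ← Nat.mul_sub, htmJ]
      ring
    rw [h1]
    exact Nat.mul_div_cancel_left _ htJ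
  have hκ3 : κ ≤ 3 * (u - a) := by
    have h1 : t ^ m * κ ≤ t ^ m * (3 * (u - a)) := by
      calc t ^ m * κ ≤ 3 * (t ^ n - α) := hκ
        _ = 3 * (t ^ m * (u - a)) := by rw [hT, ha, ← Nat.mul_sub]
        _ = _ := by ring
    exact Nat.le_of_mul_le_mul_left h1 htm
  rw [hnuq, hnJ] at hnu
  rw [hnJ] at hsm
  rw [← hu] at hsm hκB
  have h6 : 6 * (u - a) ≤ t * p * (u - a) := by
    apply Nat.mul_le_mul_right
    calc 6 ≤ t := ht
      _ = t * 1 := (mul_one t).symm
      _ ≤ t * p := Nat.mul_le_mul_left _ hp0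
  -- the sum on the other side
  obtain ⟨γ', hγ'⟩ : ∃ γ' : ℕ → ℕ, γ' = fun l => if l = m then 1 else γ l := ⟨_, rfl⟩
  have hγ'm : γ' m = 1 := by rw [hγ']; simp
  have hγ'l : ∀ l, l < m → γ' l = γ l := by
    intro l hl
    rw [hγ']
    exact if_neg (by omega)
  have hSB : ∑ l ∈ range (m + 1), γ' l * (α / t ^ l) + κ = S + a := by
    rw [sum_range_succ, hγ'm, haq, one_mul]
    have h1 : ∑ l ∈ range m, γ' l * (α / t ^ l) = ∑ l ∈ range m, γ l * (α / t ^ l) := by
      apply sum_congr rfl
      intro l hl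
      rw [mem_range] at hl
      rw [hγ'l l hl]
    rw [h1, hSdef]
    ring
  obtain ⟨SB, hSBdef⟩ : ∃ SB, SB = ∑ l ∈ range (m + 1), γ' l * (α / t ^ l) := ⟨_, rfl⟩
  rw [← hSBdef] at hSB
  have hSdec := Nat.div_add_mod S (t * p * u)
  have hSBdec : SB = t * p * u * (S / (t * p * u)) + (u + (S % (t * p * u) - κ - (u - a))) := by
    omega
  have hSBq : SB / (t * p * u) = S / (t * p * u) := by
    have h1 : (t * p * u * (S / (t * p * u)) + (u + (S % (t * p * u) - κ - (u - a))))
        / (t * p * u) = S / (t * p * u)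
          + (u + (S % (t * p * u) - κ - (u - a))) / (t * p * u) :=
      Nat.mul_add_div (by positivity) _ _
    have h2 : (u + (S % (t * p * u) - κ - (u - a))) / (t * p * u) = 0 :=
      Nat.div_eq_of_lt (by omega)
    conv_lhs => rw [hSBdec]
    rw [h1, h2, Nat.add_zero]
  have hSBT : SB < t ^ n := by
    have h4 : S / (t * p * u) < t ^ J := by
      rw [Nat.div_lt_iff_lt_mul (by positivity), ← hTJ]
      exact hS
    rw [← hSBq, Nat.div_lt_iff_lt_mul (by positivity), ← hTJ] at h4
    exact h4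
  have hSBold : ∀ l, l ≤ J → SB / t ^ (n - l) = S / t ^ (n - l) := by
    intro l hl
    have h4 : t ^ (n - l) = (t * p * u) * t ^ (J - l) := by
      rw [← hnJ, ← _root_.pow_add]
      congr 1
      omega
    rw [h4, ← Nat.div_div_eq_div_mul SB, ← Nat.div_div_eq_div_mul S, hSBq]
  have hSBm : SB / t ^ (n - m) % t = 1 := by
    rw [← hu]
    have h1 : SB = u * (t * (p * (S / (t * p * u))) + 1) + (S % (t * p * u) - κ - (u - a)) := by
      have h2 : u * (t * (p * (S / (t * p * u))) + 1) = t * p * u * (S / (t * p * u)) + u := by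
        ring
      omega
    have h3 : (S % (t * p * u) - κ - (u - a)) / u = 0 := Nat.div_eq_of_lt (by omega)
    have h4 : SB / u = t * (p * (S / (t * p * u))) + 1 := by
      conv_lhs => rw [h1]
      rw [Nat.mul_add_div hu0, h3, Nat.add_zero]
    rw [h4, Nat.mul_add_mod, Nat.mod_eq_of_lt (by omega)]
  -- the quotients of `w`
  obtain ⟨W', hW'⟩ : ∃ W', w = t ^ m * W' := (pow_dvd_pow t (by omega)).trans hw
  have hwl : ∀ l, l ≤ m → w / t ^ l = t ^ (m - l) * W' := by
    intro l hl
    have h1 : t ^ m = t ^ l * t ^ (m - l) := by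
      rw [← _root_.pow_add]
      congr 1
      omega
    rw [hW', h1, mul_assoc]
    exact Nat.mul_div_cancel_left _ (Nat.pow_pos htpos)
  have haW : a ≤ W' := by
    rw [ha, hW'] at hαw
    exact Nat.le_of_mul_le_mul_left hαw htm
  have hW5 : 5 * W' ≤ 6 * u := by
    have h1 : (t - 1) * W' ≤ t * u := by
      have : t ^ m * ((t - 1) * W') ≤ t ^ m * (t * u) := by
        calc _ = (t - 1) * (t ^ m * W') := by ring
          _ = (t - 1) * w := by rw [← hW']
          _ ≤ t * t ^ n := hw2
          _ = _ := by rw [hT]; ring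
      exact Nat.le_of_mul_le_mul_left this htm
    obtain ⟨s, rfl⟩ : ∃ s, t = s + 6 := ⟨t - 6, by omega⟩
    have e1 : s + 6 - 1 = s + 5 := by omega
    rw [e1] at h1
    nlinarith
  -- content
  obtain ⟨C0, hC0, hP⟩ := ct_content t n (J - 1) w κB ht (by omega)
    ((pow_dvd_pow t (by omega)).trans hw) hw1 hw2 γ hγ1
  have e2 : J - 1 + 2 = J + 1 := by omega
  have e3 : n - (J - 1) - 1 = n - J := by omega
  have e4 : J - 1 + 1 = J := by omega
  rw [e2, e3, hnJ] at hP
  rw [e4] at hC0
  obtain ⟨R1, hR1⟩ : ∃ R1, R1 = κB + ∑ k ∈ range (J + 1), C0 k * (w / t ^ k) := ⟨_, rfl⟩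
  rw [← hR1] at hP
  have hC00 : C0 0 = 0 := by
    have := hC0 0
    rw [if_neg (by omega), if_neg (by omega)] at this
    omega
  have hC0J : ∀ l, J < l → C0 l = 0 := by
    intro l hl
    have := hC0 l
    rw [if_neg (by omega), if_neg (by omega)] at this
    omega
  have hC0b : ∀ l, 2 ≤ l → l < J → C0 l ≤ γ l + 4 * γ (l - 1) := by
    intro l h1 h2
    have := hC0 l
    rw [if_pos ⟨by omega, by omega⟩, if_pos ⟨h1, by omega⟩] at this
    exact this
  have hC0Jb : 2 ≤ J → C0 J ≤ 4 * γ (J - 1) := by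
    intro h1
    have := hC0 J
    rw [if_neg (by omega), if_pos ⟨h1, le_rfl⟩] at this
    omega
  have hC01 : C0 1 ≤ (if 1 < J then γ 1 else 0) := by
    have := hC0 1
    rw [if_neg (by omega : ¬ (2 ≤ 1 ∧ 1 ≤ J))] at this
    split_ifs at this ⊢ <;> omega
  -- the general end
  have hend : ∀ (eJ em : ℕ), eJ ≤ 1 → em ≤ 1 →
      1 ≤ (R1 + (eJ * (t * p) + em) * W') / u % t →
      (eJ * (t * p) + em) * W' ≤ 2 * (t * p * u) → OutB t n m α w κB := by
    intro eJ em heJ hem hdig hle
    obtain ⟨C, hC⟩ : ∃ C : ℕ → ℕ, C = fun l => C0 l + (if l = J then eJ else 0)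
        + (if l = m then em else 0) := ⟨_, rfl⟩
    have hCm : C m = em := by
      rw [hC]
      simp only [if_true]
      rw [if_neg (by omega : ¬ m = J), hC0J m hJm]
      omega
    have hCJ : C J = C0 J + eJ := by
      rw [hC]
      simp only [if_true]
      rw [if_neg (by omega : ¬ J = m)]
      omega
    have hCl : ∀ l, l ≠ J → l ≠ m → C l = C0 l := by
      intro l h1 h2
      rw [hC]
      simp only
      rw [if_neg h1, if_neg h2]
      omega
    have hsumC : κB + ∑ l ∈ Icc 1 m, C l * (w / t ^ l) = R1 + (eJ * (t * p) + em) * W' := by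
      have h1 : range (m + 1) = insert 0 (Icc 1 m) := by
        ext l
        rw [mem_range, mem_insert, mem_Icc]
        omega
      have h2 : ∑ l ∈ range (m + 1), C l * (w / t ^ l) = ∑ l ∈ Icc 1 m, C l * (w / t ^ l) := by
        rw [h1, sum_insert (by rw [mem_Icc]; omega), hCl 0 (by omega) (by omega), hC00, zero_mul,
          zero_add]
      rw [← h2]
      have h3 : ∀ k ∈ range (m + 1), C k * (w / t ^ k) = C0 k * (w / t ^ k)
          + (if k = J then eJ * (t * p * W') else 0) + (if k = m then em * W' else 0) := by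
        intro k _
        by_cases hkJ : k = J
        · rw [hkJ, if_pos rfl, if_neg (by omega), hCJ, hwl J (by omega), hmJ]
          ring
        · by_cases hkm : k = m
          · rw [hkm, if_neg (by omega), if_pos rfl, hCm, hC0J m hJm, hwl m le_rfl, Nat.sub_self]
            ring
          · rw [if_neg hkJ, if_neg hkm, hCl k hkJ hkm]
            ring
      rw [sum_congr rfl h3, sum_add_distrib, sum_add_distrib, sum_ite_eq', sum_ite_eq',
        if_pos (by rw [mem_range]; omega), if_pos (by rw [mem_range]; omega)]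
      have h4 : ∑ k ∈ range (m + 1), C0 k * (w / t ^ k)
          = ∑ k ∈ range (J + 1), C0 k * (w / t ^ k) := by
        symm
        apply sum_subset
        · intro k hk
          rw [mem_range] at hk ⊢
          omega
        · intro k _ hk
          rw [mem_range] at hk
          rw [hC0J k (by omega), zero_mul]
      rw [h4, hR1]
      ring
    have hC5 : ∀ l, 2 ≤ l → l ≤ m → C l ≤ 5 := by
      intro l h1 h2
      by_cases hlJ : l = J
      · rw [hlJ, hCJ]
        have h3 := hC0Jb (by omega)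
        have h4 := hγ1 (J - 1)
        omega
      · by_cases hlm : l = m
        · rw [hlm, hCm]
          omega
        · rw [hCl l hlJ hlm]
          rcases Nat.lt_or_ge l J with h3 | h3
          · have h4 := hC0b l h1 h3
            have h5 := hγ1 l
            have h6 := hγ1 (l - 1)
            omega
          · rw [hC0J l (by omega)]
            omega
    have hC1 : C 1 ≤ 1 := by
      by_cases h1J : 1 = J
      · rw [h1J, hCJ, ← h1J]
        rw [if_neg (by omega)] at hC01
        omega
      · rw [hCl 1 h1J (by omega)]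
        have := hγ1 1
        split_ifs at hC01 <;> omega
    -- total bound
    have hRT : R1 + (eJ * (t * p) + em) * W' < t ^ n := by
      rw [← hsumC]
      have h1 := ea_geom t ht (fun l => if l = 0 then 1 else C l) m
        (fun l h1 h2 => by
          have h3 : (if l = 0 then 1 else C l) = C l := if_neg (by omega)
          rw [h3]
          exact hC5 l h1 h2)
        (by
          have h3 : (if 1 = 0 then 1 else C 1) = C 1 := if_neg (by omega)
          rw [h3]
          omega) rfl (by omega)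
      have h2 : ∑ l ∈ range (m + 1), (fun l => if l = 0 then 1 else C l) l * t ^ (m - l)
          = t ^ m + ∑ l ∈ Icc 1 m, C l * t ^ (m - l) := by
        have h3 : range (m + 1) = insert 0 (Icc 1 m) := by
          ext l
          rw [mem_range, mem_insert, mem_Icc]
          omega
        rw [h3, sum_insert (by rw [mem_Icc]; omega)]
        congr 1
        · simp
        · apply sum_congr rfl
          intro l hl
          rw [mem_Icc] at hl
          have h3 : (fun l => if l = 0 then 1 else C l) l = C l := if_neg (by omega)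
          rw [h3]
      rw [h2] at h1
      have h3 : ∑ l ∈ Icc 1 m, C l * (w / t ^ l) = (∑ l ∈ Icc 1 m, C l * t ^ (m - l)) * W' := by
        rw [sum_mul]
        apply sum_congr rfl
        intro l hl
        rw [mem_Icc] at hl
        rw [hwl l hl.2]
        ring
      have h4 : t ^ m = t * t ^ (m - 1) := by
        rw [← pow_succ']
        congr 1
        omega
      have h5 : ∑ l ∈ Icc 1 m, C l * t ^ (m - l) ≤ 4 * t ^ (m - 1) := by omega
      have h6' : (∑ l ∈ Icc 1 m, C l * t ^ (m - l)) * W' ≤ 4 * t ^ (m - 1) * W' :=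
        Nat.mul_le_mul_right _ h5
      have h7 : 5 * (4 * t ^ (m - 1) * W') ≤ 24 * (t ^ (m - 1) * u) := by
        calc 5 * (4 * t ^ (m - 1) * W') = 4 * t ^ (m - 1) * (5 * W') := by ring
          _ ≤ 4 * t ^ (m - 1) * (6 * u) := Nat.mul_le_mul_left _ hW5
          _ = _ := by ring
      have h8 : 6 * (t ^ (m - 1) * u) ≤ t ^ n := by
        rw [hT, h4, mul_assoc]
        exact Nat.mul_le_mul_right _ ht
      have h9 : u ≤ t ^ (m - 1) * u := Nat.le_mul_of_pos_left u (Nat.pow_pos htpos)
      rw [h3]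
      omega
    refine ⟨C, γ', ?_, hγ'm, ?_, ?_, ?_, ?_, ?_⟩
    · rw [hγ'l 0 (by omega)]
      exact hγ0
    · intro l
      rw [hγ']
      by_cases h : l = m
      · simp [h]
      · simp only [h, if_false]
        exact hγ1 l
    · rw [← hSBdef]
      exact hSBT
    · intro l hl1 hl2
      rw [← hSBdef]
      by_cases hlm : l = m
      · rw [hlm, hSBm, hCm]
        exact hem
      rcases Nat.lt_or_ge J l with hJl | hJl
      · rw [hCl l (by omega) hlm, hC0J l hJl]
        exact Nat.zero_le _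
      rw [hSBold l hJl]
      rcases Nat.lt_or_ge l 2 with h2 | h2
      · have hl : l = 1 := by omega
        have h3 := hd2 0 (by omega) hγ0
        rw [zero_add] at h3
        rw [hl, h3]
        omega
      by_cases hg : γ (l - 1) = 1
      · have h3 := hd2 (l - 1) (by omega) hg
        rw [show l - 1 + 1 = l by omega] at h3
        rw [h3]
        have := hC5 l h2 hl2
        omega
      · have hg0 : γ (l - 1) = 0 := by
          have := hγ1 (l - 1)
          omega
        by_cases hlJ : l = J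
        · rw [hlJ, hCJ]
          rw [hlJ] at hg0 h2
          have h3 := hC0Jb h2
          rw [hg0] at h3
          omega
        · rw [hCl l hlJ hlm]
          have h3 := hC0b l h2 (by omega)
          rw [hg0] at h3
          rcases Nat.eq_zero_or_pos (γ l) with h4 | h4
          · omega
          · have h5 := hd1 l hl1 (by omega) (by have := hγ1 l; omega)
            have := hγ1 l
            omega
    · rw [hsumC]
      exact hRT
    · intro l hl1 hl2
      rw [hsumC]
      by_cases hlm : l = m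
      · rw [hlm, hγ'm, ← hu]
        exact hdig
      · rw [hγ'l l (by omega)]
        rcases Nat.eq_zero_or_pos (γ l) with h4 | h4
        · rw [h4]
          exact Nat.zero_le _
        · have h5 : γ l = 1 := by have := hγ1 l; omega
          have h6' : l < J := by
            by_contra hc
            rw [hγJ l (by omega)] at h5
            omega
          rw [h5]
          exact hP _ hle l hl1 (by omega) h5
  -- the three cases
  have htu : t * u ≤ t * p * u := by
    rw [mul_assoc]
    exact Nat.mul_le_mul_left _ hpu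
  have h6u : 6 * u ≤ t * u := Nat.mul_le_mul_right _ ht
  by_cases c1 : 1 ≤ R1 / u % t
  · refine hend 0 0 (by omega) (by omega) ?_ ?_
    · have : (0 * (t * p) + 0) * W' = 0 := by ring
      rw [this, Nat.add_zero]
      exact c1
    · have : (0 * (t * p) + 0) * W' = 0 := by ring
      rw [this]
      exact Nat.zero_le _
  by_cases c2 : 1 ≤ (R1 + W') / u % t
  · have e0 : (0 * (t * p) + 1) * W' = W' := by ring
    refine hend 0 1 (by omega) le_rfl ?_ ?_
    · rw [e0]
      exact c2
    · rw [e0]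
      omega
  -- third case
  have hr : R1 % (t * u) < u := by
    have h1 : R1 / u % t = R1 % (t * u) / u := by
      rw [mul_comm t u, Nat.mod_mul_right_div_self]
    have h2 : R1 % (t * u) / u = 0 := by omega
    exact (Nat.div_eq_zero_iff_lt hu0).mp h2
  have hrW : R1 % (t * u) + W' < u := by
    have h1 : (R1 + W') / u % t = (R1 + W') % (t * u) / u := by
      rw [mul_comm t u, Nat.mod_mul_right_div_self]
    have h2 : (R1 + W') % (t * u) = R1 % (t * u) + W' := by
      rw [Nat.add_mod, Nat.mod_eq_of_lt (by omega : W' < t * u), Nat.mod_eq_of_lt (by omega)]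
    rw [h2] at h1
    have h3 : (R1 % (t * u) + W') / u = 0 := by omega
    exact (Nat.div_eq_zero_iff_lt hu0).mp h3
  have e1 : (1 * (t * p) + 0) * W' = t * p * W' := by ring
  have hnu2 : t * p * (u - W') ≤ t * p * (u - a) := Nat.mul_le_mul_left _ (by omega)
  have hnu3 : t * p * W' + t * p * (u - W') = t * p * u := by
    rw [← Nat.mul_add]
    congr 1
    omega
  have hnu4 : u - W' ≤ t * p * (u - W') := Nat.le_mul_of_pos_left _ (by positivity)
  refine hend 1 0 le_rfl (by omega) ?_ ?_
  · rw [e1]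
    have hdec := Nat.div_add_mod R1 (t * u)
    obtain ⟨p', hp'⟩ : ∃ p', p = p' + 1 := ⟨p - 1, by omega⟩
    have h1 : R1 + t * p * W' = u * (t * (R1 / (t * u) + p') + (t - 1))
        + (u - (t * p * (u - W') - R1 % (t * u))) := by
      have h2 : u * (t * (R1 / (t * u) + p') + (t - 1))
          = t * u * (R1 / (t * u)) + t * p' * u + (t - 1) * u := by ring
      have h3 : (t - 1) * u + u = t * u := by
        rw [← Nat.succ_mul]
        congr 1
        omega
      have h4 : t * p * u = t * p' * u + t * u := by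
        rw [hp']
        ring
      omega
    have h2 : (u - (t * p * (u - W') - R1 % (t * u))) / u = 0 := Nat.div_eq_of_lt (by omega)
    have h3 : (R1 + t * p * W') / u = t * (R1 / (t * u) + p') + (t - 1) := by
      conv_lhs => rw [h1]
      rw [Nat.mul_add_div hu0, h2, Nat.add_zero]
    rw [h3, Nat.mul_add_mod, Nat.mod_eq_of_lt (by omega)]
    omega
  · rw [e1]
    omega

theorem EJ_numeric_done (t n m α w κ κB D : ℕ) (ht : 6 ≤ t) (hm : 1 ≤ m) (hmn : m < n)
    (hα : t ^ m ∣ α) (hαT : α < t ^ n) (hα1 : (t - 1) * t ^ n < t * α)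
    (hw : t ^ (m + 1) ∣ w) (hαw : α ≤ w) (hw2 : (t - 1) * w ≤ t * t ^ n)
    (hκ : t ^ m * κ ≤ 3 * (t ^ n - α)) (hκB : κB < t ^ (n - m)) (hD : D % t ≠ 0) :
    OutA t n m α w κ D ∨ OutB t n m α w κB := by
  have hw1 : (t - 1) * t ^ n < t * w := lt_of_lt_of_le hα1 (Nat.mul_le_mul_left _ hαw)
  obtain ⟨γ, g0, g1, g2, hS, d1, d2, hA | ⟨J, hJ1, hJm, hγJ, hdJ, hsm, hnu⟩⟩ :=
    J_loop t n m α κ ht hm hmn hα hαT hα1 hκ
  · exact Or.inl (A_end t n m α w κ D ht hm hmn hw hw1 hw2 hD γ g0 g1 g2 hS d1 d2 hA)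
  · exact Or.inr (B_end t n m α w κ κB J ht hmn hα hαT hw hw1 hw2 hαw hκ hκB γ g0 g1 hJ1 hJm hγJ
      hS d1 d2 hdJ hsm hnu)

end Pool.Agent.H54.Afa
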