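import Mathlib
import Pool.Agent.H54.Afa.Block
import Pool.Agent.H54.Afa.EJBX

set_option autoImplicit false

namespace Pool.Agent.H54.Afa

open Finset

variable {t n m : ℕ} [NeZero n] {d f : ZMod (t ^ n - 1)}

/-- a weighted sum of exact quotients -/
theorem ew_sum (t n m A B : ℕ) (ht : 1 ≤ t) (C a : ℕ → ℕ) (ha : ∀ l ≤ m, A = t ^ l * a l)
    (hB : ∑ l ∈ range (m + 1), C l * t ^ (m - l) < B * t ^ m) (hA : B * A ≤ t ^ n) (_hB0 : 0 < B) :
    ∑ l ∈ range (m + 1), C l * a l < t ^ n := by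
  have h1 : t ^ m * ∑ l ∈ range (m + 1), C l * a l
      = (∑ l ∈ range (m + 1), C l * t ^ (m - l)) * A := by
    rw [mul_sum, sum_mul]
    apply sum_congr rfl
    intro l hl
    rw [mem_range] at hl
    have h2 : t ^ m = t ^ (m - l) * t ^ l := by
      rw [← _root_.pow_add]
      congr 1
      omega
    rw [ha l (by omega), h2]
    ring
  have htm : 0 < t ^ m := Nat.pow_pos (by omega)
  have htn : 0 < t ^ n := Nat.pow_pos (by omega)
  apply Nat.lt_of_mul_lt_mul_left (a := t ^ m)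
  rw [h1]
  rcases Nat.eq_zero_or_pos A with h0 | h0
  · rw [h0, mul_zero]
    exact Nat.mul_pos htm htn
  · calc (∑ l ∈ range (m + 1), C l * t ^ (m - l)) * A < B * t ^ m * A :=
        Nat.mul_lt_mul_of_pos_right hB h0
      _ = t ^ m * (B * A) := by ring
      _ ≤ t ^ m * t ^ n := Nat.mul_le_mul_left _ hA

theorem ew_geom (t m : ℕ) (ht : 2 ≤ t) (C : ℕ → ℕ) (hC : ∀ l, C l ≤ 1) :
    ∑ l ∈ range (m + 1), C l * t ^ (m - l) < 2 * t ^ m := by
  have h1 : ∑ l ∈ range (m + 1), C l * t ^ (m - l) ≤ ∑ l ∈ range (m + 1), t ^ (m - l) := by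
    apply sum_le_sum
    intro l _
    calc C l * t ^ (m - l) ≤ 1 * t ^ (m - l) := Nat.mul_le_mul_right _ (hC l)
      _ = t ^ (m - l) := one_mul _
  refine lt_of_le_of_lt h1 ?_
  have h2 : ∑ l ∈ range (m + 1), t ^ (m - l) = ∑ l ∈ range (m + 1), t ^ l := by
    rw [← sum_range_reflect]
    apply sum_congr rfl
    intro l hl
    rw [mem_range] at hl
    congr 1
    omega
  rw [h2]
  clear h1 h2
  induction m with
  | zero => simp
  | succ m ih =>
    rw [sum_range_succ, pow_succ t m]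
    have h3 : t ^ m * 2 ≤ t ^ m * t := Nat.mul_le_mul_left _ ht
    omega

/-- from the numeric engine to a pair -/
theorem EJ_wrap_of (hnum : ∀ (t n m α w κ κB D : ℕ) (_ : 6 ≤ t) (_ : 1 ≤ m) (_ : m < n)
    (_ : t ^ m ∣ α) (_ : α < t ^ n) (_ : (t - 1) * t ^ n < t * α)
    (_ : t ^ (m + 1) ∣ w) (_ : α ≤ w) (_ : (t - 1) * w ≤ t * t ^ n)
    (_ : t ^ m * κ ≤ 3 * (t ^ n - α)) (_ : κB < t ^ (n - m)) (_ : D % t ≠ 0),
    OutA t n m α w κ D ∨ OutB t n m α w κB)
    (ht : 6 ≤ t) (h : Lvl t n m d f) (hj : dg t n f (-1) ≠ 0)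
    (hneg : ∀ l ≤ m, W t n f 0 = t ^ l * W t n f (-(l : ZMod n)))
    (hz : ∀ l < m, W t n f (-(l : ZMod n)) % t = 0)
    (hα1 : (t - 1) * t ^ n < t * W t n f 0)
    (hαβ : W t n f 0 ≤ t * W t n d (-1))
    (hβ2 : (t - 1) * W t n d (-1) ≤ t ^ n)
    (i1 : ZMod n) (hi1 : dg t n d i1 ≠ 0) (hj1 : dg t n f ((m : ZMod n) - i1) ≠ 0)
    (hκ : W t n f i1 ≤ 3 * (t ^ n - W t n f 0))
    (hexA : ∀ j : ZMod n, dg t n f j ≠ 0 → (t - 1) * W t n d j ≤ t ^ n)
    (hexB : ∀ i : ZMod n, dg t n d i ≠ 0 → i ≠ 0 → t * W t n f i ≤ t ^ n) :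
    Pair t n d f := by
  have hmn := h.mn
  have hm1 := h.m1
  have ht2 : 2 ≤ t := by omega
  have htpos : 0 < t := by omega
  have hdgi1 : dg t n d i1 < t := dg_lt ht2 d i1
  have hdgj1 : dg t n f ((m : ZMod n) - i1) < t := dg_lt ht2 f _
  -- values at the positions `-l`
  have hα : ∀ l ≤ m, W t n f 0 / t ^ l = W t n f (-(l : ZMod n)) := by
    intro l hl
    rw [hneg l hl]
    exact Nat.mul_div_cancel_left _ (Nat.pow_pos htpos)
  have hBx : ∀ l ≤ m, W t n d (-1) = t ^ l * W t n d (-1 - (l : ZMod n)) :=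
    fun l hl => h.B_exact ht2 hj hl
  have hwA : ∀ l ≤ m, t * W t n d (-1) / t ^ l = t * W t n d (-1 - (l : ZMod n)) := by
    intro l hl
    rw [hBx l hl]
    have : t * (t ^ l * W t n d (-1 - (l : ZMod n)))
        = t ^ l * (t * W t n d (-1 - (l : ZMod n))) := by ring
    rw [this]
    exact Nat.mul_div_cancel_left _ (Nat.pow_pos htpos)
  have hshift : ∀ l, 1 ≤ l → (-1 : ZMod n) - ((l - 1 : ℕ) : ZMod n) = -(l : ZMod n) := by
    intro l hl
    rw [Nat.cast_sub hl]
    push_cast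
    ring
  have hwB : ∀ l, 1 ≤ l → l ≤ m → t * W t n d (-1) / t ^ l = W t n d (-(l : ZMod n)) := by
    intro l hl1 hl
    rw [hBx (l - 1) (by omega), hshift l hl1, ← mul_assoc, ← pow_succ',
      show l - 1 + 1 = l by omega]
    exact Nat.mul_div_cancel_left _ (Nat.pow_pos htpos)
  have hκm : W t n f i1 = t ^ m * W t n f (i1 - (m : ZMod n)) := h.A_exact ht2 hi1 le_rfl
  have hκB : W t n d (-i1) < t ^ (n - m) := by
    have h1 := h.B_exact ht2 hj1 (l := m) le_rfl
    rw [sub_sub_cancel_left] at h1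
    have h2 := W_lt' ht2 d ((m : ZMod n) - i1)
    rw [h1] at h2
    have h3 : t ^ n = t ^ m * t ^ (n - m) := by
      rw [← _root_.pow_add]
      congr 1
      omega
    rw [h3] at h2
    exact Nat.lt_of_mul_lt_mul_left h2
  rcases hnum t n m (W t n f 0) (t * W t n d (-1)) (W t n f (i1 - (m : ZMod n)))
    (W t n d (-i1)) (dg t n d i1) ht hm1 hmn ⟨_, hneg m le_rfl⟩ (W_lt' ht2 f 0) hα1
    ⟨W t n d (-1 - (m : ZMod n)), by rw [pow_succ', mul_assoc, ← hBx m le_rfl]⟩ hαβ
    (by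
      calc (t - 1) * (t * W t n d (-1)) = t * ((t - 1) * W t n d (-1)) := by ring
        _ ≤ t * t ^ n := Nat.mul_le_mul_left _ hβ2)
    (by rw [← hκm]; exact hκ) hκB (by rw [Nat.mod_eq_of_lt hdgi1]; exact hi1) with hA | hB
  · obtain ⟨C, γ, hC0, hCm, hγ0, hγ1, hγm, hS, hcov, hC2, hcont⟩ := hA
    have hex : ∀ j : ZMod n, dg t n f j ≠ 0 →
        ∑ l ∈ range (m + 1), C l * W t n d (j - (l : ZMod n)) < t ^ n := by
      intro j hjj
      refine ew_sum t n m (W t n d j) 2 (by omega) C _ (fun l hl => h.B_exact ht2 hjj hl) hC2 ?_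
        (by omega)
      refine le_trans ?_ (hexA j hjj)
      exact Nat.mul_le_mul_right _ (by omega)
    have hClt : ∀ l ≤ m, C l < t := by
      intro l hl
      rcases Nat.eq_zero_or_pos l with h0 | h0
      · rw [h0, hC0]
        omega
      · exact lt_of_le_of_lt (hcov l h0 hl) (Nat.mod_lt _ htpos)
    have hcne : cC t n m C ≠ 0 := cC_ne ht2 hmn C hClt (by omega) (by omega)
    have hsumS : ∑ l ∈ range m, γ l * (W t n f 0 / t ^ l)
        = ∑ l ∈ range m, γ l * W t n f (-(l : ZMod n)) := by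
      apply sum_congr rfl
      intro l hl
      rw [mem_range] at hl
      rw [hα l (by omega)]
    rw [hsumS] at hS hcov
    refine win_block (by omega) h C γ m (by omega) i1 hj1 hClt hC0 hCm hex ?_ (fun l hl _ => hz l hl)
      hS hcov
    intro l hl
    rcases Nat.eq_zero_or_pos (γ l) with h0 | h0
    · rw [h0]
      exact Nat.zero_le _
    · have h1 : γ l = 1 := le_antisymm (hγ1 l) h0
      rw [h1]
      have h2 := hcont l hl h1
      rw [dg_neg ht2 _ l (by omega), W_cC ht2 C d (h.toGood.mul_ne hcne) (-1) (hex _ hj)]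
      have h3 : ∑ k ∈ range (m + 1), C k * (t * W t n d (-1) / t ^ k)
          = t * ∑ k ∈ range (m + 1), C k * W t n d (-1 - (k : ZMod n)) := by
        rw [mul_sum]
        apply sum_congr rfl
        intro k hk
        rw [mem_range] at hk
        rw [hwA k (by omega)]
        ring
      have h4 : t ^ (n - l) = t * t ^ (n - (l + 1)) := by
        rw [← pow_succ']
        congr 1
        omega
      rw [h3, h4, Nat.mul_div_mul_left _ _ htpos] at h2
      exact h2
  · obtain ⟨C, γ, hγ0, hγm, hγ1, hSB, hcov, hR, hcont⟩ := hB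
    have hsum0 : ∑ l ∈ range (m + 1), γ l * (W t n f 0 / t ^ l)
        = ∑ l ∈ range (m + 1), γ l * W t n f (0 - (l : ZMod n)) := by
      apply sum_congr rfl
      intro l hl
      rw [mem_range] at hl
      rw [hα l (by omega), zero_sub]
    rw [hsum0] at hSB hcov
    have hex : ∀ i : ZMod n, dg t n d i ≠ 0 →
        ∑ l ∈ range (m + 1), γ l * W t n f (i - (l : ZMod n)) < t ^ n := by
      intro i hi
      by_cases h0 : i = 0
      · rw [h0]
        exact hSB
      · refine ew_sum t n m (W t n f i) 2 (by omega) γ _ (fun l hl => h.A_exact ht2 hi hl)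
          (ew_geom t m ht2 γ hγ1) ?_ (by omega)
        refine le_trans ?_ (hexB i hi h0)
        exact Nat.mul_le_mul_right _ (by omega)
    have hγlt : ∀ l ≤ m, γ l < t := fun l _ => lt_of_le_of_lt (hγ1 l) (by omega)
    have hcne : cC t n m γ ≠ 0 := cC_ne ht2 hmn γ hγlt (by omega) (by omega)
    have hd0 : dg t n d ((m : ZMod n) - ((m : ZMod n) - i1)) ≠ 0 := by
      rw [sub_sub_cancel]
      exact hi1
    have hsumR : W t n d ((m : ZMod n) - i1 - (m : ZMod n))
        + ∑ l ∈ range (m + 1), (fun l => if l = 0 then 0 else C l) l * W t n d (-(l : ZMod n))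
        = W t n d (-i1) + ∑ l ∈ Icc 1 m, C l * (t * W t n d (-1) / t ^ l) := by
      rw [sub_sub_cancel_left]
      congr 1
      have h1 : range (m + 1) = insert 0 (Icc 1 m) := by
        ext l
        rw [mem_range, mem_insert, mem_Icc]
        omega
      rw [h1, sum_insert (by rw [mem_Icc]; omega)]
      simp only [if_true, zero_mul, zero_add]
      apply sum_congr rfl
      intro l hl
      rw [mem_Icc] at hl
      rw [if_neg (by omega), hwB l hl.1 hl.2]
    refine (win_block (by omega) h.symm γ (fun l => if l = 0 then 0 else C l) (m + 1) (by omega)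
      ((m : ZMod n) - i1) hd0 hγlt hγ0 ?_ hex ?_ ?_ ?_ ?_).symm
    · rw [hγm, one_mul, Nat.mod_eq_of_lt hdgj1]
      exact hj1
    · intro l hl
      by_cases h0 : l = 0
      · simp only [h0, if_true]
        exact Nat.zero_le _
      · simp only [h0, if_false]
        rw [dg_neg' ht2 _ l (by omega) (by omega), W_cC ht2 γ f (h.toGood.symm.mul_ne hcne) 0 hSB]
        exact hcov l (by omega) (by omega)
    · intro l hl hgl
      have h0 : l ≠ 0 := by
        intro h0
        simp [h0] at hgl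
      rw [← hshift l (by omega)]
      exact h.B_zero hj (by omega)
    · rw [hsumR]
      exact hR
    · intro l hl1 hl
      rw [hsumR]
      exact hcont l hl1 hl

/-- from the numeric engine to a pair -/
theorem EJ_wrap (ht : 6 ≤ t) (h : Lvl t n m d f) (hj : dg t n f (-1) ≠ 0)
    (hneg : ∀ l ≤ m, W t n f 0 = t ^ l * W t n f (-(l : ZMod n)))
    (hz : ∀ l < m, W t n f (-(l : ZMod n)) % t = 0)
    (hα1 : (t - 1) * t ^ n < t * W t n f 0)
    (hαβ : W t n f 0 ≤ t * W t n d (-1))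
    (hβ2 : (t - 1) * W t n d (-1) ≤ t ^ n)
    (i1 : ZMod n) (hi1 : dg t n d i1 ≠ 0) (hj1 : dg t n f ((m : ZMod n) - i1) ≠ 0)
    (hκ : W t n f i1 ≤ 3 * (t ^ n - W t n f 0))
    (hexA : ∀ j : ZMod n, dg t n f j ≠ 0 → (t - 1) * W t n d j ≤ t ^ n)
    (hexB : ∀ i : ZMod n, dg t n d i ≠ 0 → i ≠ 0 → t * W t n f i ≤ t ^ n) :
    Pair t n d f :=
  EJ_wrap_of (fun t n m α w κ κB D h1 h2 h3 h4 h5 h6 h7 h8 h9 h10 h11 h12 =>
    EJ_numeric_done t n m α w κ κB D h1 h2 h3 h4 h5 h6 h7 h8 h9 h10 h11 h12)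
    ht h hj hneg hz hα1 hαβ hβ2 i1 hi1 hj1 hκ hexA hexB

end Pool.Agent.H54.Afa
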