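import Mathlib
import Pool.Agent.H54.Afa.E1
import Pool.Agent.H54.Afa.EJWrap

set_option autoImplicit false

namespace Pool.Agent.H54.Afa

open Finset

variable {t n m : ℕ} [NeZero n] {d f : ZMod (t ^ n - 1)}

theorem W_rotP (ht : 2 ≤ t) (u : ZMod (t ^ n - 1)) (r x : ZMod n) :
    W t n (u * P t n r) x = W t n u (r + x) := (W_add ht u r x).symm

theorem dg_rotP (ht : 2 ≤ t) (u : ZMod (t ^ n - 1)) (r x : ZMod n) :
    dg t n (u * P t n r) x = dg t n u (x - r) := by
  unfold dg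
  rw [W_rotP ht]
  congr 2
  ring

theorem Lvl.rot (ht : 2 ≤ t) (h : Lvl t n m d f) (r : ZMod n) :
    Lvl t n m (d * P t n r) (f * P t n (-r)) := by
  have hd : ∀ i, dg t n (d * P t n r) i = dg t n d (i - r) := fun i => dg_rotP ht d r i
  have hf : ∀ j, dg t n (f * P t n (-r)) j = dg t n f (j + r) := fun j => by
    rw [dg_rotP ht, sub_neg_eq_add]
  have hWd : ∀ j, W t n (d * P t n r) j = W t n d (j + r) := fun j => by
    rw [W_rotP ht, add_comm]
  have hWf : ∀ i, W t n (f * P t n (-r)) i = W t n f (i - r) := fun i => by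
    rw [W_rotP ht]
    congr 1
    ring
  refine { fd := ?_, a1 := ?_, a2 := ?_, b1 := ?_, b2 := ?_, m1 := h.m1, mn := h.mn,
           av := ?_, ex := ?_ }
  · calc f * P t n (-r) * (d * P t n r) = (f * d) * (P t n (-r) * P t n r) := by ring
      _ = 1 := by rw [h.fd, P_neg_mul ht, one_mul]
  · intro i hi
    rw [hd] at hi
    rw [hWf]
    exact h.a1 _ hi
  · refine Eq.trans ?_ h.a2
    simp_rw [hd, hWf]
    exact Fintype.sum_equiv (Equiv.subRight r) _ _ (fun x => rfl)
  · intro j hj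
    rw [hf] at hj
    rw [hWd]
    exact h.b1 _ hj
  · refine Eq.trans ?_ h.b2
    simp_rw [hf, hWd]
    exact Fintype.sum_equiv (Equiv.addRight r) _ _ (fun x => rfl)
  · intro l hl i j hi hj hij
    rw [hd] at hi
    rw [hf] at hj
    apply h.av l hl _ _ hi hj
    rw [← hij]
    ring
  · obtain ⟨i, j, hi, hj, hij⟩ := h.ex
    refine ⟨i + r, j - r, ?_, ?_, ?_⟩
    · rw [hd, add_sub_cancel_right]
      exact hi
    · rw [hf, sub_add_cancel]
      exact hj
    · rw [← hij]
      ring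

theorem Cov_iff (ht : 2 ≤ t) (a b : ZMod (t ^ n - 1)) :
    Cov t n a b ↔ ∀ x : ZMod n, dg t n a x ≤ dg t n b x := by
  constructor
  · intro h x
    have h1 := h x.val (ZMod.val_lt x)
    rw [← dg_eq ht _ _ (ZMod.val_lt x), ← dg_eq ht _ _ (ZMod.val_lt x), ZMod.natCast_zmod_val]
      at h1
    exact h1
  · intro h i hi
    rw [← dg_eq ht _ i hi, ← dg_eq ht _ i hi]
    exact h _

theorem Cov_mulP (ht : 2 ≤ t) {a b : ZMod (t ^ n - 1)} (h : Cov t n a b) (r : ZMod n) :
    Cov t n (a * P t n r) (b * P t n r) := by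
  rw [Cov_iff ht] at h ⊢
  intro x
  rw [dg_rotP ht, dg_rotP ht]
  exact h _

theorem Pair.rot (ht : 2 ≤ t) (r : ZMod n) (h : Pair t n (d * P t n r) (f * P t n (-r))) :
    Pair t n d f := by
  obtain ⟨c, g, hc, hg, ⟨h1, h2⟩, ⟨h3, h4⟩⟩ := h
  have hP : P t n r * P t n (-r) = 1 := by rw [mul_comm]; exact P_neg_mul ht r
  have e1 : d * c = d * P t n r * c * P t n (-r) := by
    calc d * c = d * c * (P t n r * P t n (-r)) := by rw [hP, mul_one]
      _ = _ := by ring
  have e2 : f * (g * P t n (-r)) = f * P t n (-r) * g := by ring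
  have e3 : ∀ u : ZMod (t ^ n - 1), u * P t n (-r) * P t n r = u := by
    intro u
    rw [mul_assoc, P_neg_mul ht, mul_one]
  refine ⟨c, g * P t n (-r), hc, ?_, ⟨?_, ?_⟩, ?_, ?_⟩
  · intro h5
    apply hg
    rw [← e3 g, h5, zero_mul]
  · rw [e1]
    exact Cov_mulP ht h1 _
  · intro h5
    apply h2
    rw [e1] at h5
    rw [← e3 g, h5, e3]
  · rw [e2]
    exact h3
  · rw [e2]
    exact h4

/-- the top digit -/
theorem W_top (ht : 2 ≤ t) (u : ZMod (t ^ n - 1)) (x : ZMod n) :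
    dg t n u (-(x + 1)) = W t n u x / t ^ (n - 1) := by
  have hn := n_pos (n := n)
  have h1 := W_dig ht u x 1 le_rfl hn
  rw [Nat.cast_one] at h1
  have hw := W_lt' ht u x
  have h3 : W t n u x / t ^ (n - 1) < t := by
    rw [Nat.div_lt_iff_lt_mul (Nat.pow_pos (by omega))]
    calc W t n u x < t ^ n := hw
      _ = t * t ^ (n - 1) := by
        rw [mul_comm, ← pow_succ]; congr 1; omega
  rw [Nat.mod_eq_of_lt h3] at h1
  unfold dg
  rw [neg_neg, h1]

theorem case_X2 (ht : 6 ≤ t) (h : Lvl t n m d f) (h0 : dg t n d 0 ≠ 0) (h1 : dg t n f (-1) ≠ 0)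
    (hbig : (t - 1) * t ^ n < t * W t n f 0) : Pair t n d f := by
  classical
  have ht2 : 2 ≤ t := by omega
  have hn := n_pos (n := n)
  obtain ⟨T1, hT1⟩ : ∃ T1, T1 = t ^ (n - 1) := ⟨_, rfl⟩
  have hTT : t ^ n = t * T1 := by
    rw [hT1, mul_comm, ← pow_succ]; congr 1; omega
  have hT1pos : 0 < T1 := by rw [hT1]; exact Nat.pow_pos (by omega)
  obtain ⟨s, hs⟩ : ∃ s, t = s + 1 := ⟨t - 1, by omega⟩
  have hα := W_lt' ht2 f 0
  -- α > (t-1) T1
  have hα1 : (t - 1) * T1 < W t n f 0 := by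
    have hbig' : t * ((t - 1) * T1) < t * W t n f 0 := by
      calc t * ((t - 1) * T1) = (t - 1) * (t * T1) := by ring
        _ = (t - 1) * t ^ n := by rw [← hTT]
        _ < _ := hbig
    exact Nat.lt_of_mul_lt_mul_left hbig'
  -- the digit of `d` at `0`
  have hsplit : dg t n d 0 * W t n f 0 + ∑ i ∈ univ.erase (0 : ZMod n), dg t n d i * W t n f i
      = t ^ n := by
    refine Eq.trans ?_ h.a2
    exact Finset.add_sum_erase univ (fun i => dg t n d i * W t n f i) (mem_univ 0)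
  have hd0 : dg t n d 0 = 1 := by
    by_contra hne
    have h2 : 2 ≤ dg t n d 0 := by omega
    have h3 : 2 * W t n f 0 ≤ dg t n d 0 * W t n f 0 := Nat.mul_le_mul_right _ h2
    have h4 : 2 * ((t - 1) * T1) < t * T1 := by
      omega
    rw [← mul_assoc] at h4
    have h5 := Nat.lt_of_mul_lt_mul_right h4
    omega
  rw [hd0, one_mul] at hsplit
  -- the digit of `f` at `-1`
  have hf1 : dg t n f (-1) = t - 1 := by
    have h2 := W_top ht2 f 0
    rw [zero_add, ← hT1] at h2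
    have h3 := dg_lt ht2 f (-1)
    have h4 : t - 1 ≤ W t n f 0 / T1 := by
      rw [Nat.le_div_iff_mul_le hT1pos]
      exact hα1.le
    omega
  -- `W d (-1)` is large
  have hβ : T1 ≤ W t n d (-1) := by
    have h2 := W_top ht2 d (-1)
    rw [neg_add_cancel, neg_zero, hd0, ← hT1] at h2
    have h3 : W t n d (-1) / T1 * T1 ≤ W t n d (-1) := Nat.div_mul_le_self _ _
    rw [← h2, one_mul] at h3
    exact h3
  have hsplitB : dg t n f (-1) * W t n d (-1) +
      ∑ j ∈ univ.erase (-1 : ZMod n), dg t n f j * W t n d j = t ^ n := by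
    refine Eq.trans ?_ h.b2
    exact Finset.add_sum_erase univ (fun j => dg t n f j * W t n d j) (mem_univ (-1))
  rw [hf1] at hsplitB
  have hβ2 : (t - 1) * W t n d (-1) ≤ t ^ n := by omega
  have hβ3 : (t - 1) * T1 ≤ (t - 1) * W t n d (-1) := Nat.mul_le_mul_left _ hβ
  have hts : t ^ n = (t - 1) * T1 + T1 := by
    rw [hTT, hs, Nat.add_sub_cancel]; ring
  have hBo : ∀ j : ZMod n, dg t n f j ≠ 0 → j ≠ -1 → W t n d j ≤ T1 := by
    intro j hj hj1
    have h2 : dg t n f j * W t n d j ≤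
        ∑ j ∈ univ.erase (-1 : ZMod n), dg t n f j * W t n d j :=
      single_le_sum (f := fun j => dg t n f j * W t n d j) (fun _ _ => Nat.zero_le _)
        (mem_erase.mpr ⟨hj1, mem_univ j⟩)
    have h3 : 1 * W t n d j ≤ dg t n f j * W t n d j :=
      Nat.mul_le_mul_right _ (by omega)
    omega
  have hAo : ∀ i : ZMod n, dg t n d i ≠ 0 → i ≠ 0 → W t n f i ≤ t ^ n - W t n f 0 := by
    intro i hi hi0
    have h2 : dg t n d i * W t n f i ≤
        ∑ i ∈ univ.erase (0 : ZMod n), dg t n d i * W t n f i :=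
      single_le_sum (f := fun i => dg t n d i * W t n f i) (fun _ _ => Nat.zero_le _)
        (mem_erase.mpr ⟨hi0, mem_univ i⟩)
    have h3 : 1 * W t n f i ≤ dg t n d i * W t n f i :=
      Nat.mul_le_mul_right _ (by omega)
    omega
  have hneg : ∀ l ≤ m, W t n f 0 = t ^ l * W t n f (-(l : ZMod n)) := by
    intro l hl
    have h2 := h.A_exact ht2 h0 hl
    rw [zero_sub] at h2
    exact h2
  have hz : ∀ l < m, W t n f (-(l : ZMod n)) % t = 0 := by
    intro l hl
    have h2 := h.A_zero h0 hl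
    rw [zero_sub] at h2
    exact h2
  -- a second closing coin
  have hi1 : ∃ i1 : ZMod n, i1 ≠ 0 ∧ dg t n d i1 ≠ 0 ∧ dg t n f ((m : ZMod n) - i1) ≠ 0 := by
    by_contra hcon
    push Not at hcon
    have hall : ∀ i : ZMod n, i ≠ 0 → dg t n d i ≠ 0 → t ^ (m + 1) ∣ W t n f i := by
      intro i hi0 hi
      have h2 := hcon i hi0 hi
      unfold dg at h2
      rw [neg_sub] at h2
      have h3 := h.A_exact ht2 hi (le_refl m)
      rw [h3, pow_succ]
      exact Nat.mul_dvd_mul_left _ (Nat.dvd_of_mod_eq_zero h2)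
    have hsumdvd : t ^ (m + 1) ∣ ∑ i ∈ univ.erase (0 : ZMod n), dg t n d i * W t n f i := by
      apply dvd_sum
      intro i hi
      by_cases hd : dg t n d i = 0
      · rw [hd, zero_mul]
        exact dvd_zero _
      · exact Dvd.dvd.mul_left (hall i (ne_of_mem_erase hi) hd) _
    have hTdvd : t ^ (m + 1) ∣ t ^ n := pow_dvd_pow t h.mn
    have hαdvd : t ^ (m + 1) ∣ W t n f 0 := by
      have hTdvd2 : t ^ (m + 1) ∣ W t n f 0 +
          ∑ i ∈ univ.erase (0 : ZMod n), dg t n d i * W t n f i := by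
        obtain ⟨k, hk⟩ := hTdvd
        exact ⟨k, hsplit.trans hk⟩
      exact (Nat.dvd_add_left hsumdvd).mp hTdvd2
    have h3 := hneg m le_rfl
    rw [h3, pow_succ] at hαdvd
    have h4 : t ∣ W t n f (-(m : ZMod n)) :=
      Nat.dvd_of_mul_dvd_mul_left (Nat.pow_pos (by omega)) hαdvd
    have h5 : dg t n f (m : ZMod n) = 0 := by
      unfold dg
      exact Nat.mod_eq_zero_of_dvd h4
    obtain ⟨i, j, hi, hj, hij⟩ := h.ex
    by_cases hi0 : i = 0
    · rw [hi0, zero_add] at hij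
      rw [hij] at hj
      exact hj h5
    · apply hj
      have h6 := hcon i hi0 hi
      rwa [← hij, add_sub_cancel_left] at h6
  obtain ⟨i1, hi10, hi1d, hi1f⟩ := hi1
  refine EJ_wrap ht h h1 hneg hz hbig ?_ hβ2 i1 hi1d hi1f ?_ ?_ ?_
  · have h2 : t * T1 ≤ t * W t n d (-1) := Nat.mul_le_mul_left _ hβ
    omega
  · have h2 := hAo i1 hi1d hi10
    omega
  · intro j hj
    by_cases hj1 : j = -1
    · rw [hj1]; exact hβ2
    · have h2 := hBo j hj hj1
      have h3 : (t - 1) * W t n d j ≤ (t - 1) * T1 := Nat.mul_le_mul_left _ h2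
      omega
  · intro i hi hi0
    have h2 := hAo i hi hi0
    have h3 : W t n f i ≤ T1 := by omega
    calc t * W t n f i ≤ t * T1 := Nat.mul_le_mul_left _ h3
      _ = t ^ n := hTT.symm

theorem case_II_aux (ht : 6 ≤ t) (h : Lvl t n m d f) (h0 : dg t n d 0 ≠ 0)
    (h1 : dg t n f (-1) ≠ 0)
    (hmax : ∀ j : ZMod n, dg t n f j ≠ 0 → W t n d j ≤ W t n d (-1)) : Pair t n d f := by
  have ht2 : 2 ≤ t := by omega
  by_cases hφ : t * W t n f 0 ≤ (t - 1) * t ^ n
  · by_cases he : t * W t n d (-1) ≤ (t - 1) * t ^ n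
    · exact E1_engine ht h h0 h1 hmax hφ he
    · apply Pair.symm
      apply Pair.rot ht2 1
      apply case_X2 ht (h.symm.rot ht2 1)
      · rw [dg_rotP ht2, zero_sub]
        exact h1
      · rw [dg_rotP ht2, sub_self]
        exact h0
      · rw [W_rotP ht2, add_zero]
        omega
  · exact case_X2 ht h h0 h1 (by omega)

theorem case_II (ht : 6 ≤ t) (h : Lvl t n m d f)
    (hII : ∃ i j : ZMod n, dg t n d i ≠ 0 ∧ dg t n f j ≠ 0 ∧ i + j = -1) : Pair t n d f := by
  classical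
  have ht2 : 2 ≤ t := by omega
  have hT1pos : 0 < t ^ (n - 1) := Nat.pow_pos (by omega)
  obtain ⟨i, j, hi, hj, hij⟩ := hII
  obtain ⟨j0, hj0, hmax⟩ := Finset.exists_max_image
    (univ.filter fun j : ZMod n => dg t n f j ≠ 0) (fun j => W t n d j)
    ⟨j, by rw [mem_filter]; exact ⟨mem_univ _, hj⟩⟩
  rw [mem_filter] at hj0
  have hmax' : ∀ j : ZMod n, dg t n f j ≠ 0 → W t n d j ≤ W t n d j0 := fun j hj =>
    hmax j (by rw [mem_filter]; exact ⟨mem_univ _, hj⟩)
  have hdj : dg t n d (-(j0 + 1)) ≠ 0 := by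
    rw [W_top ht2]
    have h2 := W_top ht2 d j
    have h3 : -(j + 1) = i := by
      have : i = -1 - j := by rw [← hij]; ring
      rw [this]; ring
    rw [h3] at h2
    have h4 : W t n d j / t ^ (n - 1) ≤ W t n d j0 / t ^ (n - 1) :=
      Nat.div_le_div_right (hmax' j hj)
    omega
  apply Pair.rot ht2 (j0 + 1)
  apply case_II_aux ht (h.rot ht2 (j0 + 1))
  · rw [dg_rotP ht2, zero_sub]
    exact hdj
  · rw [dg_rotP ht2, show (-1 : ZMod n) - -(j0 + 1) = j0 by ring]
    exact hj0.2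
  · intro j' hj'
    rw [dg_rotP ht2] at hj'
    rw [W_rotP ht2, W_rotP ht2, show j0 + 1 + (-1 : ZMod n) = j0 by ring]
    apply hmax'
    rw [show j0 + 1 + j' = j' - -(j0 + 1) by ring]
    exact hj'

end Pool.Agent.H54.Afa
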