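import Mathlib
import Pool.Agent.H54.Afa.Struct

set_option autoImplicit false

namespace Pool.Agent.H54.Afa

open Finset

variable {t n m : ℕ} [NeZero n] {d f : ZMod (t ^ n - 1)}

theorem W_sum_add (ht : 2 ≤ t) (u v : ZMod (t ^ n - 1)) (y : ZMod n) :
    W t n u y + W t n v y =
      (t ^ n - 1) * ((W t n u y + W t n v y) / (t ^ n - 1)) + W t n (u + v) y := by
  have hNe : NeZero (t ^ n - 1) := ⟨(N_pos ht).ne'⟩
  have h1 : W t n (u + v) y = (W t n u y + W t n v y) % (t ^ n - 1) := by
    unfold W
    rw [add_mul, ZMod.val_add]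
  rw [h1]
  exact (Nat.div_add_mod _ _).symm

/-- digitwise addition with a cyclic carry -/
theorem add_carry (ht : 2 ≤ t) (u v : ZMod (t ^ n - 1)) :
    ∃ c : ZMod n → ℕ, (∀ x, c x ≤ 1) ∧
      ∀ x, dg t n (u + v) x + t * c (x + 1) = dg t n u x + dg t n v x + c x := by
  have hN := N_pos (n := n) ht
  refine ⟨fun x => (W t n u (-x) + W t n v (-x)) / (t ^ n - 1), ?_, ?_⟩
  · intro x
    have h1 := W_lt ht u (-x)
    have h2 := W_lt ht v (-x)
    have h3 : (W t n u (-x) + W t n v (-x)) / (t ^ n - 1) < 2 := by
      rw [Nat.div_lt_iff_lt_mul hN]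
      omega
    exact Nat.lt_succ_iff.mp h3
  · intro x
    have e0 : -x - 1 + 1 = -x := by ring
    have e1 : -(x + 1) = -x - 1 := by ring
    have h1 := W_step ht u (-x - 1)
    have h2 := W_step ht v (-x - 1)
    have h3 := W_step ht (u + v) (-x - 1)
    rw [e0] at h1 h2 h3
    have h4 := W_sum_add ht u v (-x)
    have h5 := W_sum_add ht u v (-x - 1)
    simp only [e1]
    unfold dg
    generalize (W t n u (-x) + W t n v (-x)) / (t ^ n - 1) = c0 at *
    generalize (W t n u (-x - 1) + W t n v (-x - 1)) / (t ^ n - 1) = c1 at *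
    generalize W t n u (-x) % t = du at *
    generalize W t n v (-x) % t = dv at *
    generalize W t n (u + v) (-x) % t = dw at *
    generalize W t n u (-x - 1) = a1 at *
    generalize W t n v (-x - 1) = b1 at *
    generalize W t n (u + v) (-x - 1) = w1 at *
    generalize W t n u (-x) = a0 at *
    generalize W t n v (-x) = b0 at *
    generalize W t n (u + v) (-x) = w0 at *
    generalize t ^ n - 1 = N at *
    apply Nat.eq_of_mul_eq_mul_left hN
    have h6 : t * (a1 + b1) = t * (N * c1 + w1) := by rw [h5]
    have h7 : t * (a1 + b1) = N * du + a0 + (N * dv + b0) := by rw [mul_add, h1, h2]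
    nlinarith

/-- the shifted copies of `d` seen from a position of `f` -/
theorem E4_geom (ht : 2 ≤ t) (h : Lvl t n m d f) {j : ZMod n} (hj : dg t n f j ≠ 0) :
    ∀ k ≤ m, (t - 1) * (∑ l ∈ range (k + 1), W t n d (j - (l : ZMod n))) +
      W t n d (j - (k : ZMod n)) = t * W t n d j := by
  obtain ⟨s, rfl⟩ : ∃ s, t = s + 1 := ⟨t - 1, by omega⟩
  intro k
  induction k with
  | zero =>
    intro _
    simp
    ring
  | succ k ih =>
    intro hk
    rw [sum_range_succ]
    have h1 := ih (by omega)
    have h2 := h.B_exact ht hj (l := k) (by omega)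
    have h3 := h.B_exact ht hj (l := k + 1) hk
    rw [h2, pow_succ, mul_assoc] at h3
    have h4 := Nat.eq_of_mul_eq_mul_left (Nat.pow_pos (by omega)) h3
    rw [h4] at h1
    rw [← h1]
    simp only [Nat.add_sub_cancel]
    ring

theorem E4_bound (ht : 2 ≤ t) (h : Lvl t n m d f) {j : ZMod n} (hj : dg t n f j ≠ 0)
    (C : ℕ → ℕ) (hC : ∀ l, C l ≤ 1) :
    (t - 1) * (∑ l ∈ range (m + 1), C l * W t n d (j - (l : ZMod n))) ≤ t * W t n d j := by
  have h1 := E4_geom ht h hj m le_rfl
  have h2 : ∑ l ∈ range (m + 1), C l * W t n d (j - (l : ZMod n)) ≤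
      ∑ l ∈ range (m + 1), W t n d (j - (l : ZMod n)) := by
    apply sum_le_sum
    intro l _
    calc C l * W t n d (j - (l : ZMod n)) ≤ 1 * W t n d (j - (l : ZMod n)) :=
          Nat.mul_le_mul_right _ (hC l)
      _ = _ := one_mul _
  have h3 := Nat.mul_le_mul_left (t - 1) h2
  omega

theorem E4_lt (ht : 2 ≤ t) (h : Lvl t n m d f) {j : ZMod n} (hj : dg t n f j ≠ 0)
    (hBj : t * W t n d j < t ^ n) (C : ℕ → ℕ) (hC : ∀ l, C l ≤ 1) :
    ∑ l ∈ range (m + 1), C l * W t n d (j - (l : ZMod n)) < t ^ n := by
  have h1 := E4_bound ht h hj C hC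
  have h2 : 1 * (∑ l ∈ range (m + 1), C l * W t n d (j - (l : ZMod n))) ≤
      (t - 1) * (∑ l ∈ range (m + 1), C l * W t n d (j - (l : ZMod n))) :=
    Nat.mul_le_mul_right _ (by omega)
  omega

theorem cC_add (C C' : ℕ → ℕ) (p : ℕ) (hpm : p < m)
    (hC' : ∀ l, C' l = C l + if l = p then 1 else 0) :
    cC t n m C' = cC t n m C + P t n (-(p : ZMod n)) := by
  unfold cC
  have h1 : ∀ l ∈ range (m + 1), (C' l : ZMod (t ^ n - 1)) * P t n (-(l : ZMod n)) =
      (C l : ZMod (t ^ n - 1)) * P t n (-(l : ZMod n)) +
        if l = p then P t n (-(p : ZMod n)) else 0 := by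
    intro l _
    rw [hC' l]
    split_ifs with hl
    · subst hl
      push_cast
      ring
    · push_cast
      ring
  rw [sum_congr rfl h1, sum_add_distrib]
  congr 1
  rw [sum_ite_eq' (range (m + 1)) p, if_pos (mem_range.mpr (by omega))]

theorem dg_shift (ht : 2 ≤ t) (p : ℕ) (x : ZMod n) :
    dg t n (d * P t n (-(p : ZMod n))) x = dg t n d (x + (p : ZMod n)) := by
  unfold dg
  rw [← W_add ht]
  congr 2
  ring

/-- adding one more shifted copy of `d` does not change the big positions -/
theorem big_unchanged (ht : 6 ≤ t) (h : Lvl t n m d f)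
    (hA : ∀ i : ZMod n, dg t n d i ≠ 0 → t * W t n f i < t ^ n)
    (hB : ∀ j : ZMod n, dg t n f j ≠ 0 → t * W t n d j < t ^ n)
    (hstar : ∀ i : ZMod n, dg t n d i ≠ 0 → (t - 1) * t ^ n < t ^ 2 * W t n f i →
      dg t n d i ≤ t - 3)
    (C C' : ℕ → ℕ) (p : ℕ) (hp1 : 1 ≤ p) (hpm : p < m) (hC : ∀ l, C l ≤ 1) (hC0 : C 0 = 1)
    (hCp : C p = 0) (hC' : ∀ l, C' l = C l + if l = p then 1 else 0)
    (hrig : ∀ y : ZMod n, dg t n (d * cC t n m C) y ≠ 0 → W t n f y % t = 0 →
      t ^ (p + 1) * W t n f y ≤ (t - 1) * t ^ n → (t - 1) * t ^ n < t ^ (p + 2) * W t n f y →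
      p + 1 = m ∧ dg t n (d * cC t n m C) y ≤ 1) :
    ∀ x : ZMod n, (t - 1) * t ^ n < t ^ (p + 1) * W t n f x →
      dg t n (d * cC t n m C') x = dg t n (d * cC t n m C) x := by
  have ht2 : 2 ≤ t := by omega
  have hN := N_succ (n := n) ht2
  have hmn := h.mn
  have hcC : cC t n m C ≠ 0 :=
    cC_ne ht2 hmn C (fun l _ => lt_of_le_of_lt (hC l) (by omega)) (by omega) (by omega)
  have hT : t ^ n ≤ (t - 1) * t ^ n := Nat.le_mul_of_pos_left _ (by omega)
  have hbnd : ∀ j : ZMod n, dg t n f j ≠ 0 →
      ∑ l ∈ range (m + 1), C l * W t n d (j - (l : ZMod n)) < t ^ n :=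
    fun j hj => E4_lt ht2 h hj (hB j hj) C hC
  -- positions of `d` seen from a shifted position
  have hshift : ∀ x : ZMod n, dg t n d (x + (p : ZMod n)) ≠ 0 →
      W t n f (x + (p : ZMod n)) = t ^ p * W t n f x ∧ t * (t ^ p * W t n f x) < t ^ n := by
    intro x hx
    have h1 := h.A_exact ht2 hx (l := p) (by omega)
    rw [show x + (p : ZMod n) - (p : ZMod n) = x by ring] at h1
    refine ⟨h1, ?_⟩
    rw [← h1]
    exact hA _ hx
  have hbig0 : ∀ x : ZMod n, (t - 1) * t ^ n < t ^ (p + 1) * W t n f x →
      dg t n d (x + (p : ZMod n)) = 0 := by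
    intro x hx
    by_contra hne
    have h1 := (hshift x hne).2
    rw [← mul_assoc, ← pow_succ'] at h1
    omega
  obtain ⟨c, hc1, hc⟩ := add_carry (n := n) ht2 (d * cC t n m C) (d * P t n (-(p : ZMod n)))
  have he' : d * cC t n m C' = d * cC t n m C + d * P t n (-(p : ZMod n)) := by
    rw [cC_add C C' p hpm hC', mul_add]
  rw [← he'] at hc
  simp only [dg_shift ht2] at hc
  have claim : ∀ (k : ℕ) (x : ZMod n), W t n f x ≤ k →
      (t - 1) * t ^ n < t ^ (p + 1) * W t n f x → c x = 0 := by
    intro k
    induction k with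
    | zero =>
      intro x hx hb
      have : W t n f x = 0 := by omega
      rw [this, mul_zero] at hb
      omega
    | succ k ih =>
      intro x hxk hb
      by_contra hcx
      have hcx1 : c x = 1 := by
        have := hc1 x
        omega
      have hrel := hc (x - 1)
      rw [show x - 1 + 1 = x by ring, hcx1, mul_one] at hrel
      have hge : t ≤ dg t n (d * cC t n m C) (x - 1) + dg t n d (x - 1 + (p : ZMod n)) +
          c (x - 1) := by omega
      have hcm := hc1 (x - 1)
      have hstep := W_step ht2 f (x - 1)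
      rw [show x - 1 + 1 = x by ring] at hstep
      have hxpos : 0 < W t n f x := by
        rcases Nat.eq_zero_or_pos (W t n f x) with h0 | h0
        · rw [h0, mul_zero] at hb
          omega
        · exact h0
      -- step 1
      have hx0 : W t n f x % t = 0 := by
        by_contra hne
        have hj : dg t n f (-x) ≠ 0 := by
          unfold dg
          rwa [neg_neg]
        have h1 : dg t n (d * cC t n m C) (x - 1) ≤ 1 := by
          have h2 := W_dig ht2 (d * cC t n m C) (-x) 1 le_rfl (n_pos (n := n))
          rw [Nat.cast_one] at h2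
          have h3 : dg t n (d * cC t n m C) (x - 1) =
              W t n (d * cC t n m C) (-x) / t ^ (n - 1) % t := by
            unfold dg
            rw [← h2]
            congr 2
            ring
          rw [h3]
          have h4 := W_cC ht2 C d (h.toGood.mul_ne hcC) (-x) (hbnd _ hj)
          have h5 := E4_bound ht2 h hj C hC
          rw [← h4] at h5
          have h6 := hB _ hj
          have h7 : t ^ n = t * t ^ (n - 1) := by
            rw [← pow_succ']
            congr 1
            have := n_pos (n := n)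
            omega
          have h8 : W t n (d * cC t n m C) (-x) < 2 * t ^ (n - 1) := by
            by_contra hcon
            push Not at hcon
            have h9 : (t - 1) * (2 * t ^ (n - 1)) ≤ (t - 1) * W t n (d * cC t n m C) (-x) :=
              Nat.mul_le_mul_left _ hcon
            have h10 : t * t ^ (n - 1) ≤ (t - 1) * (2 * t ^ (n - 1)) := by
              rw [← mul_assoc]
              exact Nat.mul_le_mul_right _ (by omega)
            omega
          have h9 : W t n (d * cC t n m C) (-x) / t ^ (n - 1) < 2 := by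
            rw [Nat.div_lt_iff_lt_mul (Nat.pow_pos (by omega))]
            exact h8
          calc W t n (d * cC t n m C) (-x) / t ^ (n - 1) % t
              ≤ W t n (d * cC t n m C) (-x) / t ^ (n - 1) := Nat.mod_le _ _
            _ ≤ 1 := by omega
        have h2 : dg t n d (x - 1 + (p : ZMod n)) = 0 := by
          by_contra hne2
          have h3 := (hshift _ hne2).2
          have h4 : t ^ n ≤ t * W t n f (x - 1) := by
            rw [hstep]
            have h5 : 1 ≤ W t n f x % t := by omega
            have h6 : t ^ n - 1 ≤ (t ^ n - 1) * (W t n f x % t) := Nat.le_mul_of_pos_right _ h5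
            omega
          have h5 : t * (t ^ p * W t n f (x - 1)) = t ^ p * (t * W t n f (x - 1)) := by ring
          have h6 : t * W t n f (x - 1) ≤ t ^ p * (t * W t n f (x - 1)) :=
            Nat.le_mul_of_pos_left _ (Nat.pow_pos (by omega))
          omega
        omega
      rw [hx0, mul_zero, zero_add] at hstep
      have hlt : W t n f (x - 1) < W t n f x := by
        rw [← hstep]
        have h0 : 0 < W t n f (x - 1) := by
          rcases Nat.eq_zero_or_pos (W t n f (x - 1)) with h0 | h0
          · rw [h0, mul_zero] at hstep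
            omega
          · exact h0
        calc W t n f (x - 1) < 2 * W t n f (x - 1) := by omega
          _ ≤ t * W t n f (x - 1) := Nat.mul_le_mul_right _ ht2
      rcases Nat.lt_or_ge ((t - 1) * t ^ n) (t ^ (p + 1) * W t n f (x - 1)) with hb1 | hb1
      · -- step 2
        have h1 := hbig0 _ hb1
        have h2 := ih (x - 1) (by omega) hb1
        have h3 := dg_lt ht2 (d * cC t n m C) (x - 1)
        omega
      · -- step 3
        have hb2 : (t - 1) * t ^ n < t ^ (p + 2) * W t n f (x - 1) := by
          rw [pow_succ, mul_assoc, hstep]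
          exact hb
        have h1 : dg t n d (x - 1 + (p : ZMod n)) ≤ t - 3 := by
          by_cases h0 : dg t n d (x - 1 + (p : ZMod n)) = 0
          · omega
          · apply hstar _ h0
            rw [(hshift _ h0).1, ← mul_assoc, ← _root_.pow_add, add_comm 2 p]
            exact hb2
        have h2 : dg t n (d * cC t n m C) (x - 1) ≤ 1 := by
          by_cases h0 : dg t n (d * cC t n m C) (x - 1) = 0
          · omega
          · by_cases h3 : W t n f (x - 1) % t = 0
            · exact (hrig _ h0 h3 hb1 hb2).2
            · exfalso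
              have hj : dg t n f (-(x - 1)) ≠ 0 := by
                unfold dg
                rwa [neg_neg]
              have h4 := h.closing ht2 C hcC hj (hbnd _ hj)
              rw [neg_neg] at h4
              have h5 : dg t n d ((m : ZMod n) - -(x - 1)) ≠ 0 := by
                intro h6
                rw [h6, mul_zero, Nat.zero_mod] at h4
                exact h0 h4
              have h6 := h.A_exact ht2 h5 (l := m) le_rfl
              rw [show (m : ZMod n) - -(x - 1) - (m : ZMod n) = x - 1 by ring] at h6
              have h7 := hA _ h5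
              rw [h6, ← mul_assoc, ← pow_succ'] at h7
              have h8 : t ^ (p + 2) * W t n f (x - 1) ≤ t ^ (m + 1) * W t n f (x - 1) :=
                Nat.mul_le_mul_right _ (Nat.pow_le_pow_right (by omega) (by omega))
              omega
        omega
  intro x hb
  have h1 := claim _ x le_rfl hb
  have h2 := hbig0 x hb
  have h3 := hc x
  rw [h1, h2] at h3
  have h4 := dg_lt ht2 (d * cC t n m C) x
  have h5 : c (x + 1) = 0 := by
    by_contra h6
    have h7 : t ≤ t * c (x + 1) := Nat.le_mul_of_pos_right _ (by omega)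
    omega
  rw [h5, mul_zero] at h3
  omega

end Pool.Agent.H54.Afa
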