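import Mathlib
import Pool.Agent.H54.Afa.Struct

set_option autoImplicit false

namespace Pool.Agent.H54.Afa

open Finset

theorem div_low (t q r a b : ℕ) (ht : 0 < t) (hr : r < t ^ a) (hab : a ≤ b) :
    (t ^ a * q + r) / t ^ b = q / t ^ (b - a) := by
  have h1 : t ^ b = t ^ a * t ^ (b - a) := by rw [← _root_.pow_add]; congr 1; omega
  rw [h1, ← Nat.div_div_eq_div_mul, Nat.mul_add_div (Nat.pow_pos ht), Nat.div_eq_of_lt hr,
    add_zero]

theorem div_high (t q r a b : ℕ) (ht : 0 < t) (hab : b < a) :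
    (t ^ a * q + r) / t ^ b % t = r / t ^ b % t := by
  have h1 : t ^ a = t ^ b * (t * t ^ (a - b - 1)) := by
    rw [← pow_succ', ← _root_.pow_add]; congr 1; omega
  rw [h1, mul_assoc, Nat.mul_add_div (Nat.pow_pos ht), mul_assoc, Nat.mul_add_mod]

theorem zero_digits (t z a : ℕ) (ht : 0 < t) : ∀ b, a ≤ b →
    (∀ c, a ≤ c → c < b → z / t ^ c % t = 0) → z % t ^ b < t ^ a := by
  intro b
  induction b with
  | zero =>
    intro hab _
    have : a = 0 := by omega
    subst this
    simp [Nat.mod_one]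
  | succ b ih =>
    intro hab hc
    rcases Nat.lt_or_ge b a with h | h
    · have : a = b + 1 := by omega
      subst this
      exact Nat.mod_lt _ (Nat.pow_pos ht)
    · rw [Nat.mod_pow_succ, hc b h (by omega), mul_zero, add_zero]
      exact ih h (fun c h1 h2 => hc c h1 (by omega))

/-- a sub-multiset whose sum falls in a window -/
theorem window {β : Type*} (F : β → ℕ) (s θ : ℕ) (hs : s < θ) (X0 : Multiset β) :
    (∀ a ∈ X0, F a < θ) → θ ≤ s + (X0.map F).sum →
    ∃ X ≤ X0, θ ≤ s + (X.map F).sum ∧ s + (X.map F).sum < 2 * θ := by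
  induction X0 using Multiset.induction_on with
  | empty => intro _ h; simp at h; omega
  | cons a X0 ih =>
    intro h1 h2
    rcases Nat.lt_or_ge (s + (X0.map F).sum) θ with h | h
    · refine ⟨a ::ₘ X0, le_rfl, h2, ?_⟩
      rw [Multiset.map_cons, Multiset.sum_cons]
      have := h1 a (Multiset.mem_cons_self a X0)
      omega
    · obtain ⟨X, hX, h3⟩ := ih (fun b hb => h1 b (Multiset.mem_cons_of_mem hb)) h
      exact ⟨X, hX.trans (Multiset.le_cons_self X0 a), h3⟩

section
variable {t n m : ℕ} [NeZero n] {d f : ZMod (t ^ n - 1)}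

/-- exactness for coefficients `0, 1` -/
theorem exact01 (ht : 2 ≤ t) (h : Lvl t n m d f)
    (hB : ∀ j : ZMod n, dg t n f j ≠ 0 → t * W t n d j < t ^ n)
    (C : ℕ → ℕ) (hC : ∀ l, C l ≤ 1) (j : ZMod n) (hj : dg t n f j ≠ 0) :
    ∑ l ∈ range (m + 1), C l * W t n d (j - (l : ZMod n)) < t ^ n := by
  have key : ∀ k ≤ m, (t - 1) * ∑ l ∈ range (k + 1), W t n d (j - (l : ZMod n))
      + W t n d (j - (k : ZMod n)) ≤ t * W t n d j := by
    intro k
    induction k with
    | zero =>
      intro _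
      simp only [zero_add, range_one, sum_singleton, Nat.cast_zero, sub_zero]
      rw [← Nat.succ_mul]
      exact Nat.mul_le_mul_right _ (by omega)
    | succ k ih =>
      intro hk
      have h1 := ih (by omega)
      have h2 : W t n d (j - (k : ZMod n)) = t * W t n d (j - ((k + 1 : ℕ) : ZMod n)) := by
        have h3 := h.B_zero hj (l := k) (by omega)
        have h4 : j - ((k + 1 : ℕ) : ZMod n) + 1 = j - (k : ZMod n) := by push_cast; ring
        rw [← h4] at h3 ⊢
        exact W_eq_mul_of_dvd ht d _ h3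
      rw [sum_range_succ, mul_add]
      have h5 : (t - 1) * W t n d (j - ((k + 1 : ℕ) : ZMod n)) + W t n d (j - ((k + 1 : ℕ) : ZMod n))
          = t * W t n d (j - ((k + 1 : ℕ) : ZMod n)) := by
        rw [← Nat.succ_mul]; congr 1; omega
      omega
  have h1 := key m le_rfl
  have h2 := hB j hj
  have h3 : ∑ l ∈ range (m + 1), C l * W t n d (j - (l : ZMod n))
      ≤ ∑ l ∈ range (m + 1), W t n d (j - (l : ZMod n)) := by
    apply sum_le_sum
    intro l _
    calc C l * W t n d (j - (l : ZMod n)) ≤ 1 * W t n d (j - (l : ZMod n)) :=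
          Nat.mul_le_mul_right _ (hC l)
      _ = _ := one_mul _
  have h4 : 1 * ∑ l ∈ range (m + 1), W t n d (j - (l : ZMod n))
      ≤ (t - 1) * ∑ l ∈ range (m + 1), W t n d (j - (l : ZMod n)) :=
    Nat.mul_le_mul_right _ (by omega)
  omega

theorem cC_ne01 (ht : 3 ≤ t) (h : Lvl t n m d f) (C : ℕ → ℕ) (hC : ∀ l, C l ≤ 1)
    (hC0 : C 0 = 1) : cC t n m C ≠ 0 :=
  cC_ne (by omega) h.mn C (fun l _ => by have := hC l; omega) (by omega) (by omega)

/-- mass of the closing positions -/
noncomputable def clo (t n m : ℕ) [NeZero n] (d f : ZMod (t ^ n - 1)) : ℕ :=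
  ∑ x ∈ (univ : Finset (ZMod n)).filter (fun x => W t n f x % t ≠ 0),
    dg t n d (x + (m : ZMod n)) * W t n f x

theorem clo_le (ht : 2 ≤ t) (h : Lvl t n m d f) : clo t n m d f ≤ t ^ (n - m) := by
  have hmn := h.mn
  have h1 : t ^ m * clo t n m d f ≤ t ^ n := by
    rw [← h.a2]
    unfold clo
    rw [mul_sum]
    calc ∑ x ∈ (univ : Finset (ZMod n)).filter (fun x => W t n f x % t ≠ 0),
          t ^ m * (dg t n d (x + (m : ZMod n)) * W t n f x)
        ≤ ∑ x : ZMod n, t ^ m * (dg t n d (x + (m : ZMod n)) * W t n f x) :=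
          sum_le_sum_of_subset (filter_subset _ _)
      _ = ∑ x : ZMod n, dg t n d (x + (m : ZMod n)) * W t n f (x + (m : ZMod n)) := by
          apply sum_congr rfl
          intro x _
          by_cases hx : dg t n d (x + (m : ZMod n)) = 0
          · rw [hx]; simp
          · rw [h.A_exact ht hx (l := m) le_rfl, add_sub_cancel_right]; ring
      _ = ∑ i : ZMod n, dg t n d i * W t n f i := by
          apply Fintype.sum_equiv (Equiv.addRight (m : ZMod n))
          intro x; rfl
  have h2 : t ^ n = t ^ m * t ^ (n - m) := by rw [← _root_.pow_add]; congr 1; omega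
  rw [h2] at h1
  exact Nat.le_of_mul_le_mul_left h1 (Nat.pow_pos (by omega))

theorem closing' (ht : 3 ≤ t) (h : Lvl t n m d f)
    (hB : ∀ j : ZMod n, dg t n f j ≠ 0 → t * W t n d j < t ^ n)
    (C : ℕ → ℕ) (hC : ∀ l, C l ≤ 1) (hC0 : C 0 = 1) (hCm : C m = 1) (x : ZMod n)
    (hx : W t n f x % t ≠ 0) :
    dg t n (d * cC t n m C) x = dg t n d (x + (m : ZMod n)) := by
  have hj : dg t n f (-x) ≠ 0 := by unfold dg; rwa [neg_neg]
  have h1 := h.closing (by omega) C (cC_ne01 ht h C hC hC0) hj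
    (exact01 (by omega) h hB C hC _ hj)
  rw [neg_neg, sub_neg_eq_add, add_comm, hCm, one_mul] at h1
  rw [h1, Nat.mod_eq_of_lt (dg_lt (by omega) d _)]

/-- total mass of the non-closing positions -/
theorem mass01 (ht : 3 ≤ t) (h : Lvl t n m d f)
    (hB : ∀ j : ZMod n, dg t n f j ≠ 0 → t * W t n d j < t ^ n)
    (C : ℕ → ℕ) (hC : ∀ l, C l ≤ 1) (hC0 : C 0 = 1) (hCm : C m = 1) :
    ∑ x ∈ (univ : Finset (ZMod n)).filter (fun x => W t n f x % t = 0),
      dg t n (d * cC t n m C) x * W t n f x + clo t n m d f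
      = ∑ l ∈ range (m + 1), C l * t ^ (n - l) := by
  rw [← h.mass (by omega) C (cC_ne01 ht h C hC hC0) (exact01 (by omega) h hB C hC)]
  rw [← sum_filter_add_sum_filter_not (univ : Finset (ZMod n)) (fun x => W t n f x % t = 0)
    (fun x => dg t n (d * cC t n m C) x * W t n f x)]
  congr 1
  unfold clo
  apply sum_congr rfl
  intro x hx
  rw [mem_filter] at hx
  rw [closing' ht h hB C hC hC0 hCm x hx.2]

/-- winning criterion for coefficients `0, 1` and any multiset of positions with one closing -/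
theorem finish (ht : 3 ≤ t) (h : Lvl t n m d f)
    (hB : ∀ j : ZMod n, dg t n f j ≠ 0 → t * W t n d j < t ^ n)
    (C : ℕ → ℕ) (hC : ∀ l, C l ≤ 1) (hC0 : C 0 = 1) (x1 : ZMod n)
    (hx1 : W t n f x1 % t ≠ 0) (Y : Multiset (ZMod n)) (hY : ∀ y ∈ Y, W t n f y % t = 0)
    (hM : ∀ x, (x1 ::ₘ Y).count x ≤ dg t n (d * cC t n m C) x)
    (hS : W t n f x1 + (Y.map (W t n f)).sum < t ^ n)
    (hcov : ∀ l, 1 ≤ l → l ≤ m →
      C l ≤ (W t n f x1 + (Y.map (W t n f)).sum) / t ^ (n - l) % t) : Pair t n d f := by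
  have hmn := h.mn
  have hm1 := h.m1
  have hcne := cC_ne01 ht h C hC hC0
  have hsum : ((x1 ::ₘ Y).map (W t n f)).sum = W t n f x1 + (Y.map (W t n f)).sum := by
    rw [Multiset.map_cons, Multiset.sum_cons]
  refine win (by omega) h.fd (cC t n m C) hcne (x1 ::ₘ Y) hM Multiset.cons_ne_zero ?_ ?_ ?_
  · rw [hsum]; exact hS
  · rw [hsum]
    apply cC_cov (by omega) hmn C (fun l _ => by have := hC l; omega) (by omega) _ _ hcov
    have h2 : (Y.map (W t n f)).sum % t = 0 := by
      apply Nat.mod_eq_zero_of_dvd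
      apply Multiset.dvd_sum
      intro a ha
      rw [Multiset.mem_map] at ha
      obtain ⟨y, hy, rfl⟩ := ha
      exact Nat.dvd_of_mod_eq_zero (hY y hy)
    rw [Nat.add_mod, h2, add_zero, Nat.mod_mod, hC0]
    exact Nat.one_le_iff_ne_zero.mpr hx1
  · rw [hsum, h.mass (by omega) C hcne (exact01 (by omega) h hB C hC)]
    refine lt_of_lt_of_le hS ?_
    have h3 : C 0 * t ^ (n - 0) ≤ ∑ l ∈ range (m + 1), C l * t ^ (n - l) :=
      single_le_sum (f := fun l => C l * t ^ (n - l)) (fun _ _ => Nat.zero_le _)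
        (mem_range.mpr (by omega))
    rw [hC0, one_mul, Nat.sub_zero] at h3
    exact h3

end

end Pool.Agent.H54.Afa
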