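import Mathlib
import Pool.Agent.H54.Afa.E4Prep
import Pool.Agent.H54.Afa.E4Carry

set_option autoImplicit false

namespace Pool.Agent.H54.Afa

open Finset

section
variable {t n m : ℕ} [NeZero n] {d f : ZMod (t ^ n - 1)}

/-- state of the engine E4 at level `p` -/
structure St (t n m : ℕ) [NeZero n] (d f : ZMod (t ^ n - 1)) (p : ℕ) (C : ℕ → ℕ)
    (x1 : ZMod n) (Y : Multiset (ZMod n)) (q s : ℕ) : Prop where
  hpm : p < m
  hC : ∀ l, C l ≤ 1
  hC0 : C 0 = 1
  hCm : C m = 1
  hCz : ∀ l, p < l → l < m → C l = 0
  hx1 : W t n f x1 % t ≠ 0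
  hx1' : dg t n d (x1 + (m : ZMod n)) ≠ 0
  hY : ∀ y ∈ Y, W t n f y % t = 0 ∧ (t - 1) * t ^ n < t ^ (p + 1) * W t n f y
  hYc : ∀ y, Y.count y ≤ 1
  hYE : ∀ y ∈ Y, dg t n (d * cC t n m C) y ≠ 0
  hS : W t n f x1 + (Y.map (W t n f)).sum = t ^ (n - p) * q + s
  hs : s < t ^ (n - m)
  hq : q < t ^ p
  hdig : ∀ l, 1 ≤ l → l ≤ p → C l ≤ q / t ^ (p - l) % t
  hlow : t ^ (n - p) ≤ ∑ x ∈ (univ : Finset (ZMod n)).filter
    (fun x => W t n f x % t = 0 ∧ t ^ (p + 1) * W t n f x ≤ (t - 1) * t ^ n),
      dg t n (d * cC t n m C) x * W t n f x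

/-- finish with extra low coins -/
theorem St.fin (ht : 3 ≤ t) (h : Lvl t n m d f)
    (hB : ∀ j : ZMod n, dg t n f j ≠ 0 → t * W t n d j < t ^ n)
    {p : ℕ} {C : ℕ → ℕ} {x1 : ZMod n} {Y : Multiset (ZMod n)} {q s : ℕ}
    (hst : St t n m d f p C x1 Y q s) (X : Multiset (ZMod n))
    (hX : ∀ x, X.count x ≤ if W t n f x % t = 0 ∧ t ^ (p + 1) * W t n f x ≤ (t - 1) * t ^ n
      then dg t n (d * cC t n m C) x else 0)
    (hlt : s + (X.map (W t n f)).sum < t ^ (n - p))
    (hdm : (s + (X.map (W t n f)).sum) / t ^ (n - m) % t ≠ 0) : Pair t n d f := by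
  classical
  have hmn := h.mn
  have hm1 := h.m1
  have hpm := hst.hpm
  have hXp : ∀ x ∈ X, W t n f x % t = 0 ∧ t ^ (p + 1) * W t n f x ≤ (t - 1) * t ^ n := by
    intro x hx
    by_contra hcon
    have h1 := hX x
    rw [if_neg hcon] at h1
    have h2 : 0 < X.count x := Multiset.count_pos.mpr hx
    omega
  have hsum : W t n f x1 + ((Y + X).map (W t n f)).sum
      = t ^ (n - p) * q + (s + (X.map (W t n f)).sum) := by
    rw [Multiset.map_add, Multiset.sum_add]
    have := hst.hS
    omega
  apply finish ht h hB C hst.hC hst.hC0 x1 hst.hx1 (Y + X)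
  · intro y hy
    rw [Multiset.mem_add] at hy
    rcases hy with hy | hy
    · exact (hst.hY y hy).1
    · exact (hXp y hy).1
  · intro x
    rw [Multiset.count_cons, Multiset.count_add]
    by_cases hx : x = x1
    · rw [if_pos hx]
      subst hx
      have h1 : Y.count x = 0 := by
        rw [Multiset.count_eq_zero]
        intro hmem
        exact hst.hx1 (hst.hY x hmem).1
      have h2 : X.count x = 0 := by
        rw [Multiset.count_eq_zero]
        intro hmem
        exact hst.hx1 (hXp x hmem).1
      rw [h1, h2, closing' ht h hB C hst.hC hst.hC0 hst.hCm x hst.hx1]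
      have := hst.hx1'
      omega
    · rw [if_neg hx, add_zero]
      by_cases hxY : x ∈ Y
      · have h2 : X.count x = 0 := by
          rw [Multiset.count_eq_zero]
          intro hmem
          have h3 := (hst.hY x hxY).2
          have h4 := (hXp x hmem).2
          omega
        have h5 := hst.hYc x
        have h6 := hst.hYE x hxY
        omega
      · rw [Multiset.count_eq_zero_of_notMem hxY, zero_add]
        refine (hX x).trans ?_
        split_ifs
        · exact le_rfl
        · exact Nat.zero_le _
  · rw [hsum]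
    have h1 : t ^ (n - p) * q + t ^ (n - p) ≤ t ^ n := by
      rw [← Nat.mul_succ]
      calc t ^ (n - p) * (q + 1) ≤ t ^ (n - p) * t ^ p := Nat.mul_le_mul_left _ hst.hq
        _ = t ^ n := by rw [← _root_.pow_add]; congr 1; omega
    omega
  · intro l hl1 hlm
    rw [hsum]
    rcases Nat.lt_or_ge p l with hl | hl
    · rcases Nat.lt_or_ge l m with hl2 | hl2
      · rw [hst.hCz l hl hl2]; exact Nat.zero_le _
      · have : l = m := by omega
        subst this
        rw [hst.hCm, div_high t q _ _ _ (by omega) (by omega)]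
        exact Nat.one_le_iff_ne_zero.mpr hdm
    · rw [div_low t q _ _ _ (by omega) hlt (by omega)]
      have := hst.hdig l hl1 hl
      rwa [show n - l - (n - p) = p - l by omega]

/-- the engine E4, one level after another -/
theorem E4_step (ht : 6 ≤ t) (h : Lvl t n m d f)
    (hA : ∀ i : ZMod n, dg t n d i ≠ 0 → t * W t n f i < t ^ n)
    (hB : ∀ j : ZMod n, dg t n f j ≠ 0 → t * W t n d j < t ^ n)
    (hstar : ∀ i : ZMod n, dg t n d i ≠ 0 → (t - 1) * t ^ n < t ^ 2 * W t n f i →
      dg t n d i ≤ t - 3) :
    ∀ (k p : ℕ) (C : ℕ → ℕ) (x1 : ZMod n) (Y : Multiset (ZMod n)) (q s : ℕ),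
      m - p ≤ k → St t n m d f p C x1 Y q s → Pair t n d f := by
  classical
  intro k
  induction k with
  | zero =>
    intro p C x1 Y q s hk hst
    have := hst.hpm
    omega
  | succ k ih =>
    intro p C x1 Y q s hk hst
    have hmn := h.mn
    have hm1 := h.m1
    have hpm := hst.hpm
    by_contra hno
    set E := dg t n (d * cC t n m C) with hE
    set A := W t n f with hAdef
    set θ := t ^ (n - m) with hθ
    have hθpos : 0 < θ := Nat.pow_pos (by omega)
    have hs := hst.hs
    have htp : t ^ (n - p) = t ^ (m - p) * θ := by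
      rw [hθ, ← _root_.pow_add]; congr 1; omega
    have htθ : t * θ ≤ t ^ (n - p) := by
      rw [htp]
      apply Nat.mul_le_mul_right
      calc t = t ^ 1 := (pow_one t).symm
        _ ≤ t ^ (m - p) := Nat.pow_le_pow_right (by omega) (by omega)
    have h2θ : 2 * θ ≤ t * θ := Nat.mul_le_mul_right _ (by omega)
    have h3θ : 3 * θ ≤ t * θ := Nat.mul_le_mul_right _ (by omega)
    -- bound on low coins
    have hlowb : ∀ (a b : ℕ), b < n → t ^ (b + 1) * a ≤ (t - 1) * t ^ n →
        a + t ^ (n - b - 1) ≤ t ^ (n - b) := by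
      intro a b hb hab
      have h1 : t ^ n = t ^ (b + 1) * t ^ (n - b - 1) := by
        rw [← _root_.pow_add]; congr 1; omega
      have h2 : a ≤ (t - 1) * t ^ (n - b - 1) := by
        rw [h1] at hab
        apply Nat.le_of_mul_le_mul_left _ (Nat.pow_pos (n := b + 1) (by omega : 0 < t))
        calc t ^ (b + 1) * a ≤ (t - 1) * (t ^ (b + 1) * t ^ (n - b - 1)) := hab
          _ = t ^ (b + 1) * ((t - 1) * t ^ (n - b - 1)) := by ring
      have h3 : t ^ (n - b) = (t - 1) * t ^ (n - b - 1) + t ^ (n - b - 1) := by
        rw [← Nat.succ_mul, show (t - 1).succ = t by omega, ← pow_succ']; congr 1; omega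
      omega
    have hlow1 : ∀ x, t ^ (p + 1) * A x ≤ (t - 1) * t ^ n → s + A x < t ^ (n - p) := by
      intro x hx
      have h1 := hlowb (A x) p (by omega) hx
      have h2 : θ ≤ t ^ (n - p - 1) := Nat.pow_le_pow_right (by omega) (by omega)
      omega
    -- (i)
    have hi : ∀ x, E x ≠ 0 → A x % t = 0 → t ^ (p + 1) * A x ≤ (t - 1) * t ^ n →
        (s + A x) / θ % t = 0 := by
      intro x hx1 hx2 hx3
      by_contra hcon
      apply hno
      apply hst.fin (by omega) h hB {x}
      · intro y
        rw [Multiset.count_singleton]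
        by_cases hy : y = x
        · rw [if_pos hy, hy, if_pos ⟨hx2, hx3⟩]
          exact Nat.one_le_iff_ne_zero.mpr hx1
        · rw [if_neg hy]; exact Nat.zero_le _
      · rw [Multiset.map_singleton, Multiset.sum_singleton]
        exact hlow1 x hx3
      · rw [Multiset.map_singleton, Multiset.sum_singleton]
        exact hcon
    -- (i')
    have hi' : ∀ x, A x % t = 0 → t ^ (p + 1) * A x ≤ (t - 1) * t ^ n → A x < θ →
        (t - 1) * θ < t * A x → E x ≤ 1 := by
      intro x hx2 hx3 hx4 hx5
      by_contra hcon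
      apply hno
      have h1 : θ ≤ s + 2 * A x := by
        by_contra h2
        have h3 : t * (2 * A x) < t * θ := Nat.mul_lt_mul_of_pos_left (by omega) (by omega)
        have h4 : (t - 1) * θ + θ = t * θ := by
          rw [← Nat.succ_mul]; congr 1; omega
        have h5 : 2 * θ ≤ t * θ := h2θ
        have h6 : t * (2 * A x) = 2 * (t * A x) := by ring
        omega
      apply hst.fin (by omega) h hB (Multiset.replicate 2 x)
      · intro y
        rw [Multiset.count_replicate]
        by_cases hy : x = y
        · rw [if_pos hy, ← hy, if_pos ⟨hx2, hx3⟩]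
          have hEx : dg t n (d * cC t n m C) x = E x := rfl
          omega
        · rw [if_neg hy]; exact Nat.zero_le _
      · rw [Multiset.map_replicate, Multiset.sum_replicate, smul_eq_mul]
        have hAx : W t n f x = A x := rfl
        omega
      · rw [Multiset.map_replicate, Multiset.sum_replicate, smul_eq_mul]
        change (s + 2 * A x) / θ % t ≠ 0
        have h3 : (s + 2 * A x) / θ < t := by
          rw [Nat.div_lt_iff_lt_mul hθpos]; omega
        have h4 : 1 ≤ (s + 2 * A x) / θ := by
          rw [Nat.one_le_div_iff hθpos]; exact h1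
        rw [Nat.mod_eq_of_lt h3]
        omega
    -- (ii)
    have hii : ∃ x, E x ≠ 0 ∧ A x % t = 0 ∧ t ^ (p + 1) * A x ≤ (t - 1) * t ^ n ∧
        θ ≤ s + A x := by
      by_contra hcon
      push Not at hcon
      set X0 : Multiset (ZMod n) := ∑ x : ZMod n, Multiset.replicate
        (if A x % t = 0 ∧ t ^ (p + 1) * A x ≤ (t - 1) * t ^ n then E x else 0) x with hX0
      have hcount : ∀ x, X0.count x
          = if A x % t = 0 ∧ t ^ (p + 1) * A x ≤ (t - 1) * t ^ n then E x else 0 := by
        intro x
        rw [hX0, Multiset.count_sum']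
        simp [Multiset.count_replicate]
      have hmem : ∀ x ∈ X0, A x < θ := by
        intro x hx
        have h1 : 0 < X0.count x := Multiset.count_pos.mpr hx
        rw [hcount] at h1
        split_ifs at h1 with h2
        · have := hcon x (by omega) h2.1 h2.2
          omega
        · omega
      have hX0s : (X0.map A).sum = ∑ x ∈ (univ : Finset (ZMod n)).filter
          (fun x => A x % t = 0 ∧ t ^ (p + 1) * A x ≤ (t - 1) * t ^ n), E x * A x := by
        rw [sum_map_eq_count, sum_filter]
        apply sum_congr rfl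
        intro x _
        rw [hcount, smul_eq_mul]
        split_ifs <;> simp
      have hbig : θ ≤ s + (X0.map A).sum := by
        rw [hX0s]
        have := hst.hlow
        have h2 : θ ≤ t ^ (n - p) := by omega
        exact (h2.trans this).trans (Nat.le_add_left _ _)
      obtain ⟨X, hX, h1, h2⟩ := window A s θ hs X0 hmem hbig
      apply hno
      apply hst.fin (by omega) h hB X
      · intro x
        rw [← hcount x]
        exact Multiset.count_le_of_le x hX
      · change s + (X.map A).sum < t ^ (n - p)
        omega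
      · have h3 : (s + (X.map A).sum) / θ < t := by
          rw [Nat.div_lt_iff_lt_mul hθpos]; omega
        have h4 : 1 ≤ (s + (X.map A).sum) / θ := by
          rw [Nat.one_le_div_iff hθpos]; exact h1
        have h5 : (s + (X.map A).sum) / θ % t ≠ 0 := by
          rw [Nat.mod_eq_of_lt h3]; omega
        exact h5
    -- (iii) the last level
    set Q : ℕ → Prop := fun l => p < l ∧ l < m ∧ ∃ x, E x ≠ 0 ∧ A x % t = 0 ∧
      t ^ (p + 1) * A x ≤ (t - 1) * t ^ n ∧ (s + A x) / t ^ (n - l) % t ≠ 0 with hQ
    have hQex : ∃ l, Q l := by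
      obtain ⟨x, hx1, hx2, hx3, hx4⟩ := hii
      by_contra hcon
      push Not at hcon
      have h1 : (s + A x) % t ^ (n - p) < θ := by
        apply zero_digits t (s + A x) (n - m) (by omega) (n - p) (by omega)
        intro c hc1 hc2
        rcases Nat.lt_or_ge (n - m) c with hc3 | hc3
        · by_contra hne
          apply hcon (n - c)
          refine ⟨by omega, by omega, x, hx1, hx2, hx3, ?_⟩
          rw [show n - (n - c) = c by omega]
          exact hne
        · have : c = n - m := by omega
          rw [this]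
          exact hi x hx1 hx2 hx3
      rw [Nat.mod_eq_of_lt (hlow1 x hx3)] at h1
      omega
    obtain ⟨p', hp', hp'max⟩ : ∃ p', Q p' ∧ ∀ l, p' < l → ¬ Q l := by
      obtain ⟨l0, hl0⟩ := hQex
      have hb : l0 ≤ m := by have := hl0.2.1; omega
      refine ⟨Nat.findGreatest Q m, Nat.findGreatest_spec hb hl0, ?_⟩
      intro l hl hQl
      exact Nat.findGreatest_is_greatest hl (by have := hQl.2.1; omega) hQl
    obtain ⟨hpp, hp'm, y, hy1, hy2, hy3, hy4⟩ := hp'
    -- all digits at levels > p' vanish
    have hsmall : ∀ x, E x ≠ 0 → A x % t = 0 → t ^ (p + 1) * A x ≤ (t - 1) * t ^ n →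
        (s + A x) % t ^ (n - p') < θ := by
      intro x hx1 hx2 hx3
      apply zero_digits t (s + A x) (n - m) (by omega) (n - p') (by omega)
      intro c hc1 hc2
      rcases Nat.lt_or_ge (n - m) c with hc3 | hc3
      · by_contra hne
        apply hp'max (n - c) (by omega)
        refine ⟨by omega, by omega, x, hx1, hx2, hx3, ?_⟩
        rw [show n - (n - c) = c by omega]
        exact hne
      · have : c = n - m := by omega
        rw [this]
        exact hi x hx1 hx2 hx3
    set K := t ^ (n - p') with hK
    have hKpos : 0 < K := Nat.pow_pos (by omega)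
    have hKθ : θ ≤ t ^ (n - p' - 1) := Nat.pow_le_pow_right (by omega) (by omega)
    have hpow : ∀ b, b ≤ n → t ^ n = t ^ b * t ^ (n - b) := by
      intro b hb
      rw [← _root_.pow_add]; congr 1; omega
    have hlow_mono : ∀ x, t ^ (p' + 1) * A x ≤ (t - 1) * t ^ n →
        t ^ (p + 1) * A x ≤ (t - 1) * t ^ n := by
      intro x hx
      refine le_trans (Nat.mul_le_mul_right _ ?_) hx
      exact Nat.pow_le_pow_right (by omega) (by omega)
    have hbig_mono : ∀ x, (t - 1) * t ^ n < t ^ (p + 1) * A x →
        (t - 1) * t ^ n < t ^ (p' + 1) * A x := by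
      intro x hx
      refine lt_of_lt_of_le hx (Nat.mul_le_mul_right _ ?_)
      exact Nat.pow_le_pow_right (by omega) (by omega)
    -- the new C
    set C' : ℕ → ℕ := fun l => C l + if l = p' then 1 else 0 with hC'
    have hCp' : C p' = 0 := hst.hCz p' hpp hp'm
    have hC'1 : ∀ l, C' l ≤ 1 := by
      intro l
      simp only [hC']
      by_cases hl : l = p'
      · rw [if_pos hl, hl, hCp']
      · rw [if_neg hl, add_zero]; exact hst.hC l
    have hC'0 : C' 0 = 1 := by
      simp only [hC']
      rw [if_neg (by omega), add_zero]; exact hst.hC0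
    have hC'm : C' m = 1 := by
      simp only [hC']
      rw [if_neg (by omega), add_zero]; exact hst.hCm
    -- y is big at p'
    have hybig : (t - 1) * t ^ n < t ^ (p' + 1) * A y := by
      have h1 : K ≤ s + A y := by
        by_contra hcon
        apply hy4
        rw [Nat.div_eq_of_lt (by omega), Nat.zero_mod]
      have h2 : K = (t - 1) * t ^ (n - p' - 1) + t ^ (n - p' - 1) := by
        rw [← Nat.succ_mul, show (t - 1).succ = t by omega, ← pow_succ', hK]; congr 1; omega
      have h3 : (t - 1) * t ^ (n - p' - 1) < A y := by omega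
      calc (t - 1) * t ^ n = t ^ (p' + 1) * ((t - 1) * t ^ (n - p' - 1)) := by
            rw [hpow (p' + 1) (by omega), show n - (p' + 1) = n - p' - 1 by omega]; ring
        _ < t ^ (p' + 1) * A y := Nat.mul_lt_mul_of_pos_left h3 (Nat.pow_pos (by omega))
    -- rigidity
    have hrig : ∀ y : ZMod n, E y ≠ 0 → A y % t = 0 →
        t ^ (p' + 1) * A y ≤ (t - 1) * t ^ n → (t - 1) * t ^ n < t ^ (p' + 2) * A y →
        p' + 1 = m ∧ E y ≤ 1 := by
      intro x hx1 hx2 hx3 hx4
      have h1 := hsmall x hx1 hx2 (hlow_mono x hx3)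
      have h2 := hlowb (A x) p' (by omega) hx3
      rw [Nat.mod_eq_of_lt (by omega)] at h1
      have h3 : (t - 1) * t ^ (n - (p' + 2)) < A x := by
        rw [hpow (p' + 2) (by omega)] at hx4
        apply Nat.lt_of_mul_lt_mul_left (a := t ^ (p' + 2))
        calc t ^ (p' + 2) * ((t - 1) * t ^ (n - (p' + 2)))
            = (t - 1) * (t ^ (p' + 2) * t ^ (n - (p' + 2))) := by ring
          _ < _ := hx4
      have h4 : p' + 1 = m := by
        by_contra hne
        have h5 : θ ≤ t ^ (n - (p' + 2)) := Nat.pow_le_pow_right (by omega) (by omega)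
        have h6 : 1 * t ^ (n - (p' + 2)) ≤ (t - 1) * t ^ (n - (p' + 2)) :=
          Nat.mul_le_mul_right _ (by omega)
        omega
      refine ⟨h4, ?_⟩
      apply hi' x hx2 (hlow_mono x hx3) (by omega)
      have h7 : t * t ^ (n - (p' + 2)) = θ := by
        rw [hθ, ← pow_succ']; congr 1; omega
      calc (t - 1) * θ = t * ((t - 1) * t ^ (n - (p' + 2))) := by rw [← h7]; ring
        _ < t * A x := Nat.mul_lt_mul_of_pos_left h3 (by omega)
    have hbu := big_unchanged ht h hA hB hstar C C' p' (by omega) hp'm hst.hC hst.hC0 hCp'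
      (fun l => rfl) hrig
    have hyY : y ∉ Y := by
      intro hmem
      exact absurd (hst.hY y hmem).2 (not_lt.mpr hy3)
    -- new state
    apply hno
    set z := s + A y with hz
    have hzlt : z < t ^ (n - p) := hlow1 y hy3
    have hpK : t ^ (n - p) = K * t ^ (p' - p) := by
      rw [hK, ← _root_.pow_add]; congr 1; omega
    have hzdm : K * (z / K) + z % K = z := Nat.div_add_mod _ _
    have hzK : z / K < t ^ (p' - p) := by
      rw [Nat.div_lt_iff_lt_mul hKpos, mul_comm, ← hpK]; exact hzlt
    apply ih p' C' x1 (y ::ₘ Y) (t ^ (p' - p) * q + z / K) (z % K) (by omega)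
    refine
      { hpm := hp'm
        hC := hC'1
        hC0 := hC'0
        hCm := hC'm
        hCz := ?_
        hx1 := hst.hx1
        hx1' := hst.hx1'
        hY := ?_
        hYc := ?_
        hYE := ?_
        hS := ?_
        hs := hsmall y hy1 hy2 hy3
        hq := ?_
        hdig := ?_
        hlow := ?_ }
    · intro l hl1 hl2
      simp only [hC']
      rw [if_neg (by omega), add_zero]
      exact hst.hCz l (by omega) hl2
    · intro w hw
      rw [Multiset.mem_cons] at hw
      rcases hw with rfl | hw
      · exact ⟨hy2, hybig⟩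
      · exact ⟨(hst.hY w hw).1, hbig_mono w (hst.hY w hw).2⟩
    · intro w
      rw [Multiset.count_cons]
      by_cases hw : w = y
      · rw [if_pos hw, hw, Multiset.count_eq_zero_of_notMem hyY]
      · rw [if_neg hw, add_zero]; exact hst.hYc w
    · intro w hw
      rw [Multiset.mem_cons] at hw
      rcases hw with rfl | hw
      · rw [hbu _ hybig]; exact hy1
      · rw [hbu _ (hbig_mono w (hst.hY w hw).2)]; exact hst.hYE w hw
    · rw [Multiset.map_cons, Multiset.sum_cons]
      have h1 := hst.hS
      have h2 : K * (t ^ (p' - p) * q + z / K) + z % K = t ^ (n - p) * q + z := by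
        rw [hpK, mul_add, add_assoc, hzdm]; ring
      rw [h2]
      change A x1 + (A y + (Y.map A).sum) = _
      have h3 : A x1 + (Y.map A).sum = t ^ (n - p) * q + s := h1
      clear_value z E A
      omega
    · have h1 : t ^ (p' - p) * q + t ^ (p' - p) ≤ t ^ p' := by
        rw [← Nat.mul_succ]
        calc t ^ (p' - p) * (q + 1) ≤ t ^ (p' - p) * t ^ p := Nat.mul_le_mul_left _ hst.hq
          _ = t ^ p' := by rw [← _root_.pow_add]; congr 1; omega
      omega
    · intro l hl1 hl2
      rcases Nat.lt_or_ge p l with hl | hl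
      · rcases Nat.lt_or_ge l p' with hl3 | hl3
        · simp only [hC']
          rw [if_neg (by omega), add_zero, hst.hCz l hl (by omega)]
          exact Nat.zero_le _
        · have hlp : l = p' := by omega
          subst hlp
          refine (hC'1 l).trans ?_
          rw [show l - l = 0 by omega, pow_zero, Nat.div_one]
          have h1 : t ^ (l - p) = t * t ^ (l - p - 1) := by
            rw [← pow_succ']; congr 1; omega
          rw [h1, mul_assoc, Nat.mul_add_mod]
          exact Nat.one_le_iff_ne_zero.mpr hy4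
      · simp only [hC']
        rw [if_neg (by omega), add_zero]
        have h1 := hst.hdig l hl1 hl
        rw [div_low t q (z / K) (p' - p) (p' - l) (by omega) hzK (by omega)]
        rwa [show p' - l - (p' - p) = p - l by omega]
    · -- mass
      have hm1' := mass01 (by omega) h hB C hst.hC hst.hC0 hst.hCm
      have hm2' := mass01 (by omega) h hB C' hC'1 hC'0 hC'm
      have hsumC : ∑ l ∈ range (m + 1), C' l * t ^ (n - l)
          = ∑ l ∈ range (m + 1), C l * t ^ (n - l) + K := by
        simp only [hC', add_mul, sum_add_distrib]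
        congr 1
        rw [sum_eq_single p']
        · rw [if_pos rfl, one_mul]
        · intro b _ hb
          rw [if_neg hb, zero_mul]
        · intro hcon
          exact absurd (mem_range.mpr (by omega)) hcon
      have hsplit : ∀ G : ZMod n → ℕ,
          ∑ x ∈ (univ : Finset (ZMod n)).filter (fun x => W t n f x % t = 0), G x
          = ∑ x ∈ (univ : Finset (ZMod n)).filter
              (fun x => W t n f x % t = 0 ∧ t ^ (p' + 1) * W t n f x ≤ (t - 1) * t ^ n), G x
            + ∑ x ∈ (univ : Finset (ZMod n)).filter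
              (fun x => W t n f x % t = 0 ∧ ¬ t ^ (p' + 1) * W t n f x ≤ (t - 1) * t ^ n),
                G x := by
        intro G
        rw [← sum_filter_add_sum_filter_not
          ((univ : Finset (ZMod n)).filter (fun x => W t n f x % t = 0))
          (fun x => t ^ (p' + 1) * W t n f x ≤ (t - 1) * t ^ n), filter_filter, filter_filter]
      have hbigeq : ∑ x ∈ (univ : Finset (ZMod n)).filter
            (fun x => W t n f x % t = 0 ∧ ¬ t ^ (p' + 1) * W t n f x ≤ (t - 1) * t ^ n),
            dg t n (d * cC t n m C') x * W t n f x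
          = ∑ x ∈ (univ : Finset (ZMod n)).filter
            (fun x => W t n f x % t = 0 ∧ ¬ t ^ (p' + 1) * W t n f x ≤ (t - 1) * t ^ n),
            dg t n (d * cC t n m C) x * W t n f x := by
        apply sum_congr rfl
        intro x hx
        rw [mem_filter] at hx
        rw [hbu x (by omega)]
      rw [hsplit, hbigeq] at hm2'
      rw [hsplit] at hm1'
      rw [hsumC] at hm2'
      change K ≤ _
      omega

/-- at the start no big position carries content -/
theorem E4_start (ht : 6 ≤ t) (h : Lvl t n m d f)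
    (hA : ∀ i : ZMod n, dg t n d i ≠ 0 → t * W t n f i < t ^ n)
    (hstar : ∀ i : ZMod n, dg t n d i ≠ 0 → (t - 1) * t ^ n < t ^ 2 * W t n f i →
      dg t n d i ≤ t - 3) (C : ℕ → ℕ)
    (hC : ∀ l, C l = if l = 0 ∨ l = m then 1 else 0) (x : ZMod n) (hx : W t n f x % t = 0)
    (hbig : (t - 1) * t ^ n < t * W t n f x) : dg t n (d * cC t n m C) x = 0 := by
  have hmn := h.mn
  have hm1 := h.m1
  have hcC : d * cC t n m C = d + d * P t n (-(m : ZMod n)) := by
    unfold cC
    have h1 : ∑ l ∈ range (m + 1), (C l : ZMod (t ^ n - 1)) * P t n (-(l : ZMod n))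
        = 1 + P t n (-(m : ZMod n)) := by
      rw [sum_range_succ]
      obtain ⟨m', rfl⟩ : ∃ m', m = m' + 1 := ⟨m - 1, by omega⟩
      rw [sum_range_succ']
      have h2 : ∑ k ∈ range m', (C (k + 1) : ZMod (t ^ n - 1)) * P t n (-((k + 1 : ℕ) : ZMod n))
          = 0 := by
        apply sum_eq_zero
        intro k hk
        rw [mem_range] at hk
        rw [hC, if_neg (by omega)]
        simp
      rw [h2, hC, hC, if_pos (Or.inl rfl), if_pos (Or.inr rfl)]
      rw [Nat.cast_zero, neg_zero, P_zero]
      simp
    rw [h1]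
    ring
  have hrot : ∀ y : ZMod n, dg t n (d * P t n (-(m : ZMod n))) y = dg t n d (y + (m : ZMod n)) := by
    intro y
    unfold dg
    rw [← W_add (by omega)]
    congr 2
    ring
  obtain ⟨c, hc1, hc2⟩ := add_carry (t := t) (n := n) (by omega) d (d * P t n (-(m : ZMod n)))
  rw [hcC]
  have htt : 1 * t ^ n ≤ (t - 1) * t ^ n := Nat.mul_le_mul_right _ (by omega)
  have h1 : dg t n d x = 0 := by
    by_contra hne
    have := hA x hne
    omega
  have h2 : dg t n d (x + (m : ZMod n)) = 0 := by
    by_contra hne
    have h3 := hA _ hne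
    have h4 := h.A_exact (by omega) hne (l := m) le_rfl
    rw [add_sub_cancel_right] at h4
    have h5 : 1 * W t n f x ≤ t ^ m * W t n f x :=
      Nat.mul_le_mul_right _ (Nat.one_le_pow _ _ (by omega))
    rw [one_mul, ← h4] at h5
    have h6 : t * W t n f x ≤ t * W t n f (x + (m : ZMod n)) := Nat.mul_le_mul_left _ h5
    omega
  have h3 : c x = 0 := by
    by_contra hne
    have h4 : c x = 1 := by have := hc1 x; omega
    have h5 := hc2 (x - 1)
    rw [sub_add_cancel, h4, hrot] at h5
    have h6 : W t n f x = t * W t n f (x - 1) := by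
      have h7 : x - 1 + 1 = x := by ring
      have h8 := W_eq_mul_of_dvd (by omega) f (x - 1) (by rw [h7]; exact hx)
      rwa [h7] at h8
    have h7 : dg t n d (x - 1 + (m : ZMod n)) = 0 := by
      by_contra hne2
      have h8 := hA _ hne2
      have h9 := h.A_exact (by omega) hne2 (l := m) le_rfl
      rw [add_sub_cancel_right] at h9
      have h10 : t ^ 1 * W t n f (x - 1) ≤ t ^ m * W t n f (x - 1) :=
        Nat.mul_le_mul_right _ (Nat.pow_le_pow_right (by omega) hm1)
      rw [pow_one, ← h6, ← h9] at h10
      have h11 : t * W t n f x ≤ t * W t n f (x - 1 + (m : ZMod n)) :=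
        Nat.mul_le_mul_left _ h10
      omega
    have h8 : dg t n d (x - 1) ≤ t - 3 := by
      by_cases h9 : dg t n d (x - 1) = 0
      · omega
      · apply hstar _ h9
        rw [pow_two, mul_assoc, ← h6]
        exact hbig
    have h9 := hc1 (x - 1)
    omega
  have h4 := hc2 x
  rw [hrot, h1, h2, h3] at h4
  omega

/-- the engine E4 -/
theorem E4_engine (ht : 6 ≤ t) (h : Lvl t n m d f)
    (hA : ∀ i : ZMod n, dg t n d i ≠ 0 → t * W t n f i < t ^ n)
    (hB : ∀ j : ZMod n, dg t n f j ≠ 0 → t * W t n d j < t ^ n)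
    (hstar : ∀ i : ZMod n, dg t n d i ≠ 0 → (t - 1) * t ^ n < t ^ 2 * W t n f i →
      dg t n d i ≤ t - 3) : Pair t n d f := by
  classical
  have hmn := h.mn
  have hm1 := h.m1
  obtain ⟨i1, j1, hi1, hj1, hij⟩ := h.ex
  have hj1' : W t n f (i1 - (m : ZMod n)) % t ≠ 0 := by
    have h1 : i1 - (m : ZMod n) = -j1 := by rw [← hij]; ring
    rw [h1]
    exact hj1
  set C : ℕ → ℕ := fun l => if l = 0 ∨ l = m then 1 else 0 with hC
  have hC1 : ∀ l, C l ≤ 1 := by
    intro l
    simp only [hC]
    split_ifs <;> omega
  have hC0 : C 0 = 1 := by simp [hC]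
  have hCm : C m = 1 := by simp [hC]
  have hs : W t n f (i1 - (m : ZMod n)) < t ^ (n - m) := by
    have h1 := h.A_exact (by omega) hi1 (l := m) le_rfl
    have h2 := W_lt' (by omega : 2 ≤ t) f i1
    have h3 : t ^ n = t ^ m * t ^ (n - m) := by rw [← _root_.pow_add]; congr 1; omega
    rw [h1, h3] at h2
    exact Nat.lt_of_mul_lt_mul_left h2
  apply E4_step ht h hA hB hstar m 0 C (i1 - (m : ZMod n)) 0 0 (W t n f (i1 - (m : ZMod n)))
    (by omega)
  refine
    { hpm := hm1
      hC := hC1
      hC0 := hC0
      hCm := hCm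
      hCz := ?_
      hx1 := hj1'
      hx1' := by rw [sub_add_cancel]; exact hi1
      hY := ?_
      hYc := ?_
      hYE := ?_
      hS := ?_
      hs := hs
      hq := ?_
      hdig := ?_
      hlow := ?_ }
  · intro l hl1 hl2
    simp only [hC]
    rw [if_neg (by omega)]
  · intro y hy
    exact absurd hy (Multiset.notMem_zero y)
  · intro y
    simp
  · intro y hy
    exact absurd hy (Multiset.notMem_zero y)
  · simp
  · simp
  · intro l hl1 hl2
    omega
  · have hm1' := mass01 (by omega) h hB C hC1 hC0 hCm
    have hclo := clo_le (by omega : 2 ≤ t) h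
    have hsumC : ∑ l ∈ range (m + 1), C l * t ^ (n - l) = t ^ n + t ^ (n - m) := by
      rw [sum_range_succ]
      obtain ⟨m', rfl⟩ : ∃ m', m = m' + 1 := ⟨m - 1, by omega⟩
      rw [sum_range_succ', hCm, hC0]
      have h2 : ∑ k ∈ range m', C (k + 1) * t ^ (n - (k + 1)) = 0 := by
        apply sum_eq_zero
        intro k hk
        rw [mem_range] at hk
        simp only [hC]
        rw [if_neg (by omega), zero_mul]
      rw [h2]
      simp
    have hsplit : ∑ x ∈ (univ : Finset (ZMod n)).filter (fun x => W t n f x % t = 0),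
          dg t n (d * cC t n m C) x * W t n f x
        = ∑ x ∈ (univ : Finset (ZMod n)).filter
            (fun x => W t n f x % t = 0 ∧ t ^ (0 + 1) * W t n f x ≤ (t - 1) * t ^ n),
            dg t n (d * cC t n m C) x * W t n f x
          + ∑ x ∈ (univ : Finset (ZMod n)).filter
            (fun x => W t n f x % t = 0 ∧ ¬ t ^ (0 + 1) * W t n f x ≤ (t - 1) * t ^ n),
              dg t n (d * cC t n m C) x * W t n f x := by
      rw [← sum_filter_add_sum_filter_not
        ((univ : Finset (ZMod n)).filter (fun x => W t n f x % t = 0))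
        (fun x => t ^ (0 + 1) * W t n f x ≤ (t - 1) * t ^ n), filter_filter, filter_filter]
    have hz : ∑ x ∈ (univ : Finset (ZMod n)).filter
            (fun x => W t n f x % t = 0 ∧ ¬ t ^ (0 + 1) * W t n f x ≤ (t - 1) * t ^ n),
              dg t n (d * cC t n m C) x * W t n f x = 0 := by
      apply sum_eq_zero
      intro x hx
      rw [mem_filter] at hx
      obtain ⟨_, hx1, hx2⟩ := hx
      rw [zero_add, pow_one] at hx2
      rw [E4_start ht h hA hstar C (fun l => rfl) x hx1 (by omega), zero_mul]
    rw [hsplit, hz, hsumC] at hm1'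
    rw [Nat.sub_zero]
    omega

end

end Pool.Agent.H54.Afa
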