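import Mathlib
import Pool.Agent.H54.Afa.EJWrap

set_option autoImplicit false

namespace Pool.Agent.H54.Afa

open Finset

variable {t n m : ℕ} [NeZero n] {d f : ZMod (t ^ n - 1)}

/-- the final inequality of `case_X1b` -/
theorem x1b_num (q r a Y T A0 B0 : ℕ) (hT : T = q * r) (hA0 : A0 = q * a) (hAT : A0 < T)
    (hAB : A0 ≤ B0) (hY1 : B0 < r * (Y + 1)) (hY2 : Y + 2 ≤ q) :
    a ≤ 3 * (T - A0) ∧ T ≤ 3 * (T - A0) + a * Y := by
  have hr : a < r := by
    by_contra hcon
    push Not at hcon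
    have := Nat.mul_le_mul_left q hcon
    omega
  obtain ⟨s, hs⟩ : ∃ s, r = a + s := ⟨r - a, by omega⟩
  obtain ⟨z, hz⟩ : ∃ z, q = Y + 1 + z := ⟨q - Y - 1, by omega⟩
  have h1 : T - A0 = q * s := by
    rw [hT, hA0, hs, Nat.mul_add, Nat.add_sub_cancel_left]
  have h2 : r * (Y + 1) + r ≤ q * r := by
    have : r * (Y + 1) + r = (Y + 2) * r := by ring
    rw [this]
    exact Nat.mul_le_mul_right r hY2
  have h3 : r ≤ q * s := by
    rw [← h1]
    omega
  have h4 : r * z ≤ q * s := by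
    have e1 : q * r = r * (Y + 1) + r * z := by rw [hz]; ring
    have e2 : q * r = q * a + q * s := by rw [hs]; ring
    omega
  have h5 : a * z ≤ q * s := le_trans (Nat.mul_le_mul_right z hr.le) h4
  rw [h1]
  refine ⟨by omega, ?_⟩
  have e3 : T = q * s + (a * Y + a + a * z) := by
    rw [hT, hs, hz]
    ring
  rw [e3]
  omega

theorem x1b_zero (ht : 2 ≤ t) (u : ZMod (t ^ n - 1)) (h : t * W t n u (-1) < t ^ n) :
    W t n u 0 = t * W t n u (-1) ∧ W t n u 0 % t = 0 := by
  have h1 := W_step ht u (-1 : ZMod n)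
  rw [neg_add_cancel] at h1
  have hN := N_succ (n := n) ht
  have h2 : W t n u 0 % t = 0 := by
    by_contra hne
    have h3 : 1 ≤ W t n u 0 % t := Nat.one_le_iff_ne_zero.mpr hne
    have h4 : (t ^ n - 1) * 1 ≤ (t ^ n - 1) * (W t n u 0 % t) := Nat.mul_le_mul_left _ h3
    have h5 : W t n u 0 = 0 := by omega
    rw [h5] at hne
    simp at hne
  refine ⟨?_, h2⟩
  rw [h2, mul_zero, zero_add] at h1
  exact h1.symm

theorem x1b_dvd (ht : 2 ≤ t) (h : Lvl t n m d f) {i : ZMod n} (hi : dg t n d i ≠ 0) :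
    t ^ (m + 1) ∣ W t n f i ↔ dg t n f ((m : ZMod n) - i) = 0 := by
  have h1 := h.A_exact ht hi (l := m) le_rfl
  have h2 : dg t n f ((m : ZMod n) - i) = W t n f (i - (m : ZMod n)) % t := by
    unfold dg
    rw [neg_sub]
  rw [h1, h2, pow_succ]
  have h3 : 0 < t ^ m := Nat.pow_pos (by omega)
  rw [Nat.mul_dvd_mul_iff_left h3]
  exact ⟨fun h => Nat.mod_eq_zero_of_dvd h, fun h => Nat.dvd_of_mod_eq_zero h⟩

/-- existence of the closing position -/
theorem x1b_ex (ht : 2 ≤ t) (h : Lvl t n m d f) (k : ℕ)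
    (hk : ∀ l < k, dg t n d (-((l + 1 : ℕ) : ZMod n)) = t - 1) :
    ∃ i1 : ZMod n, dg t n d i1 ≠ 0 ∧ dg t n f ((m : ZMod n) - i1) ≠ 0 ∧
      ∀ l < k, i1 ≠ -((l + 1 : ℕ) : ZMod n) := by
  by_contra hcon
  push Not at hcon
  obtain ⟨i, j, hi, hj, hij⟩ := h.ex
  have hj' : j = (m : ZMod n) - i := by rw [← hij]; ring
  rw [hj'] at hj
  obtain ⟨l0, hl0, _⟩ := hcon i hi hj
  obtain ⟨k', rfl⟩ : ∃ k', k = k' + 1 := ⟨k - 1, by omega⟩
  have hall : ∀ x : ZMod n, dg t n d x ≠ 0 → x ≠ -((k' + 1 : ℕ) : ZMod n) →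
      t ^ (m + 1) ∣ W t n f x := by
    intro x hx hxk
    by_cases hF : dg t n f ((m : ZMod n) - x) = 0
    · exact (x1b_dvd ht h hx).mpr hF
    · obtain ⟨l, hl, hxl⟩ := hcon x hx hF
      have hlk : l ≠ k' := by
        intro h0
        rw [h0] at hxl
        exact hxk hxl
      have h3 : dg t n d (-((l + 1 + 1 : ℕ) : ZMod n)) ≠ 0 := by
        rw [hk (l + 1) (by omega)]
        omega
      have h4 := h.A_exact ht hx (l := 1) h.m1
      have h5 : x - ((1 : ℕ) : ZMod n) = -((l + 1 + 1 : ℕ) : ZMod n) := by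
        rw [hxl]
        push_cast
        ring
      rw [h5, pow_one] at h4
      have h6 := h.A_exact ht h3 (l := m) le_rfl
      rw [h4, h6, pow_succ']
      exact Nat.mul_dvd_mul_left t (Dvd.intro _ rfl)
  have hdk : dg t n d (-((k' + 1 : ℕ) : ZMod n)) = t - 1 := hk k' (by omega)
  have hsum := h.a2
  rw [← Finset.add_sum_erase _ _ (mem_univ (-((k' + 1 : ℕ) : ZMod n)))] at hsum
  have h7 : t ^ (m + 1) ∣ ∑ x ∈ univ.erase (-((k' + 1 : ℕ) : ZMod n)),
      dg t n d x * W t n f x := by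
    apply Finset.dvd_sum
    intro x hx
    by_cases hx0 : dg t n d x = 0
    · rw [hx0, zero_mul]
      exact dvd_zero _
    · exact Dvd.dvd.mul_left (hall x hx0 (Finset.ne_of_mem_erase hx)) _
  have h8 : t ^ (m + 1) ∣ t ^ n := pow_dvd_pow t h.mn
  rw [← hsum] at h8
  have h9 := (Nat.dvd_add_left h7).mp h8
  rw [hdk] at h9
  have hcop : Nat.Coprime (t ^ (m + 1)) (t - 1) := by
    apply Nat.Coprime.pow_left
    have := Nat.coprime_self_sub_right (n := t) (m := 1) (by omega)
    exact this.mpr (Nat.coprime_one_right t)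
  have h10 := hcop.dvd_of_dvd_mul_left h9
  have h11 : t ^ (m + 1) ∣ W t n f i := by
    by_cases hik : i = -((k' + 1 : ℕ) : ZMod n)
    · rw [hik]
      exact h10
    · exact hall i hi hik
  exact hj ((x1b_dvd ht h hi).mp h11)

/-- both multipliers close to `1`, sum of positions `-2` -/
theorem case_X1b (ht : 6 ≤ t) (h : Lvl t n m d f)
    (hA : ∀ i : ZMod n, dg t n d i ≠ 0 → t * W t n f i < t ^ n)
    (hB : ∀ j : ZMod n, dg t n f j ≠ 0 → t * W t n d j < t ^ n)
    (h1 : dg t n d (-1) ≠ 0) (h2 : dg t n f (-1) ≠ 0)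
    (ha : (t - 1) * t ^ n < t ^ 2 * W t n f (-1))
    (hb : (t - 1) * t ^ n < t ^ 2 * W t n d (-1))
    (hab : W t n f (-1) ≤ W t n d (-1)) : Pair t n d f := by
  have ht2 : 2 ≤ t := by omega
  have hn := n_pos (n := n)
  obtain ⟨hA0, hA0'⟩ := x1b_zero ht2 f (hA _ h1)
  obtain ⟨hB0, hB0'⟩ := x1b_zero ht2 d (hB _ h2)
  have hD0 : dg t n d 0 = 0 := by
    unfold dg
    rw [neg_zero]
    exact hB0'
  -- the run of digits `t - 1`
  have hexk : ∃ l : ℕ, dg t n d (-((l + 1 : ℕ) : ZMod n)) ≠ t - 1 := by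
    refine ⟨n - 1, ?_⟩
    rw [Nat.sub_add_cancel hn, ZMod.natCast_self, neg_zero, hD0]
    omega
  obtain ⟨k, hkn, hk1, hk2⟩ : ∃ k, k + 1 ≤ n ∧ (∀ l < k, dg t n d (-((l + 1 : ℕ) : ZMod n)) = t - 1)
      ∧ dg t n d (-((k + 1 : ℕ) : ZMod n)) ≠ t - 1 := by
    classical
    refine ⟨Nat.find hexk, ?_, ?_, Nat.find_spec hexk⟩
    · have : Nat.find hexk ≤ n - 1 := by
        apply Nat.find_min'
        rw [Nat.sub_add_cancel hn, ZMod.natCast_self, neg_zero, hD0]
        omega
      omega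
    · intro l hl
      have := Nat.find_min hexk hl
      push Not at this
      exact this
  have hAstep : ∀ l, l ≤ k + 1 → W t n f 0 = t ^ l * W t n f (-(l : ZMod n)) := by
    intro l
    induction l with
    | zero => intro _; simp
    | succ l ih =>
      intro hl
      rw [ih (by omega)]
      rcases Nat.eq_zero_or_pos l with h0 | h0
      · subst h0
        rw [pow_zero, one_mul, Nat.cast_zero, neg_zero, hA0, zero_add, pow_one, Nat.cast_one]
      · obtain ⟨l', rfl⟩ : ∃ l', l = l' + 1 := ⟨l - 1, by omega⟩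
        have h3 : dg t n d (-((l' + 1 : ℕ) : ZMod n)) ≠ 0 := by
          rw [hk1 l' (by omega)]
          omega
        have h4 := h.A_exact ht2 h3 (l := 1) h.m1
        have h5 : -((l' + 1 : ℕ) : ZMod n) - ((1 : ℕ) : ZMod n) = -((l' + 1 + 1 : ℕ) : ZMod n) := by
          push_cast
          ring
        rw [h5, pow_one] at h4
        rw [h4, pow_succ t (l' + 1)]
        ring
  obtain ⟨i1, hi1, hj1, hne⟩ := x1b_ex ht2 h k hk1
  -- numbers
  set Y := W t n d 0 / t ^ (n - (k + 1)) with hYdef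
  have hr0 : 0 < t ^ (n - (k + 1)) := Nat.pow_pos (by omega)
  have hTqr : t ^ n = t ^ (k + 1) * t ^ (n - (k + 1)) := by
    rw [← _root_.pow_add]
    congr 1
    omega
  have hY1 : W t n d 0 < t ^ (n - (k + 1)) * (Y + 1) := by
    have := Nat.lt_mul_div_succ (W t n d 0) hr0
    exact this
  have hYq : Y < t ^ (k + 1) := by
    rw [hYdef, Nat.div_lt_iff_lt_mul hr0, ← hTqr]
    exact W_lt' ht2 d 0
  have hYt : Y % t = dg t n d (-((k + 1 : ℕ) : ZMod n)) := by
    rw [dg_neg' ht2 d (k + 1) (by omega) hkn]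
  have hY2 : Y + 2 ≤ t ^ (k + 1) := by
    by_contra hcon
    have h3 : Y + 1 = t ^ k * t := by
      rw [← pow_succ]
      omega
    have h4 : Y % t = t - 1 := by
      have h5 : (Y + 1) % t = 0 := by
        rw [h3]
        exact Nat.mul_mod_left _ _
      have h6 := Nat.mod_lt Y (show t > 0 by omega)
      rw [Nat.add_mod, Nat.mod_eq_of_lt (show 1 < t by omega)] at h5
      by_contra h7
      rw [Nat.mod_eq_of_lt (by omega)] at h5
      omega
    exact hk2 (by rw [← hYt]; exact h4)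
  obtain ⟨hn1, hn2⟩ := x1b_num (t ^ (k + 1)) (t ^ (n - (k + 1)))
    (W t n f (-((k + 1 : ℕ) : ZMod n))) Y (t ^ n) (W t n f 0) (W t n d 0) hTqr
    (hAstep (k + 1) le_rfl) (W_lt' ht2 f 0)
    (by rw [hA0, hB0]; exact Nat.mul_le_mul_left t hab) hY1 hY2
  have hκ : W t n f i1 ≤ 3 * (t ^ n - W t n f 0) := by
    by_cases hcase : i1 = -((k + 1 : ℕ) : ZMod n)
    · rw [hcase]
      exact hn1
    · -- the mass
      have hinj : Set.InjOn (fun l : ℕ => -((l + 1 : ℕ) : ZMod n)) (range (k + 1)) := by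
        intro a ha b hb hab'
        simp only [Finset.coe_range, Set.mem_Iio] at ha hb
        have h3 : (-((a : ℕ) : ZMod n)) = -((b : ℕ) : ZMod n) := by
          have h4 : -((a + 1 : ℕ) : ZMod n) = -((b + 1 : ℕ) : ZMod n) := hab'
          push_cast at h4
          linear_combination h4
        exact neg_nat_inj (K := k + 1) hkn ha hb h3
      have hnot : i1 ∉ (range (k + 1)).image (fun l : ℕ => -((l + 1 : ℕ) : ZMod n)) := by
        rw [Finset.mem_image]
        rintro ⟨l, hl, hl2⟩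
        rw [Finset.mem_range] at hl
        rcases Nat.lt_or_ge l k with h3 | h3
        · exact hne l h3 hl2.symm
        · have : l = k := by omega
          rw [this] at hl2
          exact hcase hl2.symm
      have hsub : insert i1 ((range (k + 1)).image (fun l : ℕ => -((l + 1 : ℕ) : ZMod n))) ⊆ univ :=
        subset_univ _
      have h3 := Finset.sum_le_sum_of_subset (f := fun x => dg t n d x * W t n f x) hsub
      rw [Finset.sum_insert hnot, Finset.sum_image hinj, h.a2] at h3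
      have h4 : ∑ l ∈ range (k + 1), dg t n d (-((l + 1 : ℕ) : ZMod n)) *
          W t n f (-((l + 1 : ℕ) : ZMod n)) = W t n f (-((k + 1 : ℕ) : ZMod n)) * Y := by
        have h5 := sum_digits t (by omega) (k + 1) Y hYq
        rw [← Finset.sum_range_reflect] at h5
        conv_rhs => rw [← h5]
        rw [mul_sum]
        apply sum_congr rfl
        intro l hl
        rw [Finset.mem_range] at hl
        have e1 : Y / t ^ (k + 1 - 1 - l) % t = dg t n d (-((l + 1 : ℕ) : ZMod n)) := by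
          rw [dg_neg' ht2 d (l + 1) (by omega) (by omega), hYdef, Nat.div_div_eq_div_mul,
            ← _root_.pow_add]
          congr 3
          omega
        have e2 : W t n f (-((l + 1 : ℕ) : ZMod n)) =
            t ^ (k + 1 - 1 - l) * W t n f (-((k + 1 : ℕ) : ZMod n)) := by
          have e3 := hAstep (l + 1) (by omega)
          rw [hAstep (k + 1) le_rfl] at e3
          have e4 : t ^ (k + 1) = t ^ (l + 1) * t ^ (k + 1 - 1 - l) := by
            rw [← _root_.pow_add]
            congr 1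
            omega
          rw [e4, mul_assoc] at e3
          exact (Nat.eq_of_mul_eq_mul_left (Nat.pow_pos (by omega)) e3).symm
        rw [e1, e2]
        ring
      rw [h4] at h3
      have h6 : 1 * W t n f i1 ≤ dg t n d i1 * W t n f i1 :=
        Nat.mul_le_mul_right _ (Nat.one_le_iff_ne_zero.mpr hi1)
      omega
  have hneg1 : ∀ l ≤ m, W t n f 0 = t ^ l * W t n f (-(l : ZMod n)) := by
    intro l hl
    rcases Nat.eq_zero_or_pos l with h0 | h0
    · subst h0
      simp
    · obtain ⟨l', rfl⟩ : ∃ l', l = l' + 1 := ⟨l - 1, by omega⟩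
      have h3 := h.A_exact ht2 h1 (l := l') (by omega)
      have h4 : (-1 : ZMod n) - (l' : ZMod n) = -((l' + 1 : ℕ) : ZMod n) := by
        push_cast
        ring
      rw [h4] at h3
      rw [hA0, h3, pow_succ']
      ring
  apply EJ_wrap ht h h2 hneg1 _ _ _ _ i1 hi1 hj1 hκ _ _
  · intro l hl
    rcases Nat.eq_zero_or_pos l with h0 | h0
    · subst h0
      simpa using hA0'
    · obtain ⟨l', rfl⟩ : ∃ l', l = l' + 1 := ⟨l - 1, by omega⟩
      have h3 := h.A_zero h1 (l := l') (by omega)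
      have h4 : (-1 : ZMod n) - (l' : ZMod n) = -((l' + 1 : ℕ) : ZMod n) := by
        push_cast
        ring
      rwa [h4] at h3
  · have h3 : t * W t n f 0 = t ^ 2 * W t n f (-1) := by
      rw [hA0]
      ring
    rw [h3]
    exact ha
  · rw [hA0]
    exact Nat.mul_le_mul_left t hab
  · have h3 := hB _ h2
    have h4 : (t - 1) * W t n d (-1) ≤ t * W t n d (-1) := Nat.mul_le_mul_right _ (by omega)
    omega
  · intro j hj
    have h3 := hB j hj
    have h4 : (t - 1) * W t n d j ≤ t * W t n d j := Nat.mul_le_mul_right _ (by omega)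
    omega
  · intro i hi _
    exact (hA i hi).le

end Pool.Agent.H54.Afa
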