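import Mathlib
import Pool.Agent.H54.Afa.C1
import Pool.Agent.H54.Afa.E4
import Pool.Agent.H54.Afa.CaseII
import Pool.Agent.H54.Afa.X1b

set_option autoImplicit false

namespace Pool.Agent.H54.Afa

open Finset

theorem caseI_num (t T a b : ℕ) (ht : 6 ≤ t) (h1 : (t - 1) * T < t ^ 2 * a)
    (h2 : (t - 2) * T ≤ t * (t * b)) (h3 : (t - 2) * a + (t - 1) * b ≤ T) : False := by
  obtain ⟨s, rfl⟩ : ∃ s, t = s + 6 := ⟨t - 6, by omega⟩
  simp only [show s + 6 - 2 = s + 4 by omega, show s + 6 - 1 = s + 5 by omega] at *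
  have h4 : (s + 4) * ((s + 5) * T) < (s + 4) * ((s + 6) ^ 2 * a) :=
    Nat.mul_lt_mul_of_pos_left h1 (by omega)
  have h5 : (s + 5) * ((s + 4) * T) ≤ (s + 5) * ((s + 6) * ((s + 6) * b)) :=
    Nat.mul_le_mul_left _ h2
  have h6 : (s + 6) ^ 2 * ((s + 4) * a + (s + 5) * b) ≤ (s + 6) ^ 2 * T :=
    Nat.mul_le_mul_left _ h3
  have h7 : (s + 6) ^ 2 * T ≤ 2 * ((s + 4) * ((s + 5) * T)) := by
    have : (s + 6) ^ 2 ≤ 2 * ((s + 4) * (s + 5)) := by nlinarith
    calc (s + 6) ^ 2 * T ≤ 2 * ((s + 4) * (s + 5)) * T := Nat.mul_le_mul_right _ this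
      _ = _ := by ring
  have h8 : (s + 6) ^ 2 * ((s + 4) * a + (s + 5) * b)
      = (s + 4) * ((s + 6) ^ 2 * a) + (s + 5) * ((s + 6) * ((s + 6) * b)) := by ring
  have h9 : (s + 5) * ((s + 4) * T) = (s + 4) * ((s + 5) * T) := by ring
  omega

section
variable {t n m : ℕ} [NeZero n] {d f : ZMod (t ^ n - 1)}

/-- in case I all multipliers are below `1/t` -/
theorem caseI_A (ht : 6 ≤ t)
    (hI : ∀ i j : ZMod n, dg t n d i ≠ 0 → dg t n f j ≠ 0 → i + j ≠ -1) :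
    ∀ i : ZMod n, dg t n d i ≠ 0 → W t n f (i + 1) % t = 0 ∧ t * W t n f i < t ^ n := by
  intro i hi
  have h1 : W t n f (i + 1) % t = 0 := by
    by_contra hne
    have h2 : dg t n f (-(i + 1)) ≠ 0 := by unfold dg; rwa [neg_neg]
    exact hI i _ hi h2 (by ring)
  refine ⟨h1, ?_⟩
  have h3 := W_eq_mul_of_dvd (by omega : 2 ≤ t) f i h1
  rw [← h3]
  exact W_lt' (by omega) f _

/-- case I with both sides having a large multiplier with a large digit -/
theorem caseI_both (ht : 6 ≤ t) (h : Lvl t n m d f)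
    (hI : ∀ i j : ZMod n, dg t n d i ≠ 0 → dg t n f j ≠ 0 → i + j ≠ -1)
    (i1 j1 : ZMod n) (hi1 : dg t n d i1 ≠ 0) (hi2 : (t - 1) * t ^ n < t ^ 2 * W t n f i1)
    (hi3 : t - 2 ≤ dg t n d i1)
    (hj1 : dg t n f j1 ≠ 0) (hj2 : (t - 1) * t ^ n < t ^ 2 * W t n d j1)
    (hj3 : t - 2 ≤ dg t n f j1) : i1 + j1 = -2 := by
  have ht2 : 2 ≤ t := by omega
  have hIs : ∀ i j : ZMod n, dg t n f i ≠ 0 → dg t n d j ≠ 0 → i + j ≠ -1 :=
    fun i j hi hj => by rw [add_comm]; exact hI j i hj hi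
  have hT : t ^ n - 1 + 1 = t ^ n := N_succ (n := n) ht2
  -- the digit of `d` at `-2 - j1`
  have h1 := (caseI_A ht hIs j1 hj1).1
  have h2 := W_eq_mul_of_dvd ht2 d j1 h1
  have h3 := W_step ht2 d (j1 + 1)
  have h4 : j1 + 1 + 1 = -(-2 - j1) := by ring
  rw [h4] at h3
  have h5 : W t n d (-(-2 - j1)) % t = dg t n d (-2 - j1) := rfl
  have h6 := W_lt ht2 d (-(-2 - j1))
  have h7 := dg_lt ht2 d (-2 - j1)
  have h8 : dg t n d (-2 - j1) = t - 1 := by
    by_contra hne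
    have h9 : (t ^ n - 1) * dg t n d (-2 - j1) ≤ (t ^ n - 1) * (t - 2) :=
      Nat.mul_le_mul_left _ (by omega)
    have h10 : (t - 1) * t ^ n < t * (t * W t n d j1) := by
      rw [← mul_assoc, ← pow_two]; exact hj2
    rw [← h2, h3, h5] at h10
    have h11 : (t ^ n - 1) * (t - 2) + (t ^ n - 1) = (t ^ n - 1) * (t - 1) := by
      rw [← Nat.mul_succ]; congr 1; omega
    have h12 : (t ^ n - 1) * (t - 1) ≤ (t - 1) * t ^ n := by
      rw [mul_comm]; exact Nat.mul_le_mul_left _ (by omega)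
    omega
  -- the multiplier at `-2 - j1`
  have h9 : dg t n d (-2 - j1) ≠ 0 := by omega
  have h10 := (caseI_A ht hI _ h9).1
  have h11 := W_eq_mul_of_dvd ht2 f _ h10
  have h12 := W_step ht2 f (-2 - j1 + 1)
  have h13 : -2 - j1 + 1 + 1 = -j1 := by ring
  rw [h13] at h12
  have h14 : W t n f (-j1) % t = dg t n f j1 := rfl
  have h15 : dg t n f j1 ≤ W t n f (-j1) := by rw [← h14]; exact Nat.mod_le _ _
  rw [h14, h11] at h12
  have h16 : (t - 2) * t ^ n ≤ t * (t * W t n f (-2 - j1)) := by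
    rw [h12]
    have h17 : (t ^ n - 1) * (t - 2) ≤ (t ^ n - 1) * dg t n f j1 := Nat.mul_le_mul_left _ hj3
    have h18 : (t - 2) * t ^ n = (t ^ n - 1) * (t - 2) + (t - 2) := by
      rw [mul_comm (t ^ n - 1), ← Nat.mul_succ]; congr 1; omega
    omega
  by_contra hne
  have hne' : i1 ≠ -2 - j1 := by
    intro heq
    apply hne
    rw [heq]; ring
  -- mass
  have h20 : dg t n d i1 * W t n f i1 + dg t n d (-2 - j1) * W t n f (-2 - j1) ≤ t ^ n := by
    rw [← h.a2, ← sum_pair hne' (f := fun x => dg t n d x * W t n f x)]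
    exact sum_le_sum_of_subset (subset_univ _)
  rw [h8] at h20
  have h21 : (t - 2) * W t n f i1 ≤ dg t n d i1 * W t n f i1 := Nat.mul_le_mul_right _ hi3
  exact caseI_num t (t ^ n) (W t n f i1) (W t n f (-2 - j1)) ht hi2 h16 (by omega)

end

theorem case_I {t n m : ℕ} [NeZero n] {d f : ZMod (t ^ n - 1)} (ht : 6 ≤ t) (h : Lvl t n m d f)
    (hI : ∀ i j : ZMod n, dg t n d i ≠ 0 → dg t n f j ≠ 0 → i + j ≠ -1) : Pair t n d f := by
  have ht2 : 2 ≤ t := by omega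
  have hIs : ∀ i j : ZMod n, dg t n f i ≠ 0 → dg t n d j ≠ 0 → i + j ≠ -1 :=
    fun i j hi hj => by rw [add_comm]; exact hI j i hj hi
  have hA := fun i hi => (caseI_A ht hI i hi).2
  have hB := fun i hi => (caseI_A ht hIs i hi).2
  by_cases hs1 : ∀ i : ZMod n, dg t n d i ≠ 0 → (t - 1) * t ^ n < t ^ 2 * W t n f i →
      dg t n d i ≤ t - 3
  · exact E4_engine ht h hA hB hs1
  by_cases hs2 : ∀ i : ZMod n, dg t n f i ≠ 0 → (t - 1) * t ^ n < t ^ 2 * W t n d i →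
      dg t n f i ≤ t - 3
  · exact (E4_engine ht h.symm hB hA hs2).symm
  push Not at hs1 hs2
  obtain ⟨i1, hi1, hi2, hi3⟩ := hs1
  obtain ⟨j1, hj1, hj2, hj3⟩ := hs2
  have hij := caseI_both ht h hI i1 j1 hi1 hi2 (by omega) hj1 hj2 (by omega)
  have hr := h.rot ht2 (-1 - i1)
  apply Pair.rot ht2 (-1 - i1)
  have e1 : (-1 : ZMod n) - (-1 - i1) = i1 := by ring
  have e2 : (-1 : ZMod n) - -(-1 - i1) = j1 := by
    have : j1 = -2 - i1 := by rw [← hij]; ring
    rw [this]; ring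
  have e3 : -(-1 - i1) + -1 = i1 := by ring
  have e4 : (-1 - i1) + -1 = j1 := by
    have : j1 = -2 - i1 := by rw [← hij]; ring
    rw [this]; ring
  have hA' : ∀ i : ZMod n, dg t n (d * P t n (-1 - i1)) i ≠ 0 →
      t * W t n (f * P t n (-(-1 - i1))) i < t ^ n := by
    intro i hi
    rw [dg_rotP ht2] at hi
    rw [W_rotP ht2]
    have := hA _ hi
    rwa [show -(-1 - i1) + i = i - (-1 - i1) by ring]
  have hB' : ∀ i : ZMod n, dg t n (f * P t n (-(-1 - i1))) i ≠ 0 →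
      t * W t n (d * P t n (-1 - i1)) i < t ^ n := by
    intro i hi
    rw [dg_rotP ht2] at hi
    rw [W_rotP ht2]
    have := hB _ hi
    rwa [show (-1 - i1) + i = i - -(-1 - i1) by ring]
  rcases Nat.le_total (W t n f i1) (W t n d j1) with hle | hle
  · refine case_X1b ht hr hA' hB' ?_ ?_ ?_ ?_ ?_
    · rw [dg_rotP ht2, e1]; exact hi1
    · rw [dg_rotP ht2, e2]; exact hj1
    · rw [W_rotP ht2, e3]; exact hi2
    · rw [W_rotP ht2, e4]; exact hj2
    · rw [W_rotP ht2, W_rotP ht2, e3, e4]; exact hle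
  · apply Pair.symm
    refine case_X1b ht hr.symm hB' hA' ?_ ?_ ?_ ?_ ?_
    · rw [dg_rotP ht2, e2]; exact hj1
    · rw [dg_rotP ht2, e1]; exact hi1
    · rw [W_rotP ht2, e4]; exact hj2
    · rw [W_rotP ht2, e3]; exact hi2
    · rw [W_rotP ht2, W_rotP ht2, e3, e4]; exact hle

/-- the main theorem for units -/
theorem unit_case {t n : ℕ} [NeZero n] {d f : ZMod (t ^ n - 1)} (ht : 6 ≤ t) (hfd : f * d = 1)
    (hd : ∀ x : ZMod n, d ≠ P t n x) : Pair t n d f := by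
  by_contra hno
  have hg := good_of_not_pair (by omega : 2 ≤ t) hfd hd hno
  obtain ⟨m, h⟩ := hg.exists_lvl (by omega)
  apply hno
  by_cases hII : ∃ i j : ZMod n, dg t n d i ≠ 0 ∧ dg t n f j ≠ 0 ∧ i + j = -1
  · exact case_II ht h hII
  · push Not at hII
    exact case_I ht h (fun i j hi hj => hII i j hi hj)

end Pool.Agent.H54.Afa
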