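import Mathlib
import Pool.Agent.H54.Afa.CaseI
import Pool.Agent.H74.Cov.Digits

set_option autoImplicit false

namespace Pool.Agent.H54.Afa

open Pool.Agent.H74.Cov

/-- the covering theorem for all bases `t ≥ 6` -/
theorem covering_ge_six (t n d : ℕ) (ht : 6 ≤ t) (hn : 1 ≤ n)
    (hd : (d : ZMod (t ^ n - 1)) ≠ 0)
    (hpow : ∀ k : ℕ, (d : ZMod (t ^ n - 1)) ≠ (t : ZMod (t ^ n - 1)) ^ k) :
    ∃ a b : ZMod (t ^ n - 1), a ≠ 0 ∧ b ≠ 0 ∧
      ((∀ i < n, a.val / t ^ i % t ≤ b.val / t ^ i % t) ∧ a ≠ b) ∧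
      ((∀ i < n, ((d : ZMod (t ^ n - 1)) * b).val / t ^ i % t
          ≤ ((d : ZMod (t ^ n - 1)) * a).val / t ^ i % t) ∧
        (d : ZMod (t ^ n - 1)) * b ≠ (d : ZMod (t ^ n - 1)) * a) := by
  have hNZ : NeZero n := ⟨by omega⟩
  have ht2 : 2 ≤ t := by omega
  have htn : 2 ≤ t ^ n := by
    calc 2 ≤ t := ht2
      _ = t ^ 1 := (pow_one t).symm
      _ ≤ t ^ n := Nat.pow_le_pow_right (by omega) hn
  obtain ⟨N, hN⟩ : ∃ N, t ^ n - 1 = N := ⟨_, rfl⟩
  have htn' : t ^ n = N + 1 := by omega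
  have hNpos : 0 < N := by omega
  have hNne : NeZero (t ^ n - 1) := ⟨by omega⟩
  have hval : ∀ x : ℕ, x < N → ((x : ℕ) : ZMod (t ^ n - 1)).val = x := by
    intro x hx
    rw [ZMod.val_natCast, Nat.mod_eq_of_lt (by omega)]
  have hne0 : ∀ x : ℕ, 0 < x → x < N → ((x : ℕ) : ZMod (t ^ n - 1)) ≠ 0 := by
    intro x hx hx' h
    rw [ZMod.natCast_eq_zero_iff, hN] at h
    exact absurd (Nat.le_of_dvd hx h) (by omega)
  by_cases hg : Nat.gcd d N = 1
  · -- coprime case
    have hdunit : IsUnit (d : ZMod (t ^ n - 1)) := by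
      rw [ZMod.isUnit_iff_coprime, hN]
      exact hg
    obtain ⟨f, hf⟩ := hdunit.exists_left_inv
    obtain ⟨c, g, hc, hg0, ⟨h1, h2⟩, h3, h4⟩ := unit_case ht hf (fun x => hpow x.val)
    have hdb : (d : ZMod (t ^ n - 1)) * (f * g) = g := by
      rw [← mul_assoc, mul_comm (d : ZMod (t ^ n - 1)) f, hf, one_mul]
    refine ⟨c, f * g, hc, ?_, ⟨h3, h4⟩, ?_, ?_⟩
    · intro h
      apply hg0
      rw [← hdb, h, mul_zero]
    · rw [hdb]; exact h1
    · rw [hdb]; exact h2
  · -- gcd case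
    have htunit : IsUnit (t : ZMod (t ^ n - 1)) := by
      apply IsUnit.of_pow_eq_one (n := n) _ (by omega)
      exact t_pow_n ht2
    obtain ⟨g, hgdef⟩ : ∃ g, Nat.gcd d N = g := ⟨_, rfl⟩
    rw [hgdef] at hg
    have hgN : g ∣ N := hgdef ▸ Nat.gcd_dvd_right d N
    have hgd : g ∣ d := hgdef ▸ Nat.gcd_dvd_left d N
    obtain ⟨c, hc⟩ := hgN
    obtain ⟨e, he⟩ := hgd
    have hgpos : 0 < g := by
      rcases Nat.eq_zero_or_pos g with h | h
      · rw [h] at hc
        omega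
      · exact h
    have hcpos : 0 < c := by
      rcases Nat.eq_zero_or_pos c with h | h
      · rw [h] at hc
        omega
      · exact h
    have hcN : c < N := by
      rw [hc]
      have : 2 * c ≤ g * c := Nat.mul_le_mul_right _ (by omega)
      omega
    obtain ⟨i, hi, hi'⟩ := exists_digit_ne t ht2 n c hcpos (by omega)
    have hdb : (d : ZMod (t ^ n - 1)) * ((c : ℕ) : ZMod (t ^ n - 1)) = 0 := by
      rw [← Nat.cast_mul, ZMod.natCast_eq_zero_iff, hN]
      refine ⟨e, ?_⟩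
      rw [he, hc]
      ring
    have hda : (d : ZMod (t ^ n - 1)) * (t : ZMod (t ^ n - 1)) ^ i ≠ 0 := by
      intro h
      apply hd
      exact (htunit.pow i).mul_left_eq_zero.mp h
    have htiN : t ^ i < N := by
      by_contra hlt
      push Not at hlt
      have h1 : t ^ (i + 1) ≤ t ^ n := Nat.pow_le_pow_right (by omega) hi
      have h2 : t ^ (i + 1) = t ^ i * t := pow_succ t i
      have h3 : t ^ i * 2 ≤ t ^ i * t := Nat.mul_le_mul_left _ ht2
      have h4 : N = 1 := by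
        have : 0 < t ^ i := Nat.pow_pos (by omega)
        omega
      omega
    refine ⟨(t : ZMod (t ^ n - 1)) ^ i, ((c : ℕ) : ZMod (t ^ n - 1)), ?_, hne0 c hcpos hcN,
      ⟨?_, ?_⟩, ?_, ?_⟩
    · intro h
      apply hda
      rw [h, mul_zero]
    · intro j hj
      rw [hval c hcN, ← Nat.cast_pow, hval _ htiN, digit_pow t ht2 i j]
      split_ifs with hji
      · rw [hji]
        omega
      · exact Nat.zero_le _
    · intro h
      apply hda
      rw [h, hdb]
    · intro j _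
      rw [hdb, ZMod.val_zero, Nat.zero_div, Nat.zero_mod]
      exact Nat.zero_le _
    · rw [hdb]
      exact fun h => hda h.symm

end Pool.Agent.H54.Afa
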